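import Mathlib
import Pool.Agent.QVM.C30
import Pool.Agent.QVM.C45
import Pool.Agent.QVM.C51
import Pool.Agent.QVM.C54
import Pool.Agent.QVM.C55
import Pool.Agent.QVM.C58
import Pool.Agent.QVM.C62
import Pool.Agent.QVM.C64
import Pool.Agent.QVM.C67

/-! Parts: QCV.H_UHB, QCV.H_LNX, QCV.H_BLK, QCV.H_CNE, QCV.H_UST, QCV.H_CUB, QCV.H_BUP, QCV.H_UPP, QCV.H_UNV, QCV.H_ZPT -/

section

/-!
# QCV, block H: a domain of finite type over a perfect field is birational to an integral hypersurface
-/

set_option autoImplicit false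

namespace QCV

open UHA in
/-- An integral domain of finite type is birational to an integral hypersurface. -/
theorem t_UHB (k A : Type) [Field k] [PerfectField k] [CommRing A] [IsDomain A] [Algebra k A]
    [Algebra.FiniteType k A] (r : ℕ) (hr : Algebra.trdeg k A = r) :
    ∃ (g : MvPolynomial (Fin (r + 1)) k) (a : A)
      (h : MvPolynomial (Fin (r + 1)) k ⧸ Ideal.span {g}),
      IsDomain (MvPolynomial (Fin (r + 1)) k ⧸ Ideal.span {g}) ∧ h ≠ 0 ∧ a ≠ 0 ∧
      Nonempty (Localization.Away h ≃ₐ[k] Localization.Away a) := by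
  classical
  let K := FractionRing A
  have : Algebra.EssFiniteType A K := Algebra.EssFiniteType.of_isLocalization K (nonZeroDivisors A)
  have : Algebra.EssFiniteType k K := Algebra.EssFiniteType.comp k A K
  obtain ⟨s, hs, hsep⟩ := exists_isTranscendenceBasis_and_isSeparable_of_perfectField k K
  -- the cardinality of the transcendence basis
  have hcard : s.card = r := by
    have h1 := hs.cardinalMk_eq_trdeg
    have : Algebra.IsAlgebraic A K := IsLocalization.isAlgebraic K (nonZeroDivisors A)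
    have h2 : Algebra.trdeg k K = r := by
      rw [← hr, ← trdeg_add_eq k A (A := K), trdeg_eq_zero (R := A) (A := K), add_zero]
    rw [h2, Cardinal.mk_coe_finset] at h1
    exact_mod_cast h1
  let e : Fin r ≃ s := (Finset.equivFinOfCardEq hcard).symm
  let t : Fin r → K := fun i => (e i : K)
  have ht : AlgebraicIndependent k t := hs.1.comp e e.injective
  have hrt : Set.range t = (s : Set K) := by
    ext z
    constructor
    · rintro ⟨i, rfl⟩; exact (e i).2
    · intro hz; exact ⟨e.symm ⟨z, hz⟩, by simp [t]⟩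
  -- the primitive element
  have : Algebra.EssFiniteType (IntermediateField.adjoin k (s : Set K)) K :=
    Algebra.EssFiniteType.of_comp k _ _
  have : FiniteDimensional (IntermediateField.adjoin k (s : Set K)) K :=
    Algebra.finite_of_essFiniteType_of_isAlgebraic
  obtain ⟨α, hα⟩ := Field.exists_primitive_element (IntermediateField.adjoin k (s : Set K)) K
  let φ : MvPolynomial (Fin (r + 1)) k →ₐ[k] K := MvPolynomial.aeval (Fin.cons α t : Fin (r + 1) → K)
  have hφ : φ.range = Algebra.adjoin k ((s : Set K) ∪ {α}) := by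
    have h1 : (s : Set K) ∪ {α} = Set.range (Fin.cons α t : Fin (r + 1) → K) := by
      rw [Fin.range_cons, hrt, Set.union_comm, Set.insert_eq]
    rw [h1, Algebra.adjoin_range_eq_range_aeval]
  have hfrac : ∀ z : K, ∃ c ∈ φ.range, c ≠ 0 ∧ c * z ∈ φ.range := by
    intro z
    have h1 : z ∈ IntermediateField.adjoin k ((s : Set K) ∪ {α}) := by
      rw [← IntermediateField.adjoin_adjoin_left, hα]
      trivial
    obtain ⟨x, hx, y, hy, hz⟩ := IntermediateField.mem_adjoin_iff_div.mp h1
    rw [hφ]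
    by_cases hy0 : y = 0
    · refine ⟨1, Subalgebra.one_mem _, one_ne_zero, ?_⟩
      rw [hz, hy0, div_zero, mul_zero]
      exact Subalgebra.zero_mem _
    · refine ⟨y, hy, hy0, ?_⟩
      rw [hz, mul_div_cancel₀ _ hy0]
      exact hx
  -- the kernel is principal
  obtain ⟨g', hg'⟩ := ker_principal (MvPolynomial.aeval t : MvPolynomial (Fin r) k →ₐ[k] K).toRingHom
    ht α
  have hcomp : ∀ f : MvPolynomial (Fin (r + 1)) k,
      Polynomial.eval₂ (MvPolynomial.aeval t : MvPolynomial (Fin r) k →ₐ[k] K).toRingHom α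
        (MvPolynomial.finSuccEquiv k r f) = φ f := by
    intro f
    induction f using MvPolynomial.induction_on with
    | C a =>
      rw [MvPolynomial.finSuccEquiv_apply]
      simp [φ]
    | add p q hp hq => rw [map_add, Polynomial.eval₂_add, hp, hq, map_add]
    | mul_X p i hp =>
      rw [map_mul, Polynomial.eval₂_mul, hp, map_mul]
      congr 1
      refine Fin.cases ?_ (fun j => ?_) i
      · rw [MvPolynomial.finSuccEquiv_X_zero, Polynomial.eval₂_X]
        simp [φ]
      · rw [MvPolynomial.finSuccEquiv_X_succ, Polynomial.eval₂_C]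
        simp [φ]
  let g : MvPolynomial (Fin (r + 1)) k := (MvPolynomial.finSuccEquiv k r).symm g'
  have hg : ∀ f : MvPolynomial (Fin (r + 1)) k, φ f = 0 ↔ f ∈ Ideal.span {g} := by
    intro f
    rw [← hcomp f, hg', Ideal.mem_span_singleton]
    constructor
    · rintro ⟨q, hq⟩
      refine ⟨(MvPolynomial.finSuccEquiv k r).symm q, ?_⟩
      apply (MvPolynomial.finSuccEquiv k r).injective
      rw [hq, map_mul, AlgEquiv.apply_symm_apply, AlgEquiv.apply_symm_apply]
    · rintro ⟨q, hq⟩
      refine ⟨MvPolynomial.finSuccEquiv k r q, ?_⟩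
      rw [hq, map_mul, AlgEquiv.apply_symm_apply]
  let ψ : (MvPolynomial (Fin (r + 1)) k ⧸ Ideal.span {g}) →ₐ[k] K :=
    Ideal.Quotient.liftₐ (Ideal.span {g}) φ (fun a ha => (hg a).mpr ha)
  have hψ : ∀ f, ψ (Ideal.Quotient.mk _ f) = φ f := fun f => rfl
  have hψi : Function.Injective ψ := by
    rw [injective_iff_map_eq_zero]
    intro x hx
    obtain ⟨f, rfl⟩ := Ideal.Quotient.mk_surjective x
    rw [hψ] at hx
    exact Ideal.Quotient.eq_zero_iff_mem.mpr ((hg f).mp hx)
  have hψr : ψ.range = φ.range := by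
    ext z
    constructor
    · rintro ⟨x, rfl⟩
      obtain ⟨f, rfl⟩ := Ideal.Quotient.mk_surjective x
      exact ⟨f, rfl⟩
    · rintro ⟨f, rfl⟩
      exact ⟨Ideal.Quotient.mk _ f, rfl⟩
  -- the algebra `A` in `K`
  let ι : A →ₐ[k] K := Algebra.algHom k A K
  have hιi : Function.Injective ι := IsFractionRing.injective A K
  have hA : ∀ z : K, ∃ c ∈ ι.range, c ≠ 0 ∧ c * z ∈ ι.range := by
    intro z
    obtain ⟨⟨x, ⟨y, hy⟩⟩, h⟩ := IsLocalization.surj (nonZeroDivisors A) z
    refine ⟨ι y, ⟨y, rfl⟩, ?_, x, ?_⟩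
    · rw [Ne, map_eq_zero_iff ι hιi]
      exact nonZeroDivisors.ne_zero hy
    · rw [mul_comm]
      exact h.symm
  have hAf : ι.range.FG := by
    have h1 : (⊤ : Subalgebra k A).FG := Algebra.FiniteType.out
    have h2 := h1.map ι
    rwa [Algebra.map_top] at h2
  have hBf : φ.range.FG := by
    rw [hφ]
    exact ⟨s ∪ {α}, by simp⟩
  obtain ⟨h, hh, a, ha, hh0, ha0, hmain⟩ := birat φ.range ι.range hfrac hA hBf hAf
  rw [← hψr] at hh
  obtain ⟨h', rfl⟩ := hh
  obtain ⟨a', rfl⟩ := ha
  obtain ⟨F, hF, hFr⟩ := loc_emb ψ hψi h' hh0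
  obtain ⟨G, hG, hGr⟩ := loc_emb ι hιi a' ha0
  refine ⟨g, a', h', ?_, ?_, ?_, ?_⟩
  · exact Function.Injective.isDomain ψ.toRingHom hψi
  · rintro rfl
    exact hh0 (map_zero ψ)
  · rintro rfl
    exact ha0 (map_zero ι)
  · have hr : F.range = G.range := by
      ext z
      rw [hFr, hGr, hψr]
      exact hmain z
    exact ⟨(AlgEquiv.ofInjective F hF).trans ((Subalgebra.equivOfEq _ _ hr).trans
      (AlgEquiv.ofInjective G hG).symm)⟩

end QCV


end

section

/-!
# QCV, block H: the open part `t_0 ≠ 0` of `t_0 f_0 + ... + t_r f_r = 0`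
-/

set_option autoImplicit false

open Polynomial

namespace QCV

open CUB VRQ

namespace LNX

section

variable {k S T D : Type} [Field k] [CommRing S] [Algebra k S] [CommRing T] [Algebra k T]
  [CommRing D] [Algebra k D] {r : ℕ} (ρ : MvPolynomial (Fin (r + 1)) S →ₐ[k] T)
  (π : MvPolynomial (Fin r) S →ₐ[k] D)

/-- the homomorphism of polynomial rings -/
noncomputable def mq : (MvPolynomial (Fin r) S)[X] →ₐ[k] D[X] := Polynomial.mapAlgHom π

lemma mq_C (p : MvPolynomial (Fin r) S) : mq π (C p) = C (π p) := by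
  change Polynomial.map _ (C p) = _
  rw [Polynomial.map_C]
  rfl

lemma mq_X : mq π X = X := by
  change Polynomial.map _ X = _
  rw [Polynomial.map_X]

/-- the homomorphism from the base to the localisation -/
noncomputable def bt : MvPolynomial (Fin (r + 1)) S →ₐ[k] Localization.Away (ρ (MvPolynomial.X 0)) :=
  (awayHom k _).comp ρ

/-- the inverse of `t_0` -/
noncomputable def it : Localization.Away (ρ (MvPolynomial.X 0)) :=
  IsLocalization.Away.invSelf (R := T) (ρ (MvPolynomial.X 0))

lemma bt_it : bt ρ (MvPolynomial.X 0) * it ρ = 1 :=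
  IsLocalization.Away.mul_invSelf (R := T) (S := Localization.Away (ρ (MvPolynomial.X 0)))
    (ρ (MvPolynomial.X 0))

/-- `s_j ↦ t_(j+1) / t_0` -/
noncomputable def tt : MvPolynomial (Fin r) S →ₐ[k] Localization.Away (ρ (MvPolynomial.X 0)) :=
  mvs ((bt ρ).comp (mC k (Fin (r + 1)) S)) (fun j => bt ρ (MvPolynomial.X j.succ) * it ρ)

lemma tt_C (s : S) : tt ρ (MvPolynomial.C s) = bt ρ (MvPolynomial.C s) := mvs_C _ _ _

lemma tt_X (j : Fin r) : tt ρ (MvPolynomial.X j) = bt ρ (MvPolynomial.X j.succ) * it ρ :=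
  mvs_X _ _ _

lemma tt_fs (f : Fin (r + 1) → S) (h : ρ (lin f) = 0) : tt ρ (fs f) = 0 := by
  have h2 : lin f = MvPolynomial.X 0 * MvPolynomial.C (f 0) +
      ∑ j : Fin r, MvPolynomial.X j.succ * MvPolynomial.C (f j.succ) := by
    rw [lin, Fin.sum_univ_succ]
  have h4 : bt ρ (lin f) = 0 := by
    change awayHom k _ (ρ (lin f)) = 0
    rw [h, map_zero]
  rw [h2] at h4
  have h1 : tt ρ (fs f) = bt ρ (MvPolynomial.X 0 * MvPolynomial.C (f 0) +
      ∑ j : Fin r, MvPolynomial.X j.succ * MvPolynomial.C (f j.succ)) * it ρ := by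
    rw [fs, map_add, map_sum, map_add, map_sum, add_mul, Finset.sum_mul, tt_C]
    congr 1
    · rw [map_mul, mul_right_comm, bt_it, one_mul]
    · refine Finset.sum_congr rfl fun j _ => ?_
      rw [map_mul, map_mul, tt_X, tt_C, mul_right_comm]
  rw [h1, h4, zero_mul]

/-- `X ↦ t_0` -/
noncomputable def ps (τ : D →ₐ[k] Localization.Away (ρ (MvPolynomial.X 0))) :
    D[X] →ₐ[k] Localization.Away (ρ (MvPolynomial.X 0)) :=
  evs τ (bt ρ (MvPolynomial.X 0))

lemma ps_C (τ : D →ₐ[k] Localization.Away (ρ (MvPolynomial.X 0))) (p : D) :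
    ps ρ τ (C p) = τ p := evs_C _ _ _

lemma ps_X (τ : D →ₐ[k] Localization.Away (ρ (MvPolynomial.X 0))) :
    ps ρ τ X = bt ρ (MvPolynomial.X 0) := evs_X _ _

variable (φ : T →ₐ[k] D[X]) (hφ : ∀ x, φ (ρ x) = mq π (q0 (k := k) x))
  (τ : D →ₐ[k] Localization.Away (ρ (MvPolynomial.X 0))) (hτ : ∀ x, τ (π x) = tt ρ x)

include hφ hτ in
lemma ps_phi (hρ : Function.Surjective ρ) (x : T) :
    ps ρ τ (φ x) = algebraMap T (Localization.Away (ρ (MvPolynomial.X 0))) x := by
  obtain ⟨x, rfl⟩ := hρ x
  rw [hφ]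
  have h : ((ps ρ τ).comp (mq π)).comp q0 = bt ρ := by
    apply mv_ext
    · intro s
      rw [AlgHom.comp_apply, q0_C, AlgHom.comp_apply, mq_C, ps_C, hτ, tt_C]
    · intro j
      refine Fin.cases ?_ (fun j => ?_) j
      · rw [AlgHom.comp_apply, q0_X0, AlgHom.comp_apply, mq_X, ps_X]
      · rw [AlgHom.comp_apply, q0_Xs, AlgHom.comp_apply, map_mul, map_mul, mq_X, mq_C, ps_X, ps_C,
          hτ, tt_X, mul_left_comm, bt_it, mul_one]
  exact AlgHom.congr_fun h x

include hφ hτ in
lemma key (hπ : Function.Surjective π)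
    (α : Localization.Away (ρ (MvPolynomial.X 0)) →ₐ[k] Localization.Away (X : D[X]))
    (hα : ∀ x : T, α (algebraMap T (Localization.Away (ρ (MvPolynomial.X 0))) x) =
      algebraMap D[X] (Localization.Away (X : D[X])) (φ x)) :
    α.comp (ps ρ τ) = awayHom k (X : D[X]) := by
  have hbt : ∀ x : MvPolynomial (Fin (r + 1)) S,
      α (bt ρ x) = algebraMap D[X] (Localization.Away (X : D[X])) (mq π (q0 (k := k) x)) := by
    intro x
    rw [← hφ]
    exact hα (ρ x)
  have hit : ∀ x : D[X], algebraMap D[X] (Localization.Away (X : D[X])) (X * x) *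
      α (it ρ) = algebraMap D[X] (Localization.Away (X : D[X])) x := by
    intro x
    have h1 := congrArg α (bt_it ρ)
    rw [map_mul, hbt, q0_X0, mq_X, map_one] at h1
    rw [map_mul, mul_right_comm, h1, one_mul]
  apply pl_ext
  · intro p
    obtain ⟨p, rfl⟩ := hπ p
    rw [AlgHom.comp_apply, ps_C, hτ]
    have h2 : α.comp (tt ρ) = (awayHom k (X : D[X])).comp ((CC k D).comp π) := by
      apply mv_ext
      · intro s
        rw [AlgHom.comp_apply, tt_C, hbt, q0_C, mq_C]
        rfl
      · intro j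
        rw [AlgHom.comp_apply, tt_X, map_mul, hbt, q0_Xs, map_mul, mq_X, mq_C, hit]
        rfl
    exact AlgHom.congr_fun h2 p
  · rw [AlgHom.comp_apply, ps_X, hbt, q0_X0, mq_X]
    rfl

include hφ hτ in
lemma main (hρ : Function.Surjective ρ) (hπ : Function.Surjective π) :
    @IsLocalization.Away T _ (ρ (MvPolynomial.X 0)) (Localization.Away (X : D[X])) _
    ((awayHom k (X : D[X])).comp φ).toRingHom.toAlgebra := by
  refine away_of_psi (k := k) (ρ (MvPolynomial.X 0)) φ X ?_ (ps ρ τ) (ps_phi ρ π φ hφ τ hτ hρ)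
    (key ρ π φ hφ τ hτ hπ)
  rw [hφ, q0_X0, mq_X]

end

end LNX

open _root_.QCV.LNX in
/-- **LNX**: the open part `t_0 ≠ 0` of `t_0 f_0 + ... + t_r f_r = 0` is the product of the punctured
line and `f_0 + s_1 f_1 + ... + s_r f_r = 0`. -/
theorem t_LNX (k S : Type) [Field k] [CommRing S] [Algebra k S] (r : ℕ) (f : Fin (r + 1) → S) :
    ∃ u : (MvPolynomial (Fin (r + 1)) S ⧸ Ideal.span {lin f}) →ₐ[k]
        Localization.Away (X : (MvPolynomial (Fin r) S ⧸ Ideal.span {fs f})[X]),
      @IsLocalization.Away _ _ (Ideal.Quotient.mk _ (MvPolynomial.X 0)) _ _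
        u.toRingHom.toAlgebra := by
  let ρ : MvPolynomial (Fin (r + 1)) S →ₐ[k] (MvPolynomial (Fin (r + 1)) S ⧸ Ideal.span {lin f}) :=
    Ideal.Quotient.mkₐ k _
  let π : MvPolynomial (Fin r) S →ₐ[k] (MvPolynomial (Fin r) S ⧸ Ideal.span {fs f}) :=
    Ideal.Quotient.mkₐ k _
  have hρ0 : ρ (lin f) = 0 := Ideal.Quotient.eq_zero_iff_mem.2 (Ideal.subset_span rfl)
  have hπ0 : π (fs f) = 0 := Ideal.Quotient.eq_zero_iff_mem.2 (Ideal.subset_span rfl)
  have h1 : ∀ a ∈ Ideal.span {lin f}, ((mq π).comp q0) a = 0 := by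
    intro a ha
    have h1 : Ideal.span {lin f} ≤ RingHom.ker ((mq π).comp q0).toRingHom := by
      rw [Ideal.span_singleton_le_iff_mem]
      change mq π (q0 (k := k) (lin f)) = 0
      rw [q0_lin, map_mul, mq_X, mq_C, hπ0, C_0, mul_zero]
    exact h1 ha
  have h2 : ∀ a ∈ Ideal.span {fs f}, tt ρ a = 0 := by
    intro a ha
    have h1 : Ideal.span {fs f} ≤ RingHom.ker (tt ρ).toRingHom := by
      rw [Ideal.span_singleton_le_iff_mem]
      exact tt_fs ρ f hρ0
    exact h1 ha
  exact ⟨_, _root_.QCV.LNX.main ρ π (Ideal.Quotient.liftₐ _ ((mq π).comp q0) h1) (fun x => rfl)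
    (Ideal.Quotient.liftₐ _ (tt ρ) h2) (fun x => rfl) Ideal.Quotient.mk_surjective
    Ideal.Quotient.mk_surjective⟩

end QCV


end

section

/-!
# QCV, block H: orthogonal sums of quadratic forms
-/

set_option autoImplicit false

namespace QCV

namespace BLK

/-- The orthogonal sum. -/
noncomputable def osum {B : Type} [CommRing B] {n m : ℕ} (φ : MvPolynomial (Fin n) B)
    (ζ : MvPolynomial (Fin m) B) : MvPolynomial (Fin (n + m)) B :=
  MvPolynomial.rename (Fin.castAdd m) φ + MvPolynomial.rename (Fin.natAdd n) ζ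

lemma osum_homog {B : Type} [CommRing B] {n m : ℕ} {φ : MvPolynomial (Fin n) B}
    {ζ : MvPolynomial (Fin m) B} {d : ℕ} (h1 : φ.IsHomogeneous d) (h2 : ζ.IsHomogeneous d) :
    (osum φ ζ).IsHomogeneous d := h1.rename_isHomogeneous.add h2.rename_isHomogeneous

lemma pd_zero {B : Type} [CommRing B] {σ τ : Type} (f : σ → τ) (j : τ) (hj : ∀ i, f i ≠ j)
    (p : MvPolynomial σ B) : MvPolynomial.pderiv j (MvPolynomial.rename f p) = 0 := by
  classical
  apply MvPolynomial.pderiv_eq_zero_of_notMem_vars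
  intro h
  have h1 := MvPolynomial.vars_rename f p h
  rw [Finset.mem_image] at h1
  obtain ⟨i, -, hi⟩ := h1
  exact hj i hi

lemma c0 {B : Type} [CommRing B] {σ τ : Type} (f : σ → τ) (p : MvPolynomial σ B) :
    MvPolynomial.coeff 0 (MvPolynomial.rename f p) = MvPolynomial.coeff 0 p := by
  have h := MvPolynomial.constantCoeff_rename f p
  rwa [MvPolynomial.constantCoeff_eq, MvPolynomial.constantCoeff_eq] at h

lemma castAdd_ne_natAdd {n m : ℕ} (i : Fin n) (j : Fin m) : Fin.castAdd m i ≠ Fin.natAdd n j := by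
  intro h
  have := congrArg Fin.val h
  simp at this
  omega

lemma castAdd_inj (n m : ℕ) : Function.Injective (Fin.castAdd m : Fin n → Fin (n + m)) :=
  Fin.castAdd_injective n m

lemma natAdd_inj (n m : ℕ) : Function.Injective (Fin.natAdd n : Fin m → Fin (n + m)) :=
  Fin.natAdd_injective m n

/-- The matrix of an orthogonal sum. -/
lemma gram_osum {B : Type} [CommRing B] {n m : ℕ} (φ : MvPolynomial (Fin n) B)
    (ζ : MvPolynomial (Fin m) B) :
    (gram (osum φ ζ)).submatrix finSumFinEquiv finSumFinEquiv =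
      Matrix.fromBlocks (gram φ) 0 0 (gram ζ) := by
  ext x y
  rcases x with i | i <;> rcases y with j | j
  · rw [Matrix.submatrix_apply, Matrix.fromBlocks_apply₁₁, finSumFinEquiv_apply_left,
      finSumFinEquiv_apply_left]
    unfold gram osum
    rw [map_add, pd_zero (Fin.natAdd n) _ (fun a h => castAdd_ne_natAdd j a h.symm), add_zero,
      MvPolynomial.pderiv_rename (castAdd_inj n m), MvPolynomial.pderiv_rename (castAdd_inj n m), c0]
  · rw [Matrix.submatrix_apply, Matrix.fromBlocks_apply₁₂, finSumFinEquiv_apply_left,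
      finSumFinEquiv_apply_right]
    unfold gram osum
    rw [map_add, pd_zero (Fin.castAdd m) _ (fun a => castAdd_ne_natAdd a j), zero_add,
      MvPolynomial.pderiv_rename (natAdd_inj n m),
      pd_zero (Fin.natAdd n) _ (fun a h => castAdd_ne_natAdd i a h.symm), MvPolynomial.coeff_zero]
    rfl
  · rw [Matrix.submatrix_apply, Matrix.fromBlocks_apply₂₁, finSumFinEquiv_apply_right,
      finSumFinEquiv_apply_left]
    unfold gram osum
    rw [map_add, pd_zero (Fin.natAdd n) _ (fun a h => castAdd_ne_natAdd j a h.symm), add_zero,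
      MvPolynomial.pderiv_rename (castAdd_inj n m),
      pd_zero (Fin.castAdd m) _ (fun a => castAdd_ne_natAdd a i), MvPolynomial.coeff_zero]
    rfl
  · rw [Matrix.submatrix_apply, Matrix.fromBlocks_apply₂₂, finSumFinEquiv_apply_right,
      finSumFinEquiv_apply_right]
    unfold gram osum
    rw [map_add, pd_zero (Fin.castAdd m) _ (fun a => castAdd_ne_natAdd a j), zero_add,
      MvPolynomial.pderiv_rename (natAdd_inj n m), MvPolynomial.pderiv_rename (natAdd_inj n m), c0]

lemma det_osum {B : Type} [CommRing B] {n m : ℕ} (φ : MvPolynomial (Fin n) B)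
    (ζ : MvPolynomial (Fin m) B) : (gram (osum φ ζ)).det = (gram φ).det * (gram ζ).det := by
  rw [← Matrix.det_submatrix_equiv_self finSumFinEquiv, gram_osum, Matrix.det_fromBlocks_zero₂₁]

/-- The rank of a block matrix. -/
lemma rank_blocks {K : Type} [Field K] {m n : Type} [Fintype m] [Fintype n] (A : Matrix m m K)
    (D : Matrix n n K) : (Matrix.fromBlocks A 0 0 D).rank = A.rank + D.rank := by
  let e : (m ⊕ n → K) ≃ₗ[K] (m → K) × (n → K) := LinearEquiv.sumArrowLequivProdArrow m n K K
  have h1 : (Matrix.fromBlocks A 0 0 D).mulVecLin =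
      (e.symm.toLinearMap ∘ₗ (A.mulVecLin.prodMap D.mulVecLin)) ∘ₗ e.toLinearMap := by
    apply LinearMap.ext
    intro x
    funext y
    rcases y with y | y
    · change Matrix.mulVec _ _ _ = Matrix.mulVec A (fun i => x (Sum.inl i)) y
      rw [Matrix.fromBlocks_mulVec]
      simp [Function.comp_def]
    · change Matrix.mulVec _ _ _ = Matrix.mulVec D (fun i => x (Sum.inr i)) y
      rw [Matrix.fromBlocks_mulVec]
      simp [Function.comp_def]
  unfold Matrix.rank
  rw [h1, LinearMap.range_comp_of_range_eq_top _ (LinearEquiv.range e), LinearMap.range_comp,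
    LinearMap.range_prodMap]
  have h2 := LinearEquiv.finrank_map_eq e.symm
    ((LinearMap.range A.mulVecLin).prod (LinearMap.range D.mulVecLin))
  refine h2.trans ?_
  let ε : ((LinearMap.range A.mulVecLin).prod (LinearMap.range D.mulVecLin)) ≃ₗ[K]
      (LinearMap.range A.mulVecLin) × (LinearMap.range D.mulVecLin) :=
    { toFun := fun x => (⟨x.1.1, x.2.1⟩, ⟨x.1.2, x.2.2⟩)
      invFun := fun x => ⟨(x.1.1, x.2.1), ⟨x.1.2, x.2.2⟩⟩
      left_inv := fun _ => rfl
      right_inv := fun _ => rfl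
      map_add' := fun _ _ => rfl
      map_smul' := fun _ _ => rfl }
  rw [ε.finrank_eq, Module.finrank_prod]

lemma rank_osum {B K : Type} [CommRing B] [Field K] (h : B →+* K) {n m : ℕ}
    (φ : MvPolynomial (Fin n) B) (ζ : MvPolynomial (Fin m) B) :
    ((gram (osum φ ζ)).map h).rank = ((gram φ).map h).rank + ((gram ζ).map h).rank := by
  have h1 : ((gram (osum φ ζ)).map h).submatrix finSumFinEquiv finSumFinEquiv =
      Matrix.fromBlocks ((gram φ).map h) 0 0 ((gram ζ).map h) := by
    rw [Matrix.submatrix_map, gram_osum, Matrix.fromBlocks_map]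
    congr 1
    · ext i j
      simp
    · ext i j
      simp
  rw [← rank_blocks, ← h1, Matrix.rank_submatrix]

/-- The generic member of an orthogonal sum. -/
lemma gen_osum {R : Type} [CommRing R] {n m q : ℕ} (f : Fin (q + 1) → MvPolynomial (Fin n) R)
    (z : Fin (q + 1) → MvPolynomial (Fin m) R) :
    gen (fun j => osum (f j) (z j)) = osum (gen f) (gen z) := by
  unfold gen osum
  simp only [map_add, map_sum, map_mul, MvPolynomial.map_rename, MvPolynomial.rename_C,
    mul_add, Finset.sum_add_distrib]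
  ring

end BLK

end QCV


end

section

/-!
# QCV, block H: from the projective variety to the affine cone
-/

set_option autoImplicit false

open CategoryTheory AlgebraicGeometry Limits Polynomial TopologicalSpace

namespace QCV

open Pool.Agent.Lib_helper55.Beil Pool.Agent.Lib_helper66.OneP CUB

attribute [local instance] MvPolynomial.gradedAlgebra

/-- **CNE**: from the projective variety to the affine cone, for a class `P` of varieties. -/
theorem t_CNE (k : Type) [Field k] (P : Var k → Prop)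
    (glue : ∀ {Z U X : Var k} (a : ClosedIn Z X) (j : OpenIn U X), Complementary a j →
      P Z → P U → P X)
    (range : ∀ {X Y W : Var k} (a : ClosedIn X W) (b : ClosedIn Y W),
      Set.range a.g = Set.range b.g → P X → P Y)
    (expand : ∀ {Y X U : Var k} (B : Bun Y X) (s : ClosedIn X Y) (j : OpenIn U Y),
      s.g ≫ B.q = 𝟙 X.X → Complementary s j → P X → P U)
    (R ι : Type) [CommRing R] [Algebra k R] [Algebra.FiniteType k R] (n : ℕ)
    (f : ι → MvPolynomial (Fin (n + 1)) R) (m : ι → ℕ) (hm : ∀ j, (f j).IsHomogeneous (m j))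
    (hm1 : ∀ j, 1 ≤ m j) (hPZ : P (aff k R)) (hPX : ∀ (X : Var k) (_ : ProjSub f X), P X) :
    P (aff k (MvPolynomial (Fin (n + 1)) R ⧸ Ideal.span (Set.range f))) := by
  obtain ⟨Q, Y, U, ε, B, s, j, c, hε, hs, hc, hU1, hU2⟩ := t_UNI k R n
  -- the projective variety
  let C₁ : Closeds (PS R n) :=
    ⟨ProjectiveSpectrum.zeroLocus (gr R n) (Set.range f),
      ProjectiveSpectrum.isClosed_zeroLocus (gr R n) (Set.range f)⟩
  let C₀ : Closeds Q.X := C₁.preimage ε.hom.continuous
  let X : Var k := closedVar Q C₀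
  let g : ClosedIn X Q := closedVarIn Q C₀
  have hgcl := g.closed
  have hgr : ∀ q : Q.X, q ∈ Set.range g.g ↔
      ∀ l, f l ∈ (show ProjectiveSpectrum (gr R n) from ε.hom q).asHomogeneousIdeal.toIdeal := by
    intro q
    have h1 : Set.range g.g = (C₀ : Set Q.X) := range_closedVarIn Q C₀
    rw [h1]
    have h2 : q ∈ (C₀ : Set Q.X) ↔ Set.range f ⊆
        (show ProjectiveSpectrum (gr R n) from ε.hom q).asHomogeneousIdeal := Iff.rfl
    rw [h2, Set.range_subset_iff]
    rfl
  have key : ∀ p : (PS R n : Scheme.{0}), ε.hom (ε.inv p) = p := by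
    intro p
    rw [← Scheme.Hom.comp_apply, Iso.inv_hom_id]
    rfl
  have key2 : ∀ p : (PS R n : Scheme.{0}), (∃ x : X.X, (g.g ≫ ε.hom) x = p) ↔
      ε.inv p ∈ Set.range g.g := by
    intro p
    constructor
    · rintro ⟨x, rfl⟩
      refine ⟨x, ?_⟩
      rw [← Scheme.Hom.comp_apply, Category.assoc, Iso.hom_inv_id, Category.comp_id]
    · rintro ⟨x, hx⟩
      refine ⟨x, ?_⟩
      rw [Scheme.Hom.comp_apply, hx]
      exact key p
  let S : ProjSub f X :=
    { g := g.g ≫ ε.hom
      closed := inferInstance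
      comm := by
        rw [Category.assoc, hε, g.comm]
      range := by
        intro p
        refine (key2 p).trans ((hgr _).trans ?_)
        have h3 : (show ProjectiveSpectrum (gr R n) from ε.hom (ε.inv p)) = p := key p
        rw [h3] }
  have hX : P X := hPX X S
  obtain ⟨Y', U', B', s', j', b, hs', hc', hb⟩ := t_BPL k B s j hs hc g
  have hb2 : ∀ u : U.X, u ∈ Set.range b.g ↔ ∀ l, f l ∈ (ofPt (c.g u)).asIdeal := by
    intro u
    rw [hb u, hgr]
    exact forall_congr' fun l => hU2 u (m l) (f l) (hm l)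
  -- the cone
  let A := MvPolynomial (Fin (n + 1)) R
  let I : Ideal A := Ideal.span (Set.range f)
  let cC : ClosedIn (aff k (A ⧸ I)) (aff k A) :=
    clo (Ideal.Quotient.mkₐ k I) (Ideal.Quotient.mkₐ_surjective k I)
  have hcC : ∀ x : (aff k A).X, x ∈ Set.range cC.g ↔ ∀ l, f l ∈ (ofPt x).asIdeal := by
    intro x
    refine (BCO.mem_range_clo _ _ x).trans ?_
    have h1 : RingHom.ker (Ideal.Quotient.mkₐ k I).toRingHom = I := Ideal.mk_ker
    rw [h1, Ideal.span_le]
    exact Set.range_subset_iff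
  -- the vertex
  let ψ : A →ₐ[k] R := (MvPolynomial.aeval (R := R) (0 : Fin (n + 1) → R)).restrictScalars k
  have hψC : ∀ a : R, ψ (MvPolynomial.C a) = a := fun a => MvPolynomial.aeval_C _ a
  have hψX : ∀ l, ψ (MvPolynomial.X l) = 0 := fun l => MvPolynomial.aeval_X _ l
  have hψs : Function.Surjective ψ := fun a => ⟨MvPolynomial.C a, hψC a⟩
  have hψf : ∀ l, ψ (f l) = 0 := by
    intro l
    have h1 : ψ (f l) = MvPolynomial.constantCoeff (f l) := by
      change MvPolynomial.aeval (R := R) (0 : Fin (n + 1) → R) (f l) = _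
      rw [MvPolynomial.aeval_zero]
      rfl
    rw [h1, MvPolynomial.constantCoeff_eq]
    apply (hm l).coeff_eq_zero
    have h2 := hm1 l
    rw [map_zero]
    omega
  have hψI : ∀ a ∈ I, ψ a = 0 := by
    intro a ha
    have h1 : I ≤ RingHom.ker ψ.toRingHom := by
      rw [Ideal.span_le]
      exact Set.range_subset_iff.mpr hψf
    exact h1 ha
  let aZ : ClosedIn (aff k R) (aff k (A ⧸ I)) :=
    clo (Ideal.Quotient.liftₐ I ψ hψI) (Ideal.Quotient.lift_surjective_of_surjective I hψI hψs)
  have haZ : aZ.g ≫ cC.g = (clo ψ hψs).g := by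
    change Spec.map _ ≫ Spec.map _ = Spec.map _
    rw [← Spec.map_comp, ← CommRingCat.ofHom_comp]
    rfl
  have hψk : ∀ q : PrimeSpectrum A, RingHom.ker ψ.toRingHom ≤ q.asIdeal ↔
      ∀ l, (MvPolynomial.X l : A) ∈ q.asIdeal := by
    intro q
    constructor
    · intro h l
      exact h (hψX l)
    · intro h p hp
      have key : ∀ p : A, p - MvPolynomial.C (ψ p) ∈ q.asIdeal := by
        intro p
        induction p using MvPolynomial.induction_on with
        | C a =>
          rw [hψC, sub_self]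
          exact q.asIdeal.zero_mem
        | add p p' hp hp' =>
          have h1 : p + p' - MvPolynomial.C (ψ (p + p')) =
              (p - MvPolynomial.C (ψ p)) + (p' - MvPolynomial.C (ψ p')) := by
            rw [map_add, map_add]
            ring
          rw [h1]
          exact q.asIdeal.add_mem hp hp'
        | mul_X p i hp =>
          rw [map_mul, hψX, mul_zero, map_zero, sub_zero]
          exact q.asIdeal.mul_mem_left _ (h i)
      have h1 : ψ p = 0 := hp
      have h2 := key p
      rw [h1, map_zero, sub_zero] at h2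
      exact h2
  -- the open part
  obtain ⟨D, o, b', hD⟩ := exists_cart cC c
  have ho : Set.range o.g = cC.g ⁻¹' Set.range c.g := cart_range hD.flip
  have hb' : Set.range b'.g = c.g ⁻¹' Set.range cC.g := cart_range hD
  have hcomp : Complementary aZ o := by
    rw [Complementary, ho]
    ext x
    have h1 : x ∈ Set.range aZ.g ↔ ∀ l, (MvPolynomial.X l : A) ∈ (ofPt (cC.g x)).asIdeal := by
      rw [← hψk, ← BCO.mem_range_clo ψ hψs, ← haZ]
      constructor
      · rintro ⟨z, rfl⟩
        exact ⟨z, by rw [Scheme.Hom.comp_apply]⟩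
      · rintro ⟨z, hz⟩
        refine ⟨z, closedIn_injective cC ?_⟩
        rw [← hz, Scheme.Hom.comp_apply]
    have h5 : cC.g x ∈ Set.range c.g ↔ ∃ l, (MvPolynomial.X l : A) ∉ (ofPt (cC.g x)).asIdeal := by
      rw [← hU1 (ofPt (cC.g x))]
      rfl
    rw [h1, Set.mem_compl_iff, Set.mem_preimage, h5]
    push Not
    rfl
  have hPU' : P U' := expand B' s' j' hs' hc' hX
  have hPD : P D := by
    refine range b b' ?_ hPU'
    ext u
    rw [hb2 u, hb', Set.mem_preimage, hcC]
  exact glue aZ o hcomp hPZ hPD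

end QCV


end

section

/-!
# QCV, block H: the stratification of the generic member, for a class of the type `Cls0`
-/

set_option autoImplicit false

open Polynomial

namespace QCV

open CUB

/-- **UST2**: as `S_UST`, for a class of the type `Cls0`. -/
theorem t_UST2 (k : Type) [Field k]
    (P : ∀ (A : Type) [CommRing A] [Algebra k A] [Algebra.FiniteType k A], Prop) (hP : Cls0 k P)
    (hline : ∀ (A : Type) [CommRing A] [Algebra k A] [Algebra.FiniteType k A], P A → P A[X])
    (m : ℕ) : ∀ (S : Type) [CommRing S] [Algebra k S] [Algebra.FiniteType k S]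
      (f : Fin (m + 1) → S),
      (∀ j ≤ m, P (S ⧸ Ideal.span (f '' {l : Fin (m + 1) | 1 ≤ l.1 ∧ l.1 ≤ j}))) →
      P (S ⧸ Ideal.span (Set.range f)) → P (MvPolynomial (Fin m) S ⧸ Ideal.span {fs f}) := by
  induction m with
  | zero =>
    intro S _ _ _ f _ hr
    have h1 : Ideal.span (Set.range f) = Ideal.span {f 0} := by
      congr 1
      ext x
      constructor
      · rintro ⟨j, rfl⟩
        rw [Set.mem_singleton_iff, show j = 0 from Fin.eq_zero j]
      · rintro rfl
        exact ⟨0, rfl⟩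
    let φ : MvPolynomial (Fin 0) S →ₐ[k] S :=
      ((MvPolynomial.isEmptyAlgEquiv S (Fin 0)).restrictScalars k).toAlgHom
    have hφi : Function.Injective φ :=
      ((MvPolynomial.isEmptyAlgEquiv S (Fin 0)).restrictScalars k).injective
    obtain ⟨e'⟩ := ust_iso φ
      ((MvPolynomial.isEmptyAlgEquiv S (Fin 0)).restrictScalars k).surjective ∅ {fs f} {fs f}
      (Set.range f) (by
        rw [Ideal.span_empty]
        exact (RingHom.injective_iff_ker_eq_bot φ.toRingHom).1 hφi) (by
        rw [Set.image_singleton]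
        have h2 : φ (fs f) = f 0 := by
          unfold fs
          rw [Finset.univ_eq_empty, Finset.sum_empty, add_zero]
          exact (MvPolynomial.isEmptyAlgEquiv S (Fin 0)).commutes (f 0)
        rw [h2]
        ext x
        constructor
        · rintro rfl
          exact ⟨0, rfl⟩
        · rintro ⟨j, rfl⟩
          rw [Set.mem_singleton_iff, show j = 0 from Fin.eq_zero j]) (Set.empty_union _)
    exact hP.iso e'.symm hr
  | succ m ih =>
    intro S _ _ _ f hj hr
    -- `P S`
    have hS : P S := by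
      have h1 := hj 0 (Nat.zero_le _)
      have h2 : Ideal.span (f '' {l : Fin (m + 1 + 1) | 1 ≤ l.1 ∧ l.1 ≤ 0}) = ⊥ := by
        have h3 : {l : Fin (m + 1 + 1) | 1 ≤ l.1 ∧ l.1 ≤ 0} = ∅ := by
          ext l
          simp only [Set.mem_ofPred_eq, Set.mem_empty_iff_false, iff_false]
          omega
        rw [h3, Set.image_empty, Ideal.span_empty]
      exact hP.iso ((Ideal.quotientEquivAlgOfEq k h2).trans (AlgEquiv.quotientBot k S)) h1
    have hpoly : ∀ (A : Type) [CommRing A] [Algebra k A] [Algebra.FiniteType k A] (n : ℕ),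
        P A → P (MvPolynomial (Fin n) A) := by
      intro A _ _ _ n hA
      induction n with
      | zero =>
        exact hP.iso ((MvPolynomial.isEmptyAlgEquiv A (Fin 0)).restrictScalars k).symm hA
      | succ n ih2 =>
        exact hP.iso ((MvPolynomial.finSuccEquiv A n).restrictScalars k).symm (hline _ ih2)
    have hS' : P (MvPolynomial (Fin m) S) := hpoly S m hS
    let g : MvPolynomial (Fin m) S := MvPolynomial.C (f 1)
    let h : MvPolynomial (Fin m) S := fs (usf f)
    -- the closed part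
    let φ₁ : S →ₐ[k] S ⧸ Ideal.span {f 1} := Ideal.Quotient.mkₐ k (Ideal.span {f 1})
    have hφ₁ : Function.Surjective φ₁ := Ideal.Quotient.mkₐ_surjective k _
    have hk₁ : RingHom.ker φ₁.toRingHom = Ideal.span {f 1} := Ideal.mk_ker
    have hS1 : P (S ⧸ Ideal.span {f 1}) := by
      have h1 := hj 1 (by omega)
      have h3 : f '' {l : Fin (m + 1 + 1) | 1 ≤ l.1 ∧ l.1 ≤ 1} = {f 1} := by
        ext x
        constructor
        · rintro ⟨l, ⟨hl1, hl2⟩, rfl⟩
          have h4 : l = 1 := Fin.ext (by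
            rw [Fin.val_one]
            omega)
          rw [h4]
          rfl
        · rintro rfl
          exact ⟨1, ⟨by simp, by simp⟩, rfl⟩
      exact hP.iso (Ideal.quotientEquivAlgOfEq k (congrArg Ideal.span h3)) h1
    have hU : P (Localization.Away g) := by
      let φ : MvPolynomial (Fin m) S →ₐ[k] MvPolynomial (Fin m) (S ⧸ Ideal.span {f 1}) :=
        MvPolynomial.mapAlgHom φ₁
      have hφ : Function.Surjective φ := MvPolynomial.map_surjective φ₁.toRingHom hφ₁
      have hφk : RingHom.ker φ.toRingHom = Ideal.span {g} := by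
        have h1 : RingHom.ker φ.toRingHom = Ideal.map MvPolynomial.C (RingHom.ker φ₁.toRingHom) :=
          MvPolynomial.ker_map φ₁.toRingHom
        rw [h1, hk₁, Ideal.map_span, Set.image_singleton]
      exact hP.opn g φ (awayHom k g) ⟨hφ, hφk, isLocalization_awayHom g⟩ hS' (hpoly _ m hS1)
    have hset : ∀ j : ℕ, ({f 1} : Set S) ∪ usf f '' {l : Fin (m + 1) | 1 ≤ l.1 ∧ l.1 ≤ j} =
        f '' {l : Fin (m + 1 + 1) | 1 ≤ l.1 ∧ l.1 ≤ j + 1} := by
      intro j
      ext x
      constructor
      · rintro (rfl | ⟨l, ⟨hl1, hl2⟩, rfl⟩)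
        · exact ⟨1, ⟨by simp, by simp⟩, rfl⟩
        · obtain ⟨l', rfl⟩ : ∃ l' : Fin m, l = l'.succ := by
            refine ⟨l.pred ?_, (Fin.succ_pred _ _).symm⟩
            rintro rfl
            simp at hl1
          refine ⟨l'.succ.succ, ⟨?_, ?_⟩, (usf_succ f l').symm⟩
          · simp only [Fin.val_succ]
            omega
          · simp only [Fin.val_succ] at hl2 ⊢
            omega
      · rintro ⟨l, ⟨hl1, hl2⟩, rfl⟩
        obtain ⟨l', rfl⟩ : ∃ l' : Fin (m + 1), l = l'.succ := by
          refine ⟨l.pred ?_, (Fin.succ_pred _ _).symm⟩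
          rintro rfl
          simp at hl1
        rcases Fin.eq_zero_or_eq_succ l' with rfl | ⟨l'', rfl⟩
        · left
          rfl
        · right
          refine ⟨l''.succ, ⟨?_, ?_⟩, usf_succ f l''⟩
          · simp only [Fin.val_succ]
            omega
          · simp only [Fin.val_succ] at hl2 ⊢
            omega
    have hset2 : ({f 1} : Set S) ∪ Set.range (usf f) = Set.range f := by
      ext x
      constructor
      · rintro (rfl | ⟨l, rfl⟩)
        · exact ⟨1, rfl⟩
        · rcases Fin.eq_zero_or_eq_succ l with rfl | ⟨l', rfl⟩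
          · exact ⟨0, rfl⟩
          · exact ⟨l'.succ.succ, rfl⟩
      · rintro ⟨l, rfl⟩
        rcases Fin.eq_zero_or_eq_succ l with rfl | ⟨l', rfl⟩
        · right
          exact ⟨0, rfl⟩
        · rcases Fin.eq_zero_or_eq_succ l' with rfl | ⟨l'', rfl⟩
          · left
            rfl
          · right
            exact ⟨l''.succ, rfl⟩
    have hZ1 : P (MvPolynomial (Fin m) (S ⧸ Ideal.span {f 1}) ⧸
        Ideal.span {fs (fun j => φ₁ (usf f j))}) := by
      refine ih (S ⧸ Ideal.span {f 1}) (fun j => φ₁ (usf f j)) ?_ ?_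
      · intro j hjm
        obtain ⟨e⟩ := ust_iso φ₁ hφ₁ {f 1} (usf f '' {l : Fin (m + 1) | 1 ≤ l.1 ∧ l.1 ≤ j}) _
          ((fun j => φ₁ (usf f j)) '' {l : Fin (m + 1) | 1 ≤ l.1 ∧ l.1 ≤ j}) hk₁
          (by rw [Set.image_image]) (hset j)
        exact hP.iso e (hj (j + 1) (by omega))
      · obtain ⟨e⟩ := ust_iso φ₁ hφ₁ {f 1} (Set.range (usf f)) _
          (Set.range fun j => φ₁ (usf f j)) hk₁ (by rw [← Set.range_comp]; rfl) hset2
        exact hP.iso e hr
    have hZ : P (MvPolynomial (Fin m) S ⧸ Ideal.span {g, h}) := by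
      let φ : MvPolynomial (Fin m) S →ₐ[k] MvPolynomial (Fin m) (S ⧸ Ideal.span {f 1}) :=
        MvPolynomial.mapAlgHom φ₁
      have hφ : Function.Surjective φ := MvPolynomial.map_surjective φ₁.toRingHom hφ₁
      have hφk : RingHom.ker φ.toRingHom = Ideal.span {g} := by
        have h1 : RingHom.ker φ.toRingHom = Ideal.map MvPolynomial.C (RingHom.ker φ₁.toRingHom) :=
          MvPolynomial.ker_map φ₁.toRingHom
        rw [h1, hk₁, Ideal.map_span, Set.image_singleton]
      have hφh : φ h = fs (fun j => φ₁ (usf f j)) := by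
        change MvPolynomial.map φ₁.toRingHom (fs (usf f)) = _
        unfold fs
        simp only [map_add, map_sum, map_mul, MvPolynomial.map_C, MvPolynomial.map_X]
        rfl
      obtain ⟨e⟩ := ust_iso φ hφ {g} {h} {g, h} {fs (fun j => φ₁ (usf f j))} hφk
        (by rw [Set.image_singleton, hφh]) (Set.singleton_union)
      exact hP.iso e.symm hZ1
    obtain ⟨z', u', hs⟩ := t_LNR k (MvPolynomial (Fin m) S) (Localization.Away g) g h (awayHom k g)
      (isLocalization_awayHom g)
    have hmain : P ((MvPolynomial (Fin m) S)[X] ⧸ Ideal.span {C g * X + C h}) :=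
      hP.glue _ z' u' hs (hline _ hZ) hU
    let φ₂ : MvPolynomial (Fin (m + 1)) S →ₐ[k] (MvPolynomial (Fin m) S)[X] :=
      ((MvPolynomial.finSuccEquiv S m).restrictScalars k).toAlgHom
    have hφ₂i : Function.Injective φ₂ :=
      ((MvPolynomial.finSuccEquiv S m).restrictScalars k).injective
    obtain ⟨e⟩ := ust_iso φ₂ ((MvPolynomial.finSuccEquiv S m).restrictScalars k).surjective
      ∅ {fs f} {fs f} {C g * X + C h}
      (by
        rw [Ideal.span_empty]
        exact (RingHom.injective_iff_ker_eq_bot φ₂.toRingHom).1 hφ₂i)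
      (by
        rw [Set.image_singleton]
        exact congrArg _ (ust_fs f)) (Set.empty_union _)
    exact hP.iso e.symm hmain

end QCV


end

section

/-!
# QCV, block H: the cubic form `t_0 f_0(x) + ... + t_q f_q(x)`
-/

set_option autoImplicit false

open Polynomial

namespace QCV

open CUB VRQ

/-- The cubic form `t_0 f_0(x) + ... + t_q f_q(x)` in the variables
`x_0, ..., x_(n-1), t_0, ..., t_q`. -/
noncomputable def cubf {k : Type} [Field k] {n q : ℕ} (f : Fin (q + 1) → MvPolynomial (Fin n) k) :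
    MvPolynomial (Fin (n + q + 1)) k :=
  ∑ j, MvPolynomial.X (Fin.natAdd n j) * MvPolynomial.rename (Fin.castAdd (q + 1)) (f j)

lemma cubf_homogeneous {k : Type} [Field k] {n q : ℕ} (f : Fin (q + 1) → MvPolynomial (Fin n) k)
    (hf : ∀ j, (f j).IsHomogeneous 2) : (cubf f).IsHomogeneous 3 := by
  refine MvPolynomial.IsHomogeneous.sum _ _ _ fun j _ => ?_
  exact (MvPolynomial.isHomogeneous_X k (Fin.natAdd n j)).mul (hf j).rename_isHomogeneous

namespace CBF

variable (k : Type) [Field k] (n r : ℕ)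

/-- `x_i ↦ x_i`, `t_j ↦ t_j`. -/
noncomputable def ff : MvPolynomial (Fin (n + r)) k →ₐ[k]
    MvPolynomial (Fin r) (MvPolynomial (Fin n) k) :=
  MvPolynomial.aeval (Fin.addCases (fun i => MvPolynomial.C (MvPolynomial.X i))
    (fun j => MvPolynomial.X j))

/-- the inverse -/
noncomputable def gg : MvPolynomial (Fin r) (MvPolynomial (Fin n) k) →ₐ[k]
    MvPolynomial (Fin (n + r)) k :=
  mvs (MvPolynomial.rename (Fin.castAdd r)) (fun j => MvPolynomial.X (Fin.natAdd n j))

lemma ff_t (j : Fin r) : ff k n r (MvPolynomial.X (Fin.natAdd n j)) = MvPolynomial.X j := by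
  rw [ff, MvPolynomial.aeval_X, Fin.addCases_right]

lemma ff_x (i : Fin n) : ff k n r (MvPolynomial.X (Fin.castAdd r i)) =
    MvPolynomial.C (MvPolynomial.X i) := by
  rw [ff, MvPolynomial.aeval_X, Fin.addCases_left]

lemma ff_rename (p : MvPolynomial (Fin n) k) :
    ff k n r (MvPolynomial.rename (Fin.castAdd r) p) = MvPolynomial.C p := by
  have h : (ff k n r).comp (MvPolynomial.rename (Fin.castAdd r)) =
      mC k (Fin r) (MvPolynomial (Fin n) k) := by
    apply MvPolynomial.algHom_ext
    intro i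
    rw [AlgHom.comp_apply, MvPolynomial.rename_X, ff_x]
    rfl
  exact AlgHom.congr_fun h p

lemma ff_gg : (ff k n r).comp (gg k n r) = AlgHom.id k _ := by
  apply mv_ext
  · intro p
    rw [AlgHom.comp_apply, gg, mvs_C, ff_rename]
    rfl
  · intro j
    rw [AlgHom.comp_apply, gg, mvs_X, ff_t]
    rfl

lemma gg_ff : (gg k n r).comp (ff k n r) = AlgHom.id k _ := by
  apply MvPolynomial.algHom_ext
  intro i
  refine Fin.addCases (fun i => ?_) (fun j => ?_) i
  · rw [AlgHom.comp_apply, ff_x, gg, mvs_C, MvPolynomial.rename_X]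
    rfl
  · rw [AlgHom.comp_apply, ff_t, gg, mvs_X]
    rfl

lemma ff_injective : Function.Injective (ff k n r) :=
  Function.LeftInverse.injective (g := gg k n r) fun x => AlgHom.congr_fun (gg_ff k n r) x

lemma ff_surjective : Function.Surjective (ff k n r) :=
  Function.RightInverse.surjective (g := gg k n r) fun x => AlgHom.congr_fun (ff_gg k n r) x

end CBF

open _root_.QCV.CBF in
lemma ff_cubf {k : Type} [Field k] {n q : ℕ} (f : Fin (q + 1) → MvPolynomial (Fin n) k) :
    ff k n (q + 1) (cubf f) = lin f := by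
  unfold cubf
  rw [map_sum, lin]
  refine Finset.sum_congr rfl fun j _ => ?_
  rw [map_mul, ff_rename]
  congr 1
  exact ff_t k n (q + 1) j

open _root_.QCV.CBF in
/-- **CBF**: the ring of the cubic. -/
theorem t_CBF (k : Type) [Field k] (n q : ℕ) (f : Fin (q + 1) → MvPolynomial (Fin n) k) :
    Nonempty ((MvPolynomial (Fin (n + q + 1)) k ⧸ Ideal.span (Set.range fun _ : Fin 1 => cubf f))
      ≃ₐ[k] (MvPolynomial (Fin (q + 1)) (MvPolynomial (Fin n) k) ⧸ Ideal.span {lin f})) := by
  refine ust_iso (ff k n (q + 1)) (ff_surjective k n (q + 1)) ∅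
    (Set.range fun _ : Fin 1 => cubf f) _ {lin f} ?_ ?_ (Set.empty_union _)
  · rw [Ideal.span_empty]
    exact (RingHom.injective_iff_ker_eq_bot (ff k n (q + 1)).toRingHom).1
      (ff_injective k n (q + 1))
  · rw [Set.range_const, Set.image_singleton, ff_cubf]

/-- **FSC**: the sum `t_0 f_0 + ... + t_q f_q` as a generic member. -/
lemma fs_cons {S : Type} [CommRing S] {q : ℕ} (f : Fin (q + 1) → S) :
    fs (Fin.cons 0 f : Fin (q + 1 + 1) → S) = lin f := by
  unfold fs lin
  rw [Fin.cons_zero, map_zero, zero_add]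
  rfl

end QCV


end

section

/-!
# QCV, block H: from the base of a line bundle to the complement of the zero section
-/

set_option autoImplicit false

open CategoryTheory AlgebraicGeometry Limits Polynomial TopologicalSpace

namespace QCV

open Pool.Agent.Lib_helper55.Beil Pool.Agent.Lib_helper66.OneP CUB

universe v

section

variable {k E : Type} [Field k] [Finite k] [Field E] [CharZero E]
    {T : ∀ i : ℕ, Homology.{v} k E i}

omit [CharZero E] in
open BIN in
/-- The pull-back of a class of a cycle along a line bundle is the class of a cycle. -/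
lemma bun_cls (hT : Full T) (S : BunMaps T) (hG : S.Good hT) (i : ℕ) {Y X : Var k} (B : Bun Y X)
    (c : Pts i X →₀ E) : S.V i (2 * i) B (clz (T i) X c) ∈ (T (i + 1)).alg Y := by
  obtain ⟨hFr, hBij, -, hRes, hPush, hBdy⟩ := id hG
  obtain ⟨C₀, hC₀, c', rfl⟩ := exists_supp_cyc X c
  let W : Var k := closedVar X C₀
  let a : ClosedIn W X := closedVarIn X C₀
  have hWd : W.DimLE i := dimLE_of_mem C₀ hC₀
  obtain ⟨YW, BW, b, hbP⟩ := exists_bunClosed B a
  have hVw : S.V i (2 * i) BW (clz (T i) W c') ∈ (T (i + 1)).gen YW :=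
    maxGen_map ((T i).frob (2 * i) W) ((T (i + 1)).frob (2 * (i + 1)) YW) (S.pb i (2 * i) BW)
      (hFr i (2 * i) BW) (cls_mem_gen (T i) W c')
  obtain ⟨d, hd⟩ := exists_cls (T (i + 1)) YW _
    (good_of_dimLE (T (i + 1)) YW (bun_dimLE BW hWd) hVw)
  have h3 : clz (T (i + 1)) YW d = S.V i (2 * i) BW (clz (T i) W c') := hd
  have h1 : S.V i (2 * i) B (clz (T i) X (pushCyc a c')) = clz (T (i + 1)) Y (pushCyc b d) := by
    rw [← clz_push, ← clz_push, h3, ← hT.pfClosed i (2 * i) a (clPr a) rfl]
    refine (hPush i (2 * i) B BW (clPr b) (clPr a) hbP _).trans ?_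
    exact hT.pfClosed (i + 1) (2 * i + 2) b (clPr b) rfl _
  have h2 : S.V i (2 * i) B (clz (T i) X (pushCyc a c')) ∈ (T (i + 1)).alg Y := by
    rw [h1]
    exact (T (i + 1)).linComb_mem_alg _ _
  exact h2

/-- The spaces of invariants of a line bundle. -/
theorem good_bun (hT : Full T) (S : BunMaps T) (hG : S.Good hT) (i : ℕ) {Y X : Var k} (B : Bun Y X)
    (h : (T i).gen X ≤ (T i).alg X) : (T (i + 1)).gen Y ≤ (T (i + 1)).alg Y := by
  intro m hm
  obtain ⟨hFr, hBij, -, hRes, hPush, hBdy⟩ := id hG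
  obtain ⟨x, hx⟩ := (hBij i (2 * i) B).surjective m
  obtain ⟨x', hx', hx2⟩ := maxGen_lift ((T i).frob (2 * i) X)
    ((T (i + 1)).frob (2 * (i + 1)) Y) (S.pb i (2 * i) B) (hFr i (2 * i) B) (m := x) (by
      rw [show S.pb i (2 * i) B x = m from hx]
      exact hm)
  obtain ⟨c, hc⟩ := exists_cls (T i) X x' (h hx')
  have h1 := bun_cls hT S hG i B c
  have h2 : S.V i (2 * i) B (clz (T i) X c) = m := by
    have h3 : clz (T i) X c = x' := hc
    rw [h3]
    exact hx2.trans hx
  rw [h2] at h1
  exact h1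

/-- The property `GG` passes to line bundles. -/
theorem gg_bun (hT : Full T) (hP : Pub T hT) (S : BunMaps T) (hG : S.Good hT) {Y X : Var k}
    (B : Bun Y X) (h : GG T X) : GG T Y := by
  intro i
  rcases i with _ | i
  · exact (pf_zero hT hP Y).1
  · exact good_bun hT S hG i B (h i)

end

end QCV


end

section

/-!
# QCV, block H: from the hypersurface `g = 0` to the quadric `g x_0 ^ 2 + u_1 v_1 + ... + u_s v_s = 0`
-/

set_option autoImplicit false

open Polynomial

namespace QCV

open CUB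

section

variable (k : Type) [Field k]
  (P : ∀ (A : Type) [CommRing A] [Algebra k A] [Algebra.FiniteType k A], Prop)

/-- The punctured line. -/
lemma cls_away (hP : Cls0 k P)
    (hline : ∀ (A : Type) [CommRing A] [Algebra k A] [Algebra.FiniteType k A], P A → P A[X])
    (D : Type) [CommRing D] [Algebra k D] [Algebra.FiniteType k D] (hD : P D) :
    P (Localization.Away (X : D[X])) := by
  have hs : Strat (k := k) (X : D[X]) (UHY.ev k D) (awayHom k (X : D[X])) :=
    ⟨UHY.ev_surj, UHY.ev_ker, isLocalization_awayHom _⟩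
  exact hP.opn _ _ _ hs (hline D hD) hD

/-- Addition of hyperbolic planes. -/
lemma cls_hyp (hP : Cls0 k P)
    (hline : ∀ (A : Type) [CommRing A] [Algebra k A] [Algebra.FiniteType k A], P A → P A[X])
    (B : Type) [CommRing B] [Algebra k B] [Algebra.FiniteType k B] (n s : ℕ)
    (φ : MvPolynomial (Fin n) B) (hB : ∀ m : ℕ, P (MvPolynomial (Fin m) B))
    (h : P (ER (fun _ : Fin 1 => φ))) : P (ER (fun _ : Fin 1 => hyp φ s)) := by
  induction s with
  | zero =>
    have h0 : Ideal.span (Set.range fun _ : Fin 1 => φ) =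
        Ideal.span (Set.range fun _ : Fin 1 => (hyp φ 0 : MvPolynomial (Fin n) B)) := by
      rw [UHY.hyp_zero]
      rfl
    have e : (MvPolynomial (Fin n) B ⧸ Ideal.span (Set.range fun _ : Fin 1 => φ)) ≃ₐ[k]
        (MvPolynomial (Fin n) B ⧸
          Ideal.span (Set.range fun _ : Fin 1 => (hyp φ 0 : MvPolynomial (Fin n) B))) :=
      Ideal.quotientEquivAlgOfEq k h0
    exact hP.iso e h
  | succ s ih =>
    obtain ⟨e⟩ := t_UHI k B n s φ
    refine hP.iso e.symm ?_
    obtain ⟨z', u', hs⟩ := Asm.s_LNR k (MvPolynomial (Fin (n + 2 * s)) B)[X]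
      (Localization.Away (X : (MvPolynomial (Fin (n + 2 * s)) B)[X])) X (C (hyp φ s))
      (awayHom k X) (isLocalization_awayHom X)
    refine hP.glue _ z' u' hs ?_ ?_
    · obtain ⟨e'⟩ := UHY.quot_iso k (MvPolynomial (Fin (n + 2 * s)) B) (hyp φ s)
      exact hline _ (hP.iso e'.symm ih)
    · exact cls_away k P hP hline _ (hB _)

/-- The value at zero of the variable. -/
noncomputable def zv (B : Type) [CommRing B] [Algebra k B] (g : B) :
    ER (fun _ : Fin 1 => (MvPolynomial.C g * MvPolynomial.X 0 ^ 2 : MvPolynomial (Fin 1) B)) →ₐ[k] B :=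
  Ideal.Quotient.liftₐ _ ((MvPolynomial.aeval (fun _ => (0 : B))).restrictScalars k) (by
    intro a ha
    have h1 : Ideal.span (Set.range fun _ : Fin 1 =>
        (MvPolynomial.C g * MvPolynomial.X 0 ^ 2 : MvPolynomial (Fin 1) B)) ≤
        RingHom.ker ((MvPolynomial.aeval (fun _ : Fin 1 => (0 : B))).toRingHom) := by
      rw [Ideal.span_le]
      rintro _ ⟨i, rfl⟩
      change MvPolynomial.aeval (fun _ : Fin 1 => (0 : B))
        (MvPolynomial.C g * MvPolynomial.X 0 ^ 2) = 0
      rw [map_mul, map_pow, MvPolynomial.aeval_X]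
      ring
    exact h1 ha)

lemma zv_mk (B : Type) [CommRing B] [Algebra k B] (g : B) (F : MvPolynomial (Fin 1) B) :
    zv k B g (Ideal.Quotient.mk _ F) = MvPolynomial.aeval (fun _ : Fin 1 => (0 : B)) F := rfl

lemma aeval_zero_dvd {B : Type} [CommRing B] (F : MvPolynomial (Fin 1) B)
    (h : MvPolynomial.aeval (fun _ : Fin 1 => (0 : B)) F = 0) :
    (MvPolynomial.X 0 : MvPolynomial (Fin 1) B) ∣ F := by
  have h1 : ∀ F : MvPolynomial (Fin 1) B, (MvPolynomial.X 0 : MvPolynomial (Fin 1) B) ∣
      F - MvPolynomial.C (MvPolynomial.aeval (fun _ : Fin 1 => (0 : B)) F) := by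
    intro F
    induction F using MvPolynomial.induction_on with
    | C a => simp
    | add p q hp hq =>
      have := dvd_add hp hq
      rw [map_add, map_add]
      convert this using 1
      ring
    | mul_X p i hp =>
      obtain rfl : i = 0 := Subsingleton.elim _ _
      rw [map_mul, MvPolynomial.aeval_X, mul_zero, map_zero, sub_zero]
      exact dvd_mul_left _ _
  have h2 := h1 F
  rwa [h, map_zero, sub_zero] at h2

/-- From `g = 0` to `g x_0 ^ 2 = 0`. -/
lemma cls_sq (hP : Cls0 k P)
    (hline : ∀ (A : Type) [CommRing A] [Algebra k A] [Algebra.FiniteType k A], P A → P A[X])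
    (B : Type) [CommRing B] [Algebra k B] [Algebra.FiniteType k B] (g : B) (hB : P B)
    (h : P (B ⧸ Ideal.span {g})) :
    P (ER (fun _ : Fin 1 => (MvPolynomial.C g * MvPolynomial.X 0 ^ 2 : MvPolynomial (Fin 1) B))) := by
  obtain ⟨u, hu⟩ := t_UGA k B g
  have hs : Strat (k := k) (Ideal.Quotient.mk _ (MvPolynomial.X 0)) (zv k B g) u := by
    refine ⟨?_, ?_, hu⟩
    · intro b
      refine ⟨Ideal.Quotient.mk _ (MvPolynomial.C b), ?_⟩
      rw [zv_mk, MvPolynomial.aeval_C]
      rfl
    · apply le_antisymm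
      · intro a ha
        obtain ⟨F, rfl⟩ := Ideal.Quotient.mk_surjective a
        have h1 : MvPolynomial.aeval (fun _ : Fin 1 => (0 : B)) F = 0 := ha
        obtain ⟨G, rfl⟩ := aeval_zero_dvd F h1
        rw [map_mul]
        exact Ideal.mul_mem_right _ _ (Ideal.subset_span rfl)
      · rw [Ideal.span_le]
        rintro _ rfl
        change zv k B g (Ideal.Quotient.mk _ (MvPolynomial.X 0)) = 0
        rw [zv_mk, MvPolynomial.aeval_X]
  exact hP.glue _ _ _ hs hB (cls_away k P hP hline _ h)

end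

end QCV


end

section

/-!
# QCV, block H: universality of the generic members of systems of quadratic forms
-/

set_option autoImplicit false

open CategoryTheory AlgebraicGeometry Limits Polynomial TopologicalSpace

namespace QCV

open Pool.Agent.Lib_helper55.Beil Pool.Agent.Lib_helper66.OneP CUB

universe v

variable {k : Type} [Field k] {E : Type} [Field E] {T : ∀ i : ℕ, Homology.{v} k E i} {hT : Full T}

/-- The conjecture of Tate for the generic members of systems of `q + 1` quadratic forms in an odd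
number of variables over `k`. -/
def OddGenTate {k : Type} [Field k] {E : Type} [Field E] (T : ∀ i : ℕ, Homology.{v} k E i) (q : ℕ) :
    Prop :=
  ∀ (s : ℕ) (f : Fin (q + 1) → MvPolynomial (Fin (1 + 2 * s)) k), (∀ j, (f j).IsHomogeneous 2) →
    (gram (gen f)).det ≠ 0 →
    GG T (aff k (MvPolynomial (Fin q) (MvPolynomial (Fin (1 + 2 * s)) k) ⧸ Ideal.span {fs f}))

/-- One polynomial: from the generic members of systems of `m + 1` quadratic forms to the hypersurface
`g = 0`. -/
lemma gg_hyper2 [Finite k] [CharZero E] (hP : Pub2 T hT) (h2 : (2 : k) ≠ 0) (d : ℕ)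
    (ho : OddGenTate T (d + 2)) (g : MvPolynomial (Fin (d + 2)) k) :
    GG T (aff k (MvPolynomial (Fin (d + 2)) k ⧸ Ideal.span {g})) := by
  have hG : GGC T := t_TGG k E T hT hP.toPub hP.sectionZero hP.etale
  have hpoly := ppf_poly hP.toPub (T := T) (d + 2)
  have h2B : (2 : MvPolynomial (Fin (d + 2)) k) ≠ 0 := by
    intro h
    apply h2
    have h3 : MvPolynomial.C (2 : k) = (0 : MvPolynomial (Fin (d + 2)) k) := by
      rw [← h]
      exact map_ofNat _ 2
    exact MvPolynomial.C_eq_zero.mp h3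
  by_cases hg : g = 0
  · subst hg
    refine (clsT_gg hG).iso (A := MvPolynomial (Fin (d + 2)) k) ?_ (fun i => (hpoly i).1)
    have h1 : Ideal.span {(0 : MvPolynomial (Fin (d + 2)) k)} = ⊥ := by simp
    exact ((Ideal.quotientEquivAlgOfEq k h1).trans
      (AlgEquiv.quotientBot k (MvPolynomial (Fin (d + 2)) k))).symm
  obtain ⟨s, f, P, hf, hPu, heq⟩ := Asm.s_ULZ k (d + 2) 1
    (MvPolynomial.C g * MvPolynomial.X 0 ^ 2)
    ((MvPolynomial.isHomogeneous_C_mul_X_pow g 0 2))
  have hdet : (gram (gen f)).det ≠ 0 := by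
    have h3 : gram (gen f) = lgram (lsub P (hyp (MvPolynomial.C g * MvPolynomial.X 0 ^ 2 :
        MvPolynomial (Fin 1) (MvPolynomial (Fin (d + 2)) k)) s)) := by
      rw [heq]
      rfl
    have h4 := t_UGM _ (1 + 2 * s) (hyp (MvPolynomial.C g * MvPolynomial.X 0 ^ 2 :
        MvPolynomial (Fin 1) (MvPolynomial (Fin (d + 2)) k)) s) P ?_
    · rw [h3, h4, Matrix.det_mul, Matrix.det_mul, Matrix.det_transpose]
      exact mul_ne_zero (mul_ne_zero hPu.ne_zero (t_UDT _ g s h2B hg)) hPu.ne_zero
    · refine MvPolynomial.IsHomogeneous.add ?_ ?_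
      · exact (MvPolynomial.isHomogeneous_C_mul_X_pow g 0 2).rename_isHomogeneous
      · refine MvPolynomial.IsHomogeneous.sum _ _ _ fun i _ => ?_
        exact (MvPolynomial.isHomogeneous_X _ _).mul (MvPolynomial.isHomogeneous_X _ _)
  have h5 : GG T (aff k (MvPolynomial (Fin (d + 2)) (MvPolynomial (Fin (1 + 2 * s)) k) ⧸
      Ideal.span {fs f})) := ho s f hf hdet
  obtain ⟨e1⟩ := t_QSW k k (1 + 2 * s) (d + 2) f
  have h6 := (clsT_gg hG).iso e1 h5
  obtain ⟨e2⟩ := t_USB k (MvPolynomial (Fin (d + 2)) k) (1 + 2 * s)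
    (hyp (MvPolynomial.C g * MvPolynomial.X 0 ^ 2) s) P hPu
  rw [heq] at e2
  have h7 := (clsT_gg hG).iso e2 h6
  have h8 := Asm.s_UHY k E T hT hP.toPub hP.sectionZero hG (MvPolynomial (Fin (d + 2)) k) 1 s
    (MvPolynomial.C g * MvPolynomial.X 0 ^ 2) hpoly h7
  obtain ⟨u, hu⟩ := t_UGA k (MvPolynomial (Fin (d + 2)) k) g
  have h9 := (clsT_gg hG).opn _ u hu h8
  exact t_TGM k E T hT hP.toPub hP.sectionZero _ h9

namespace UNV

/-- `f` with a zero inserted after the first form -/
noncomputable def ins {R : Type} [CommRing R] {n q : ℕ} (f : Fin (q + 1) → MvPolynomial (Fin n) R) :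
    Fin (q + 1 + 1) → MvPolynomial (Fin n) R :=
  Fin.cons (f 0) (Fin.cons 0 fun j => f j.succ)

section

variable {R : Type} [CommRing R] {n q : ℕ} (f : Fin (q + 1) → MvPolynomial (Fin n) R)

theorem ins_zero : ins f 0 = f 0 := rfl

theorem ins_one : ins f 1 = 0 := rfl

theorem ins_succ (j : Fin q) : ins f j.succ.succ = f j.succ := rfl

theorem usf_ins : usf (ins f) = f := by
  funext j
  refine Fin.cases ?_ (fun j => ?_) j
  · rfl
  · rfl

theorem gen_ins : gen (ins f) = MvPolynomial.map (MvPolynomial.rename (R := R)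
      (Fin.succ : Fin q → Fin (q + 1))).toRingHom (gen f) := by
  unfold gen
  rw [map_add, map_sum, Fin.sum_univ_succ]
  have hc : ((MvPolynomial.rename (R := R) (Fin.succ : Fin q → Fin (q + 1))).toRingHom).comp
      (MvPolynomial.C : R →+* MvPolynomial (Fin q) R) = MvPolynomial.C := by
    ext x
    simp
  have h1 : ins f (Fin.succ 0) = 0 := rfl
  rw [h1, ins_zero, map_zero, mul_zero, zero_add, MvPolynomial.map_map, hc]
  congr 1
  refine Finset.sum_congr rfl fun i _ => ?_
  rw [ins_succ, map_mul, MvPolynomial.map_map, hc, MvPolynomial.map_C]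
  congr 2
  simp

theorem fs_ins : MvPolynomial.finSuccEquiv (MvPolynomial (Fin n) R) q (fs (ins f)) = C (fs f) := by
  rw [ust_fs, ins_one, usf_ins, map_zero, C_0, zero_mul, zero_add]

end

end UNV

open _root_.QCV.UNV in
theorem t_UPD2 {k E : Type} [Field k] [Field E] {T : ∀ i : ℕ, Homology.{v} k E i} (hG : GGC T)
    (q : ℕ) (h : OddGenTate T (q + 1)) : OddGenTate T q := by
  intro s f hf hdet
  have h1 := h s (ins f) (by
    intro j
    refine Fin.cases (hf 0) (fun j => ?_) j
    refine Fin.cases (MvPolynomial.isHomogeneous_zero _ _ _) (fun j => ?_) j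
    exact hf j.succ) (by
    rw [gen_ins, UPD.gram_map, ← RingHom.map_det]
    intro h0
    apply hdet
    exact MvPolynomial.rename_injective _ (Fin.succ_injective q) (by
      rw [map_zero]
      exact h0))
  let S := MvPolynomial (Fin (1 + 2 * s)) k
  let M := MvPolynomial (Fin q) S
  let e : MvPolynomial (Fin (q + 1)) S ≃ₐ[k] M[X] :=
    (MvPolynomial.finSuccEquiv S q).restrictScalars k
  let π : M →ₐ[k] M ⧸ Ideal.span {fs f} := Ideal.Quotient.mkₐ k _
  have hπ : Function.Surjective π := Ideal.Quotient.mkₐ_surjective k _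
  let φ : MvPolynomial (Fin (q + 1)) S →ₐ[k] (M ⧸ Ideal.span {fs f})[X] :=
    (Polynomial.mapAlgHom π).comp e.toAlgHom
  have hφ : Function.Surjective φ := (Polynomial.map_surjective π.toRingHom hπ).comp e.surjective
  have hef : e (fs (ins f)) = C (fs f) := fs_ins f
  have hk : RingHom.ker φ.toRingHom = Ideal.span {fs (ins f)} := by
    have h2 : RingHom.ker φ.toRingHom =
        Ideal.comap e.toRingEquiv.toRingHom (RingHom.ker (Polynomial.mapRingHom π.toRingHom)) := by
      ext x
      rfl
    have h3 : RingHom.ker π.toRingHom = Ideal.span {fs f} := Ideal.mk_ker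
    have h4 : Ideal.map C (Ideal.span {fs f}) =
        Ideal.map e.toRingEquiv.toRingHom (Ideal.span {fs (ins f)}) := by
      rw [Ideal.map_span, Ideal.map_span, Set.image_singleton, Set.image_singleton]
      exact congrArg (fun x => Ideal.span {x}) hef.symm
    rw [h2, Polynomial.ker_mapRingHom, h3, h4]
    exact Ideal.comap_map_of_bijective e.toRingEquiv.toRingHom e.bijective
  have hk2 : RingHom.ker φ = Ideal.span {fs (ins f)} := hk
  have e2 := (Ideal.quotientEquivAlgOfEq k hk2.symm).trans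
    (Ideal.quotientKerAlgEquivOfSurjective hφ)
  exact hG.unpoly _ ((clsT_gg hG).iso e2 h1)

/-- Universality. -/
theorem universal2 [Finite k] [CharZero E] (hP : Pub2 T hT) (h2 : (2 : k) ≠ 0) (d : ℕ)
    (ho : OddGenTate T (d + 1)) : ∀ X : Var k, X.DimLE d → GG T X := by
  have hG : GGC T := t_TGG k E T hT hP.toPub hP.sectionZero hP.etale
  induction d with
  | zero =>
    intro X hX i
    exact (pf_of_dimLE hT hP.toPub i X
      (fun x => (hX x).trans (by exact_mod_cast Nat.zero_le i))).1
  | succ d ih =>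
    exact Asm.s_UNO k E T hG d (ih (t_UPD2 hG (d + 1) ho)) (gg_hyper2 hP h2 d ho)

end QCV


end

section

/-!
# QCV, block H: change of the parity of the rank at infinity
-/

set_option autoImplicit false

namespace QCV

open CUB

namespace ZPT

open BLK

/-- The forms `z_0 z_1`, `z_0 ^ 2`, `0`, ..., `0`. -/
noncomputable def zf (R : Type) [CommRing R] (q : ℕ) : Fin (q + 1 + 1) → MvPolynomial (Fin 2) R :=
  Fin.cons (MvPolynomial.X 0 * MvPolynomial.X 1) (Fin.cons (MvPolynomial.X 0 ^ 2) fun _ => 0)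

lemma zf_homog (R : Type) [CommRing R] (q : ℕ) (j : Fin (q + 1 + 1)) :
    (zf R q j).IsHomogeneous 2 := by
  refine Fin.cases ?_ (fun j => ?_) j
  · exact (MvPolynomial.isHomogeneous_X _ _).mul (MvPolynomial.isHomogeneous_X _ _)
  · refine Fin.cases ?_ (fun j => ?_) j
    · exact (MvPolynomial.isHomogeneous_X _ _).pow 2
    · exact MvPolynomial.isHomogeneous_zero _ _ _

/-- The form `z_0 z_1 + t z_0 ^ 2`. -/
noncomputable def zq {B : Type} [CommRing B] (t : B) : MvPolynomial (Fin 2) B :=
  MvPolynomial.X 0 * MvPolynomial.X 1 + MvPolynomial.C t * MvPolynomial.X 0 ^ 2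

lemma gen_zf (R : Type) [CommRing R] (q : ℕ) : gen (zf R q) = zq (MvPolynomial.X 0) := by
  unfold gen zq
  rw [Fin.sum_univ_succ]
  have h0 : zf R q 0 = MvPolynomial.X 0 * MvPolynomial.X 1 := rfl
  have h1 : zf R q (Fin.succ 0) = MvPolynomial.X 0 ^ 2 := rfl
  have h2 : ∀ j : Fin q, zf R q (Fin.succ (Fin.succ j)) = 0 := fun _ => rfl
  simp only [h0, h1, h2, map_mul, map_pow, MvPolynomial.map_X, map_zero, mul_zero,
    Finset.sum_const_zero, add_zero]

lemma gen_zf_tail (R : Type) [CommRing R] (q : ℕ) :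
    gen (fun j : Fin (q + 1) => zf R q j.succ) = MvPolynomial.X 0 ^ 2 := by
  unfold gen
  have h1 : zf R q (Fin.succ 0) = MvPolynomial.X 0 ^ 2 := rfl
  have h2 : ∀ j : Fin q, zf R q (Fin.succ (Fin.succ j)) = 0 := fun _ => rfl
  simp only [h1, h2, map_pow, MvPolynomial.map_X, map_zero, mul_zero,
    Finset.sum_const_zero, add_zero]

lemma gram_zq {B : Type} [CommRing B] (t : B) : gram (zq t) = !![2 * t, 1; 1, 0] := by
  ext i j
  fin_cases i <;> fin_cases j <;>
    simp [gram, zq, MvPolynomial.pderiv_X, sq, two_mul, mul_add]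

lemma det_zq {B : Type} [CommRing B] (t : B) : (gram (zq t)).det = -1 := by
  rw [gram_zq, Matrix.det_fin_two_of]
  ring

lemma gram_sq {B : Type} [CommRing B] :
    gram (MvPolynomial.X 0 ^ 2 : MvPolynomial (Fin 2) B) = Matrix.diagonal ![2, 0] := by
  ext i j
  fin_cases i <;> fin_cases j <;>
    (simp [gram, sq, MvPolynomial.pderiv_X]; try norm_num)

lemma rank_sq {B K : Type} [CommRing B] [Field K] (h : B →+* K) (h2 : (2 : K) ≠ 0) :
    ((gram (MvPolynomial.X 0 ^ 2 : MvPolynomial (Fin 2) B)).map h).rank = 1 := by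
  classical
  rw [gram_sq, Matrix.diagonal_map (map_zero h), Matrix.rank_diagonal]
  have h1 : (2 : K) ≠ 0 := h2
  rw [Fintype.card_eq_one_iff]
  refine ⟨⟨0, ?_⟩, ?_⟩
  · change h (2 : B) ≠ 0
    rwa [map_ofNat]
  · rintro ⟨y, hy⟩
    apply Subtype.ext
    fin_cases y
    · rfl
    · exfalso
      apply hy
      change h (0 : B) = 0
      exact map_zero h

/-- The matrix of the substitution `z_1 ↦ z_1 + t z_0`. -/
noncomputable def tm {B : Type} [CommRing B] (n : ℕ) (t : B) :
    Matrix (Fin (n + 2 * 1)) (Fin (n + 2 * 1)) B :=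
  Matrix.transvection ⟨n + 1, by omega⟩ ⟨n, by omega⟩ t

lemma tm_det {B : Type} [CommRing B] (n : ℕ) (t : B) : IsUnit (tm n t).det := by
  unfold tm
  rw [Matrix.det_transvection_of_ne _ _ (by
    intro h
    have := congrArg Fin.val h
    simp at this) t]
  exact isUnit_one

lemma tm_apply {B : Type} [CommRing B] (n : ℕ) (t : B) (i j : Fin (n + 2 * 1)) :
    tm n t i j = (if i = j then 1 else 0) +
      (if i = ⟨n + 1, by omega⟩ ∧ j = ⟨n, by omega⟩ then t else 0) := by
  change ((1 : Matrix (Fin (n + 2 * 1)) (Fin (n + 2 * 1)) B) +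
      Matrix.single (⟨n + 1, by omega⟩ : Fin (n + 2 * 1)) (⟨n, by omega⟩ : Fin (n + 2 * 1)) t) i j = _
  rw [Matrix.add_apply, Matrix.one_apply, Matrix.single_apply]
  congr 1
  simp only [eq_comm]

lemma lsub_tm_X {B : Type} [CommRing B] (n : ℕ) (t : B) (i : Fin (n + 2 * 1)) :
    lsub (tm n t) (MvPolynomial.X i) = MvPolynomial.X i +
      if i = ⟨n + 1, by omega⟩ then MvPolynomial.C t * MvPolynomial.X ⟨n, by omega⟩ else 0 := by
  unfold lsub
  rw [MvPolynomial.aeval_X]
  simp only [tm_apply, map_add, add_mul, Finset.sum_add_distrib]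
  congr 1
  · simp
  · by_cases hi : i = ⟨n + 1, by omega⟩
    · simp only [hi, true_and, if_true]
      rw [Finset.sum_eq_single (⟨n, by omega⟩ : Fin (n + 2 * 1))]
      · rw [if_pos rfl]
      · intro b _ hb
        rw [if_neg hb, map_zero, zero_mul]
      · intro h
        exact absurd (Finset.mem_univ _) h
    · simp [hi]

/-- The hyperbolic plane and the form `z_0 z_1 + t z_0 ^ 2`. -/
lemma lsub_tm {B : Type} [CommRing B] {n : ℕ} (φ : MvPolynomial (Fin n) B) (t : B) :
    lsub (tm n t) (hyp φ 1) = (osum φ (zq t) : MvPolynomial (Fin (n + 2)) B) := by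
  have h1 : lsub (tm n t) (MvPolynomial.rename (Fin.castAdd (2 * 1)) φ) =
      MvPolynomial.rename (Fin.castAdd (2 * 1)) φ := by
    have h2 : ((lsub (tm n t)).comp (MvPolynomial.rename (R := B) (Fin.castAdd (2 * 1)))) =
        MvPolynomial.rename (Fin.castAdd (2 * 1)) := by
      apply MvPolynomial.algHom_ext
      intro i
      rw [AlgHom.comp_apply, MvPolynomial.rename_X, lsub_tm_X, if_neg, add_zero]
      intro h
      have h3 := congrArg Fin.val h
      have h4 := i.2
      simp at h3
      omega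
    exact DFunLike.congr_fun h2 φ
  have h5 : (⟨n, by omega⟩ : Fin (n + 2 * 1)) ≠ ⟨n + 1, by omega⟩ := by
    intro h
    have := congrArg Fin.val h
    simp at this
  unfold hyp
  rw [map_add, h1]
  have h6 : (∑ i : Fin 1, MvPolynomial.X ⟨n + 2 * i.1, by omega⟩ *
      MvPolynomial.X ⟨n + 2 * i.1 + 1, by omega⟩ : MvPolynomial (Fin (n + 2 * 1)) B) =
      MvPolynomial.X ⟨n, by omega⟩ * MvPolynomial.X ⟨n + 1, by omega⟩ := by
    rw [Fin.sum_univ_one]
    rfl
  rw [h6, map_mul, lsub_tm_X, lsub_tm_X, if_neg h5, if_pos rfl, add_zero]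
  unfold osum zq
  rw [map_add, map_mul, map_mul, map_pow, MvPolynomial.rename_X, MvPolynomial.rename_X,
    MvPolynomial.rename_C]
  have h7 : (Fin.natAdd n (0 : Fin 2) : Fin (n + 2)) = (⟨n, by omega⟩ : Fin (n + 2 * 1)) := rfl
  have h8 : (Fin.natAdd n (1 : Fin 2) : Fin (n + 2)) = (⟨n + 1, by omega⟩ : Fin (n + 2 * 1)) := rfl
  rw [h7, h8]
  change MvPolynomial.rename (Fin.castAdd 2) φ + _ = _
  ring

end ZPT

end QCV


end
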