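import Mathlib
import Pool.Agent.QVM.C48
import Pool.Agent.QVM.C49
import Pool.Agent.QVM.C52
import Pool.Agent.QVM.C60
import Pool.Agent.QVM.C61
import Pool.Agent.QVM.C63
import Pool.Agent.QVM.C64
import Pool.Agent.QVM.C65
import Pool.Agent.QVM.C67
import Pool.Agent.QVM.C68
import Pool.Agent.QVM.C69
import Pool.Agent.QVM.C70
import Pool.Agent.QVM.C71
import Pool.Agent.QVM.C72
import Pool.Agent.QVM.C73
import Pool.Agent.QVM.C74
import Pool.Agent.QVN.C01

/-! Parts: QCV.E_ASM, QCV.H_FIN, QCV.H_TWR, QCV.H_EOD, QCV.H_CFI, QCV.H_EVR, QCV.H_ALL, QCV.H_THR, QCV.H_PRJ -/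

section

/-!
# QCV, block E: assembly, and the main theorems for the class `Member`
-/

set_option autoImplicit false

open CategoryTheory AlgebraicGeometry Polynomial

namespace QCV

open Pool.Agent.Lib_helper55.Beil Pool.Agent.Lib_helper66.OneP CUB

universe v

namespace Asm

theorem s_EVI : S_EVI := t_EVI t_EQI t_EH2 t_EE1 t_EDU

theorem s_EHT : S_EHT.{v} := t_EHT t_EHQ t_EHP t_EGM

theorem s_EQT : S_EQT.{v} := t_EQT s_EHT t_EBC t_ESG t_ESP

theorem s_EST : S_EST.{v} := t_EST (t_ETW t_EBC t_ESG) s_EQT t_ECM t_EBM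

theorem s_EOD : S_EOD := t_EOD t_EDU t_EDS

theorem s_EVS : S_EVS := t_EVS s_EOD

end Asm

variable {k : Type} [Field k] {E : Type} [Field E] {T : ∀ i : ℕ, Homology.{v} k E i} {hT : Full T}

lemma evenForms (h2 : (2 : k) ≠ 0) (d : ℕ) : EvenForms k d := by
  intro R _ _ _ _ n m q e f hn he hq hR hf hg hD
  subst hn
  exact member_even_of Asm.s_EVS h2 he hq hR f hf hg hD

lemma evenFormsProj (h2 : (2 : k) ≠ 0) (d : ℕ) : EvenFormsProj k d := by
  intro R _ _ _ _ n m q e f hn he hq hR hf hg hD X ⟨S⟩
  exact member_of_cone (Member.small _ fun x => (hR x).trans (by exact_mod_cast he)) f (fun _ => 2)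
    hf (fun _ => by norm_num) (evenForms h2 d R (n + 1) m q e f hn he hq hR hf hg hD) S

lemma evenBase (h2 : (2 : k) ≠ 0) (d : ℕ) : EvenBase k d := by
  intro A _ _ _ _ hA
  have h : ∀ (n m : ℕ) (f : MvPolynomial (Fin n) A), n = 2 * m → f.IsHomogeneous 2 →
      (gram f).det ≠ 0 → Member k d (aff k (Dr A 0 ((-1) ^ (m + 1) * (gram f).det))) →
      Member k d (aff k (MvPolynomial (Fin n) A ⧸
        Ideal.span (Set.range fun _ : Fin 1 => f))) := by
    intro n m f hn hf hg hD
    subst hn
    exact member_even_base_of Asm.s_EOD h2 hA f hf hg hD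
  refine ⟨h, ?_⟩
  intro n m f hn hf hg hD X ⟨S⟩
  exact member_of_cone (Member.cover A _ _ hD) (fun _ : Fin 1 => f) (fun _ => 2) (fun _ => hf)
    (fun _ => by norm_num) (h (n + 1) m f hn hf hg hD) S

section

variable [Finite k] [CharZero E]

lemma ppfEven (hP : Pub2 T hT) : PpfEven T := by
  intro h2
  obtain ⟨S, h1, h2', h3, h4⟩ := hP.dbl
  exact Asm.s_EVI k _ h2 (cls0_ppf hT hP.toPub) (fun A _ _ _ h => ppf_line hT hP.toPub A h)
    (fun A _ _ _ b c h i => pf_dbl hT hP.toPub i A b c (h i))
    (Asm.s_EST k E T hT S hP.toPub hP.sectionZero h1 h2' h3 h4 h2).1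

lemma ggEven (hP : Pub2 T hT) (h2 : (2 : k) ≠ 0) :
    EvenCl k (fun A [CommRing A] [Algebra k A] [Algebra.FiniteType k A] => GG T (aff k A)) := by
  obtain ⟨S, h1, h2', h3, h4⟩ := hP.dbl
  exact Asm.s_EVI k _ h2 (cls0_gg (ggc hP)) (ggc hP).line (ggc hP).dbl
    (Asm.s_EST k E T hT S hP.toPub hP.sectionZero h1 h2' h3 h4 h2).2

/-- The conjecture holds on the class if the property holds in dimension at most `d`. -/
theorem q1_member_of_pp (hP : Pub2 T hT) (d : ℕ) (hB : ∀ X : Var k, X.DimLE d → PP T X)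
    (X : Var k) (hX : Member k d X) (i : ℕ) : Q1 (T i) X :=
  q1_of_member hT hP.toPub hP.sectionZero (pfEt hP) (ppfOdd hP) (ppfEven hP) (ppfBun hP) d hB X hX i

/-- The conjecture holds on the class built from the varieties of dimension at most one. -/
theorem member_one (hP : Pub2 T hT) (X : Var k) (hX : Member k 1 X) (i : ℕ) : Q1 (T i) X :=
  q1_member_of_pp hP 1 (fun X hX => pp_of_dimLE_one hT hP.toPub X hX) X hX i

/-- The conjecture of Tate in dimension at most `d` is equivalent to the conjecture of Tate on the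
class. -/
theorem tate_member (hP : Pub2 T hT) (d : ℕ) :
    (∀ X : Var k, X.DimLE d → Tate T X) ↔ ∀ X : Var k, Member k d X → Tate T X := by
  rw [tate_iff, tate_iff]
  exact ⟨fun h X hX => gg_of_member (ggEven hP) hP d h X hX, fun h X hX => h X (Member.small X hX)⟩

/-- Surfaces, with alterations. -/
theorem member_two (hP : Pub2 T hT) (hA : Pool.Agent.Lib_helper66.OneP.Alterations k)
    (h : ∀ Y : Var k, Y.SmoothProper 2 → (T 1).Surj Y ∧ (T 1).Semisimple Y) (X : Var k)
    (hX : Member k 2 X) (i : ℕ) : Q1 (T i) X :=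
  q1_member_of_pp hP 2 (fun X hX => pp_of_dimLE_two hT hP.toPub
    (fun X _ => surf_of_sp hT hP.toPub hA hP.etale.etPull h X) X hX) X hX i

/-- All dimensions, with alterations and purity. -/
theorem member_all (hP : Pub2 T hT) (hA : Pool.Agent.Lib_helper66.OneP.Alterations k)
    (hPu : ∀ i, Purity (T i)) (d : ℕ)
    (h : ∀ (Y : Var k) (D : ℕ), D ≤ d → Y.SmoothProper D → ∀ i, Q1 (T i) Y) (X : Var k)
    (hX : Member k d X) (i : ℕ) : Q1 (T i) X :=
  q1_member_of_pp hP d (fun X hX => pp_of_sp hT hP.toPub hA hPu hP.etale d h X hX) X hX i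

/-- Systems of quadratic forms in an even number of variables and double covers of the affine
space. -/
theorem tate_even (hP : Pub2 T hT) (h2 : (2 : k) ≠ 0) (d : ℕ)
    (h : ∀ X : Var k, X.DimLE d → Tate T X) :
    EvenSystems (Tate T) (d + 1) ↔ DoubleCovers (Tate T) (d + 1) := by
  have hlow := (tate_iff (T := T) _).mp h
  constructor
  · intro h3 g
    exact (gg_iff _).mp (doubleCovers_of t_UD2 t_UG2 hP h2 d hlow
      (fun n f hn hf hd => (gg_iff _).mpr (h3 n f hn hf hd)) g)
  · intro h3 n f hn hf hd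
    exact (gg_iff _).mp (evenSystems_of Asm.s_EVS (fun h2 => ggEven hP h2) hP h2 d hlow
      (fun g => (gg_iff _).mpr (h3 g)) n f hn hf hd)

end

end QCV


end

section

/-!
# QCV, block H: the conjecture of Tate for a projective variety and for its affine cone
-/

set_option autoImplicit false

open CategoryTheory AlgebraicGeometry Limits Polynomial TopologicalSpace

namespace QCV

open Pool.Agent.Lib_helper55.Beil Pool.Agent.Lib_helper66.OneP CUB

universe v

variable {k : Type} [Field k] {E : Type} [Field E]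
variable {T : ∀ i : ℕ, Homology.{v} k E i} {hT : Full T}

/-- The property `GG` is determined by the closed subset of an ambient variety. -/
theorem gg_same_range (hG : GGC T) {X Y W : Var k} (a : ClosedIn X W) (b : ClosedIn Y W)
    (h : Set.range a.g = Set.range b.g) (hX : GG T X) : GG T Y := by
  have hred := isReduced_redVar Y
  obtain ⟨l, hl⟩ := exists_factor_range a ((redVarIn Y).trans b) (by
    rintro _ ⟨y, rfl⟩
    rw [h]
    exact ⟨(redVarIn Y).g y, rfl⟩)
  apply hG.red
  refine hG.nil l ?_ hX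
  intro x
  have h1 : a.g x ∈ Set.range b.g := by
    rw [← h]
    exact ⟨x, rfl⟩
  obtain ⟨y, hy⟩ := h1
  obtain ⟨y', hy'⟩ : y ∈ Set.range (redVarIn Y).g := by
    rw [range_redVarIn]
    trivial
  refine ⟨y', ?_⟩
  apply closedIn_injective a
  rw [← hy, ← hy', ← Scheme.Hom.comp_apply, hl]
  rfl

section

variable [Finite k] [CharZero E]

/-- The property `GG` for the affine cone over a projective variety `X` and for `X`. -/
theorem gg_cone_iff (hP : Pub2 T hT) {R ι : Type} [CommRing R] [Algebra k R]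
    [Algebra.FiniteType k R] {n : ℕ} (f : ι → MvPolynomial (Fin (n + 1)) R) (m : ι → ℕ)
    (hm : ∀ j, (f j).IsHomogeneous (m j)) (hm1 : ∀ j, 1 ≤ m j) (hR : GG T (aff k R)) :
    GG T (aff k (MvPolynomial (Fin (n + 1)) R ⧸ Ideal.span (Set.range f))) ↔
      ∀ (X : Var k) (_ : ProjSub f X), GG T X := by
  have hG : GGC T := ggc hP
  obtain ⟨S, hS⟩ := hP.bundles
  constructor
  · intro h X s
    exact Asm.s_BCO k (GG T) (fun _ j _ hX _ => hG.opn j hX)
      (fun a b hab hX => gg_same_range hG a b hab hX)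
      (fun B s j hs hc hU => t_TBU k E T hT hP.toPub hP.sectionZero S hS B s j hs hc hU)
      R ι n f m hm hm1 hR h X s
  · intro h
    exact t_CNE k (GG T) (fun a j hc hZ hU => hG.glue a j hc hZ hU)
      (fun a b hab hX => gg_same_range hG a b hab hX)
      (fun B _ j _ _ hX => hG.opn j (gg_bun hT hP.toPub S hS B hX))
      R ι n f m hm hm1 hR h

/-- The conjecture of Tate for the affine cone over a projective variety `X` and for `X`. -/
theorem tate_cone_iff (hP : Pub2 T hT) {R ι : Type} [CommRing R] [Algebra k R]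
    [Algebra.FiniteType k R] {n : ℕ} (f : ι → MvPolynomial (Fin (n + 1)) R) (m : ι → ℕ)
    (hm : ∀ j, (f j).IsHomogeneous (m j)) (hm1 : ∀ j, 1 ≤ m j) (hR : Tate T (aff k R)) :
    Tate T (aff k (MvPolynomial (Fin (n + 1)) R ⧸ Ideal.span (Set.range f))) ↔
      ∀ (X : Var k) (_ : ProjSub f X), Tate T X := by
  have h := gg_cone_iff hP f m hm hm1 ((gg_iff _).mpr hR)
  rw [gg_iff] at h
  exact h.trans (forall_congr' fun X => forall_congr' fun _ => gg_iff X)

/-- The conjecture of Tate for the base field. -/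
lemma tate_field (hP : Pub2 T hT) : Tate T (aff k k) :=
  (gg_iff _).mp fun i => (ppf_field hP.toPub i).1

end

end QCV


end

section

/-!
# QCV, block H: the twist, in the other direction
-/

set_option autoImplicit false

open CategoryTheory AlgebraicGeometry Limits Polynomial TopologicalSpace

namespace QCV

open Pool.Agent.Lib_helper55.Beil Pool.Agent.Lib_helper66.OneP CUB

universe v

/-- The closure property for the twist, in the other direction. -/
def TwClR (k : Type) [Field k]
    (P : ∀ (A : Type) [CommRing A] [Algebra k A] [Algebra.FiniteType k A], Prop) : Prop :=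
  ∀ (B : Type) [CommRing B] [Algebra k B] [Algebra.FiniteType k B] (a : Fin 4 → B) (c δ : B),
    (∀ j, IsUnit (a j)) → IsUnit δ → δ * a 0 = - a 1 →
    P (QC B a c) → P (QC B ![a 0, - a 0, a 2, δ * a 3] c)

namespace TWR

/-- The inverse of a sign automorphism. -/
lemma sgn_symm {k B : Type} [Field k] [CommRing B] [Algebra k B] {n : ℕ}
    {I : Ideal (MvPolynomial (Fin n) B)} (ε : Fin n → ℤ) (hε : ∀ j, ε j * ε j = 1)
    (w : (MvPolynomial (Fin n) B ⧸ I) ≃ₐ[k] (MvPolynomial (Fin n) B ⧸ I)) (h : Sgn ε w) :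
    Sgn ε w.symm := by
  refine ⟨fun b => ?_, fun j => ?_⟩
  · rw [AlgEquiv.symm_apply_eq, h.1]
  · rw [AlgEquiv.symm_apply_eq, map_zsmul, h.2, smul_smul, hε, one_smul]

variable {k : Type} [Field k] {E : Type} [Field E] {T : ∀ i : ℕ, Homology.{v} k E i}

/-- The step, at the levels `i + 2`. -/
theorem step [Finite k] [CharZero E] (hETW : S_ETW) (hEQT : S_EQT.{v}) (hECM : S_ECM.{v})
    (hT : Full T) (S : DblMaps T) (hP : Pub T hT) (hF : S.Frobenius)
    (hD : S.Degree hT.toProperMaps) (hC : S.Classes) (hG : S.Galois hT.toProperMaps)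
    (h2 : (2 : k) ≠ 0) (B : Type) [CommRing B] [Algebra k B] [Algebra.FiniteType k B]
    (a : Fin 4 → B) (c δ : B) (ha : ∀ j, IsUnit (a j)) (hδ : IsUnit δ) (h : δ * a 0 = - a 1)
    (i : ℕ)
    (hg : (T (i + 2)).gen (aff k (QC B a c)) ≤ (T (i + 2)).alg (aff k (QC B a c))) :
    (T (i + 2)).gen (aff k (QC B ![a 0, - a 0, a 2, δ * a 3] c)) ≤
      (T (i + 2)).alg (aff k (QC B ![a 0, - a 0, a 2, δ * a 3] c)) := by
  obtain ⟨e, w, e', w', hw', h3, h4⟩ := hETW k B a c δ hδ h
  have hw2 : Sgn ![1, -1, 1, -1] w'.symm := sgn_symm _ (by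
    intro j
    fin_cases j <;> rfl) w' hw'
  have h5 := hEQT k E T hT hP h2 (Dr B 0 (-δ)) _ _ w'.symm
    (fun j => (EST.unit_vec a δ ha hδ j).map (algebraMap B (Dr B 0 (-δ)))) hw2 i
  let w₁ := e.trans (w.symm.trans e.symm)
  have h6 := t_OISO k E T hT _ _ w'.symm w₁ (e.trans e').symm (fun x => by
    obtain ⟨u, rfl⟩ := (e.trans e').surjective x
    rw [AlgEquiv.symm_apply_eq, AlgEquiv.symm_apply_apply]
    change w'.symm (e' (e u)) = e' (e (e.symm (w.symm (e u))))
    rw [AlgEquiv.apply_symm_apply, AlgEquiv.symm_apply_eq, ← h4, AlgEquiv.apply_symm_apply])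
    (i + 2) h5
  refine (hECM k E T hT S hP hF hD hC hG _ _ _ _ _ _ e.symm w₁ (fun y => ?_) (i + 2) h6).2 hg
  change _ = e.symm (w.symm (e (dinv _ _ k (e.symm y))))
  rw [h3, AlgEquiv.symm_apply_apply, AlgEquiv.apply_symm_apply]

end TWR

/-- **TWR**. -/
theorem t_TWR (k E : Type) [Field k] [Finite k] [Field E] [CharZero E]
    (T : ∀ i : ℕ, Homology.{v} k E i) (hT : Full T) (S : DblMaps T) (hP : Pub T hT)
    (hS : SectionZero T) (hF : S.Frobenius) (hD : S.Degree hT.toProperMaps) (hC : S.Classes)
    (hG : S.Galois hT.toProperMaps) (h2 : (2 : k) ≠ 0) :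
    TwClR k (fun A [CommRing A] [Algebra k A] [Algebra.FiniteType k A] => GG T (aff k A)) := by
  intro B _ _ _ a c δ ha hδ h h4 i
  obtain ⟨e1⟩ := t_EBM k B ![a 0, - a 0, a 2, δ * a 3] c
  obtain ⟨e2⟩ := t_EBM k B a c
  have h3 := TWR.step (t_ETW t_EBC t_ESG) Asm.s_EQT t_ECM hT S hP hF hD hC hG h2
    (MvPolynomial (Fin 2) B) (fun j => MvPolynomial.C (a j)) (MvPolynomial.C c)
    (MvPolynomial.C δ) (fun j => (ha j).map MvPolynomial.C) (hδ.map MvPolynomial.C)
    (by rw [← map_mul, h, map_neg]) i
  rw [← EST.vec_C a δ] at h3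
  refine TZE.gg_mv_desc hT hP hS _ i 2 ?_
  refine TZE.gg_viso (i + 2) (viso e1.symm) (h3 ?_)
  exact TZE.gg_viso (i + 2) (viso e2) (EST.gg_mv_up hT _ i 2 (h4 i))

end QCV


end

section

/-!
# QCV, block H: quadratic forms of even generic rank, if all double covers of the base have the property
-/

set_option autoImplicit false

open Polynomial

namespace QCV

open CUB

open QOD in
/-- **EOD2**: one quadratic form of even rank over a domain. -/
theorem t_EOD2 (k : Type) [Field k]
    (P : ∀ (A : Type) [CommRing A] [Algebra k A] [Algebra.FiniteType k A], Prop) (d : ℕ)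
    (h2 : (2 : k) ≠ 0) (hP : Cls k d P) (hE : EvenCl k P) (B : Type) [CommRing B] [IsDomain B]
    [Algebra k B] [Algebra.FiniteType k B] (n : ℕ) (f : MvPolynomial (Fin n) B)
    (hD : DL k B (d + 1)) (hf : f.IsHomogeneous 2)
    (hev : Even ((gram f).map (algebraMap B (FractionRing B))).rank)
    (hDr : ∀ c : B, P (Dr B 0 c)) : P (ER (fun _ : Fin 1 => f)) := by
  have hinj : Function.Injective (algebraMap k B) := (algebraMap k B).injective
  have h2B : (2 : B) ≠ 0 := by
    intro h
    apply h2
    apply hinj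
    rw [map_zero, map_ofNat, h]
  obtain ⟨a, ha, Pm, w, hdet, hdiag, hw⟩ :=
    t_QDS t_QDF B n (gram f) h2B (gram_transpose f)
  obtain ⟨m, hm⟩ := hev
  have hm2 : ((gram f).map (algebraMap B (FractionRing B))).rank = 2 * m := by
    rw [hm]
    ring
  have hρ : 2 * m ≤ n := by
    rw [← hm2]
    refine (Matrix.rank_le_width _).trans le_rfl
  rw [hm2] at hw
  -- the strata of the base
  have hstrat : Strat (k := k) a (Ideal.Quotient.mkₐ k (Ideal.span {a})) (awayHom k a) := by
    refine ⟨Ideal.Quotient.mkₐ_surjective k _, ?_, isLocalization_awayHom a⟩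
    exact Ideal.Quotient.mkₐ_ker k (Ideal.span {a})
  have hDZ : DL k (B ⧸ Ideal.span {a}) d := Asm.s_DLR.2.2.2.2 k B d a ha hD
  -- the double covers of the open part
  have hDU : ∀ b : B, P (Dr (Localization.Away a) 0 (awayHom k a b)) := by
    intro b
    obtain ⟨zd, ud, hsd⟩ := t_EDS k B (B ⧸ Ideal.span {a}) (Localization.Away a) a _ _ hstrat 0 b
    have hZ0 := hP.base (Dr (B ⧸ Ideal.span {a}) (Ideal.Quotient.mkₐ k (Ideal.span {a}) 0)
      (Ideal.Quotient.mkₐ k (Ideal.span {a}) b))
      (Asm.s_DLR.2.2.1 k (B ⧸ Ideal.span {a}) _ d hDZ)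
    have h3 := hP.opn _ zd ud hsd (hDr b) hZ0
    have e0 : awayHom k a 0 = 0 := map_zero _
    rw [e0] at h3
    exact h3
  have hDU2 : ∀ c : Localization.Away a, P (Dr (Localization.Away a) 0 c) := by
    intro c
    obtain ⟨N, b, hb⟩ := IsLocalization.Away.surj a c
    let i : Localization.Away a := IsLocalization.Away.invSelf (R := B) a
    have hi : algebraMap B (Localization.Away a) a * i = 1 := IsLocalization.Away.mul_invSelf a
    have hiu : IsUnit (i ^ N) := (IsUnit.of_mul_eq_one_right _ hi).pow N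
    have hiN : algebraMap B (Localization.Away a) a ^ N * i ^ N = 1 := by
      rw [← mul_pow, hi, one_pow]
    have hc : c = (i ^ N) ^ 2 * awayHom k a (b * a ^ N) := by
      change c = (i ^ N) ^ 2 * algebraMap B (Localization.Away a) (b * a ^ N)
      rw [map_mul, map_pow, ← hb]
      linear_combination (-c * (1 + algebraMap B (Localization.Away a) a ^ N * i ^ N)) * hiN
    obtain ⟨e⟩ := t_EDU k (Localization.Away a) (awayHom k a (b * a ^ N)) (i ^ N) hiu
    have h4 : ∀ c' : Localization.Away a, c' = (i ^ N) ^ 2 * awayHom k a (b * a ^ N) →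
        P (Dr (Localization.Away a) 0 c') := by
      rintro _ rfl
      exact hP.iso e (hDU _)
    exact h4 c hc
  obtain ⟨z', u', hs'⟩ := Asm.s_FAM.1 k B (B ⧸ Ideal.span {a}) (Localization.Away a) (Fin 1)
    n a _ _ (fun _ => f) hstrat
  refine hP.glue _ z' u' hs' ?_ ?_
  · refine Asm.s_QUA k P d hP n _ _ hDZ fun j => ?_
    exact (totalDegree_map_le _ _).trans hf.totalDegree_le
  · have hf' : (MvPolynomial.map (algebraMap B (Localization.Away a)) f).IsHomogeneous 2 :=
      hf.map _
    have hdiag' : Pm.transpose *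
        gram (MvPolynomial.map (algebraMap B (Localization.Away a)) f) * Pm =
        Matrix.diagonal w := by
      rw [gram_map]
      exact hdiag
    have htwo : (2 : Localization.Away a) * algebraMap k (Localization.Away a) 2⁻¹ = 1 := by
      rw [← map_ofNat (algebraMap k (Localization.Away a)) 2, ← map_mul, mul_inv_cancel₀ h2,
        map_one]
    obtain ⟨e1⟩ := t_QDP k (Localization.Away a) n
      (MvPolynomial.map (algebraMap B (Localization.Away a)) f) Pm w
      (fun j => algebraMap k (Localization.Away a) 2⁻¹ * w j) h2 hf' hdet hdiag' (fun j => by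
        rw [← mul_assoc, htwo, one_mul])
    obtain ⟨e2⟩ := t_QDL k (Localization.Away a) n (2 * m) hρ
      (fun j => algebraMap k (Localization.Away a) 2⁻¹ * w j) (fun j hj => by
        rw [(hw j).2 hj, mul_zero])
    have hunit : IsUnit (algebraMap k (Localization.Away a) 2⁻¹) :=
      IsUnit.of_mul_eq_one_right _ htwo
    have hS := hE (Localization.Away a) m (fun j : Fin (2 * m) =>
        algebraMap k (Localization.Away a) 2⁻¹ * w (Fin.castLE hρ j))
      (fun j => hunit.mul ((hw (Fin.castLE hρ j)).1 j.2)) (hDU2 _)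
    have hS' := (Asm.s_PLY k P hP.toCls0 hP.line _ (n - 2 * m)).1 hS
    have h3 := hP.iso e1.symm (hP.iso e2.symm hS')
    have e3 : Ideal.span {MvPolynomial.map (algebraMap B (Localization.Away a)) f} =
        Ideal.span (Set.range (mf (awayHom k a).toRingHom (fun _ : Fin 1 => f))) := by
      congr 1
      ext x
      constructor
      · rintro rfl
        exact ⟨0, rfl⟩
      · rintro ⟨j, rfl⟩
        rfl
    exact hP.iso (Ideal.quotientEquivAlgOfEq k e3) h3

/-- **EVS2**: systems of quadratic forms of even generic rank. -/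
theorem t_EVS2 (k : Type) [Field k]
    (P : ∀ (A : Type) [CommRing A] [Algebra k A] [Algebra.FiniteType k A], Prop) (d : ℕ)
    (h2 : (2 : k) ≠ 0) (hP : Cls k d P) (hE : EvenCl k P) (R : Type) [CommRing R] [IsDomain R]
    [Algebra k R] [Algebra.FiniteType k R] (n q e : ℕ)
    (f : Fin (q + 1) → MvPolynomial (Fin n) R) (hed : e ≤ d) (hqe : q + e ≤ d + 1)
    (hDL : DL k R e) (hf : ∀ j, (f j).IsHomogeneous 2)
    (hev : Even ((gram (gen f)).map (algebraMap (MvPolynomial (Fin q) R)
      (FractionRing (MvPolynomial (Fin q) R)))).rank)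
    (hD : ∀ c : MvPolynomial (Fin q) R, P (Dr (MvPolynomial (Fin q) R) 0 c)) :
    P (VR (MvPolynomial (Fin n) R) f) := by
  have hS' : P (MvPolynomial (Fin q) (MvPolynomial (Fin n) R)) :=
    (Asm.s_PLY k P hP.toCls0 hP.line _ q).1 ((Asm.s_PLY k P hP.toCls0 hP.line R n).1
      (hP.base R (hDL.mono hed)))
  have hB : DL k (MvPolynomial (Fin q) R) (d + 1) :=
    (Asm.s_DLM k R e q hDL).mono (by omega)
  obtain ⟨e1⟩ := t_QSW k R n q f
  have h1 : P (MvPolynomial (Fin q) (MvPolynomial (Fin n) R) ⧸ Ideal.span {fs f}) :=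
    hP.iso e1.symm (t_EOD2 k P d h2 hP hE (MvPolynomial (Fin q) R) n (gen f) hB
      (EVS.gen_homog f hf) hev hD)
  have h3 := Asm.s_V1P k P hP.toCls0 hP.line (MvPolynomial (Fin q) (MvPolynomial (Fin n) R))
    (fs f) hS' h1
  have h4 := Asm.s_VRP k P d e n q hP hed (by omega) R (fun j : Fin q => f j.succ) hDL
    (fun j => (hf _).totalDegree_le)
  obtain ⟨z', u', hs⟩ := Asm.s_VRQ k (MvPolynomial (Fin n) R) q f
  exact hP.glue _ z' u' hs h4 h3

end QCV


end

section

/-!
# QCV, block H: the conjecture of Tate for cubic hypersurfaces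
-/

set_option autoImplicit false

open CategoryTheory AlgebraicGeometry Limits Polynomial TopologicalSpace

namespace QCV

open Pool.Agent.Lib_helper55.Beil Pool.Agent.Lib_helper66.OneP CUB

universe v

variable {k : Type} [Field k] {E : Type} [Field E]
variable {T : ∀ i : ℕ, Homology.{v} k E i} {hT : Full T}

/-- The affine cone over the cubic hypersurface `t_0 f_0(x) + ... + t_q f_q(x) = 0`. -/
noncomputable abbrev ccone {n q : ℕ} (f : Fin (q + 1) → MvPolynomial (Fin n) k) : Var k :=
  aff k (MvPolynomial (Fin (n + q + 1)) k ⧸ Ideal.span (Set.range fun _ : Fin 1 => cubf f))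

/-- The property `P` holds for the projective cubic hypersurfaces
`t_0 f_0(x) + ... + t_q f_q(x) = 0`, for quadratic forms `f_j` in an odd number of variables over `k`
whose generic linear combination is nondegenerate. -/
def CubicSystems (P : Var k → Prop) (q : ℕ) : Prop :=
  ∀ (n : ℕ) (f : Fin (q + 1) → MvPolynomial (Fin n) k), Odd n → (∀ j, (f j).IsHomogeneous 2) →
    (gram (gen f)).det ≠ 0 → ∀ (X : Var k) (_ : ProjSub (fun _ : Fin 1 => cubf f) X), P X

section Member

variable (k)

lemma member_poly (n d : ℕ) : Member k d (aff k (MvPolynomial (Fin n) k)) :=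
  (Asm.s_PLY k (fun A [CommRing A] [Algebra k A] [Algebra.FiniteType k A] => Member k d (aff k A))
    (cls_member k d).toCls0 (cls_member k d).line k n).1
    (Member.small _ (fun x => (dimLE_of_DL (dl_field k) x).trans (by exact_mod_cast Nat.zero_le d)))

end Member

/-- The affine cone over the cubic hypersurface belongs to the class. -/
theorem member_ccone (h2 : (2 : k) ≠ 0) (d n : ℕ) (f : Fin (d + 1 + 1) → MvPolynomial (Fin n) k)
    (hn : Odd n) (hf : ∀ j, (f j).IsHomogeneous 2) (hd : (gram (gen f)).det ≠ 0) :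
    Member k d (ccone f) := by
  obtain ⟨e⟩ := t_CBF k n (d + 1) f
  refine (cls_member k d).iso e.symm ?_
  rw [← fs_cons f]
  have hall : Member k d (aff k (MvPolynomial (Fin n) k ⧸ Ideal.span (Set.range f))) :=
    member_oddSystems h2 d n f hn hf hd
  refine t_UST2 k (fun A [CommRing A] [Algebra k A] [Algebra.FiniteType k A] => Member k d (aff k A))
    (cls_member k d).toCls0 (cls_member k d).line (d + 1 + 1) (MvPolynomial (Fin n) k)
    (Fin.cons 0 f) ?_ ?_
  · intro j hj
    have h6 : (Fin.cons 0 f : Fin (d + 1 + 1 + 1) → MvPolynomial (Fin n) k) ''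
        {l : Fin (d + 1 + 1 + 1) | 1 ≤ l.1 ∧ l.1 ≤ j} =
        Set.range (fun l : Fin j => f ⟨l.1, by have := l.2; omega⟩) := by
      ext y
      constructor
      · rintro ⟨l, ⟨hl1, hl2⟩, rfl⟩
        obtain ⟨l', rfl⟩ : ∃ l' : Fin (d + 1 + 1), l = l'.succ := by
          refine ⟨l.pred ?_, (Fin.succ_pred _ _).symm⟩
          rintro rfl
          simp at hl1
        rw [Fin.cons_succ]
        simp only [Fin.val_succ] at hl2
        exact ⟨⟨l'.1, by omega⟩, rfl⟩
      · rintro ⟨l, rfl⟩
        refine ⟨Fin.succ ⟨l.1, by have := l.2; omega⟩, ⟨?_, ?_⟩, by rw [Fin.cons_succ]⟩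
        · simp only [Fin.val_succ]
          omega
        · simp only [Fin.val_succ]
          have := l.2
          omega
    refine (cls_member k d).iso
      (Ideal.quotientEquivAlgOfEq k (congrArg Ideal.span h6.symm)) ?_
    rcases Nat.eq_zero_or_pos j with rfl | hj0
    · refine (cls_member k d).iso (A := MvPolynomial (Fin n) k) ?_ (member_poly k n d)
      have h1 : Ideal.span (Set.range (fun l : Fin 0 =>
          f ⟨l.1, by have := l.2; omega⟩)) = ⊥ := by
        rw [Set.range_eq_empty, Ideal.span_empty]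
      exact ((Ideal.quotientEquivAlgOfEq k h1).trans
        (AlgEquiv.quotientBot k (MvPolynomial (Fin n) k))).symm
    · rcases Nat.lt_or_ge j (d + 2) with hj2 | hj2
      · exact member_of_built (built_quadrics (e := 0) _ hj0 (by omega)
          (dimLE_of_DL (dl_field k)) (fun l => (hf _).totalDegree_le))
      · obtain rfl : j = d + 1 + 1 := by omega
        exact hall
  · refine (cls_member k d).iso (Ideal.quotientEquivAlgOfEq k ?_) hall
    apply le_antisymm
    · rw [Ideal.span_le]
      rintro _ ⟨j, rfl⟩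
      exact Ideal.subset_span ⟨j.succ, by rw [Fin.cons_succ]⟩
    · rw [Ideal.span_le]
      rintro _ ⟨j, rfl⟩
      refine Fin.cases ?_ (fun j => ?_) j
      · rw [Fin.cons_zero]
        exact Ideal.zero_mem _
      · rw [Fin.cons_succ]
        exact Ideal.subset_span ⟨j, rfl⟩

/-- The cubic hypersurfaces belong to the class. -/
theorem member_cubicSystems (h2 : (2 : k) ≠ 0) (d : ℕ) : CubicSystems (Member k d) (d + 1) := by
  intro n f hn hf hd X S
  exact member_of_cone
    (Member.small _ (fun x => (dimLE_of_DL (dl_field k) x).trans (by exact_mod_cast Nat.zero_le d)))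
    (fun _ : Fin 1 => cubf f) (fun _ => 3) (fun _ => cubf_homogeneous f hf) (fun _ => by norm_num)
    (member_ccone h2 d n f hn hf hd) S

section

variable [Finite k] [CharZero E]

/-- From the cubic to the generic member. -/
theorem gg_fs_of_ccone (hP : Pub2 T hT) {n q : ℕ} (f : Fin (q + 1) → MvPolynomial (Fin n) k)
    (h : GG T (ccone f)) :
    GG T (aff k (MvPolynomial (Fin q) (MvPolynomial (Fin n) k) ⧸ Ideal.span {fs f})) := by
  have hG : GGC T := ggc hP
  obtain ⟨e⟩ := t_CBF k n q f
  have h1 := (clsT_gg hG).iso e h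
  obtain ⟨u, hu⟩ := t_LNX k (MvPolynomial (Fin n) k) q f
  have h2 := (clsT_gg hG).opn _ u hu h1
  exact t_TGM k E T hT hP.toPub hP.sectionZero _ h2

/-- The conjecture of Tate in dimension at most `d` is equivalent to the conjecture of Tate for the
cubic hypersurfaces `t_0 f_0(x) + ... + t_(d+1) f_(d+1)(x) = 0`. -/
theorem tate_cubic (hP : Pub2 T hT) (h2 : (2 : k) ≠ 0) (d : ℕ) :
    (∀ X : Var k, X.DimLE d → Tate T X) ↔ CubicSystems (Tate T) (d + 1) := by
  constructor
  · intro h n f hn hf hd X S
    exact (tate_member hP d).mp h X (member_cubicSystems h2 d n f hn hf hd X S)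
  · intro h
    rw [tate_iff]
    refine universal2 hP h2 d ?_
    intro s f hf hd
    refine gg_fs_of_ccone hP f ?_
    refine (gg_iff _).mpr ((tate_cone_iff hP (fun _ : Fin 1 => cubf f) (fun _ => 3)
      (fun _ => cubf_homogeneous f hf) (fun _ => by norm_num) (tate_field hP)).mpr ?_)
    exact h (1 + 2 * s) f ⟨s, by ring⟩ hf hd

end

end QCV


end

section

/-!
# QCV, block H: from a quadric cone in an even number of variables to the discriminant double cover
-/

set_option autoImplicit false

open CategoryTheory AlgebraicGeometry Limits Polynomial TopologicalSpace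

namespace QCV

open Pool.Agent.Lib_helper55.Beil Pool.Agent.Lib_helper66.OneP CUB

universe v

variable {k : Type} [Field k] {E : Type} [Field E] [Finite k] [CharZero E]
variable {T : ∀ i : ℕ, Homology.{v} k E i} {hT : Full T}

omit [Finite k] [CharZero E] in
lemma gg_qc_congr {B : Type} [CommRing B] [Algebra k B] [Algebra.FiniteType k B] {a a' : Fin 4 → B}
    {c c' : B} (h : a = a') (h' : c = c') (hD : GG T (aff k (QC B a c))) :
    GG T (aff k (QC B a' c')) := by
  subst h
  subst h'
  exact hD

/-- The closed part. -/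
lemma gg_closed (hP : Pub2 T hT) {A Z U : Type} [CommRing A] [Algebra k A] [Algebra.FiniteType k A]
    [CommRing Z] [Algebra k Z] [Algebra.FiniteType k Z] [CommRing U] [Algebra k U]
    [Algebra.FiniteType k U] (a : A) (z : A →ₐ[k] Z) (u : A →ₐ[k] U) (s : Strat a z u)
    (hA : GG T (aff k A)) (hU : PPF T (aff k U)) : GG T (aff k Z) :=
  t_TCL k E T hT hP.toPub _ _ (complementary_away u a s.away z s.surj s.ker) hA hU

open EVI in
/-- **EVR**. -/
theorem t_EVR (hP : Pub2 T hT) (h2 : (2 : k) ≠ 0) (A : Type) [CommRing A] [Algebra k A]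
    [Algebra.FiniteType k A] (hA : PPF T (aff k A)) (m : ℕ) :
    ∀ a : Fin (2 * (m + 1)) → A, (∀ j, IsUnit (a j)) →
      GG T (aff k (MvPolynomial (Fin (2 * (m + 1))) A ⧸ Ideal.span {dia a})) →
      GG T (aff k (Dr A 0 ((-1) ^ (m + 1 + 1) * ∏ j, a j))) := by
  have hG : GGC T := ggc hP
  obtain ⟨S, d1, d2, d3, d4⟩ := hP.dbl
  have hTw := t_TWR k E T hT S hP.toPub hP.sectionZero d1 d2 d3 d4 h2
  have hl : ∀ (A : Type) [CommRing A] [Algebra k A] [Algebra.FiniteType k A],
      PPF T (aff k A) → PPF T (aff k A[X]) := fun A _ _ _ h => ppf_line hT hP.toPub A h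
  induction m with
  | zero =>
    intro a ha hc
    obtain ⟨z, u, hs⟩ := t_EE1 k A a ha
    have h3 := (clsT_gg hG).opn _ u hs.away hc
    have h4 := t_TGM k E T hT hP.toPub hP.sectionZero _ h3
    have e : a 0 * a 1 = (-1 : A) ^ (0 + 1 + 1) * ∏ j, a j := by
      have h3 : ∏ j, a j = a 0 * a 1 := Fin.prod_univ_two a
      rw [h3]
      ring
    exact gg_dr_congr e h4
  | succ m ih =>
    intro a ha hc
    obtain ⟨v, hv⟩ := (ha 0).exists_right_inv
    -- the coefficients
    let b : Fin (2 * m + 4) → A := a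
    have hb : ∀ j, IsUnit (b j) := ha
    change b 0 * v = 1 at hv
    let δ : A := - (b 1 * v)
    have hδu : IsUnit δ := ((hb 1).mul (IsUnit.of_mul_eq_one_right (b 0) hv)).neg
    have hδ : δ * b 0 = - b 1 := by
      change - (b 1 * v) * b 0 = - b 1
      linear_combination (- b 1) * hv
    let b' : Fin (2 * m + 4) → A := fun j =>
      if j.1 = 1 then - b 0 else if j.1 = 3 then δ * b 3 else b j
    have h0' : b' 0 = b 0 := rfl
    have h1' : b' 1 = - b 0 := rfl
    have h2' : b' 2 = b 2 := rfl
    have h3' : b' 3 = δ * b 3 := rfl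
    have h4' : ∀ j : Fin (2 * m), b' j.succ.succ.succ.succ = b j.succ.succ.succ.succ := by
      intro j
      change (if (j.1 + 1 + 1 + 1 + 1 : ℕ) = 1 then _ else if (j.1 + 1 + 1 + 1 + 1 : ℕ) = 3 then _
        else _) = _
      rw [if_neg (by omega), if_neg (by omega)]
    have hb' : ∀ j, IsUnit (b' j) := by
      intro j
      change IsUnit (if j.1 = 1 then - b 0 else if j.1 = 3 then δ * b 3 else b j)
      split_ifs
      · exact (hb 0).neg
      · exact hδu.mul (hb 3)
      · exact hb j
    have hprod : ∏ j, b' j = ∏ j, b j := by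
      rw [prod_four, prod_four, h0', h1', h2', h3']
      simp only [h4']
      linear_combination (- b 0 * b 2 * b 3 * ∏ j : Fin (2 * m), b j.succ.succ.succ.succ) * hδ
    -- the cone of `b'`
    obtain ⟨e1⟩ := t_EQI k A m a
    obtain ⟨e2⟩ := t_EQI k A m b'
    have hcone : GG T (aff k (MvPolynomial (Fin (2 * (m + 2))) A ⧸
        Ideal.span {dia (b' : Fin (2 * (m + 2)) → A)})) := by
      refine (clsT_gg hG).iso e2.symm ?_
      have h5 := hTw (MvPolynomial (Fin (2 * m)) A) _ _ (MvPolynomial.C δ) ?_ ?_ ?_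
        ((clsT_gg hG).iso e1 hc)
      · refine gg_qc_congr ?_ ?_ h5
        · funext j
          fin_cases j
          · rfl
          · change - MvPolynomial.C (b 0) = MvPolynomial.C (- b 0)
            rw [map_neg]
          · rfl
          · change MvPolynomial.C δ * MvPolynomial.C (b 3) = MvPolynomial.C (δ * b 3)
            rw [map_mul]
        · congr 1
      · intro j
        exact (ha _).map MvPolynomial.C
      · exact hδu.map MvPolynomial.C
      · change MvPolynomial.C δ * MvPolynomial.C (b 0) = - MvPolynomial.C (b 1)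
        rw [← map_mul, hδ, map_neg]
    -- removal of the hyperbolic plane
    obtain ⟨s, z, u, hs⟩ := t_EH2 k A (2 * (m + 1)) b' h2 (hb' 0) rfl
    have hopen := punct (cls0_ppf hT hP.toPub) hl (MvPolynomial (Fin (2 * (m + 1))) A)
      ((Asm.s_PLY k _ (cls0_ppf hT hP.toPub) hl A _).1 hA)
    have hZ : GG T (aff k (MvPolynomial (Fin (2 * (m + 1))) A ⧸
        Ideal.span {dia fun j : Fin (2 * (m + 1)) => b' j.succ.succ})[X]) :=
      gg_closed hP (Z := (MvPolynomial (Fin (2 * (m + 1))) A ⧸
        Ideal.span {dia fun j : Fin (2 * (m + 1)) => b' j.succ.succ})[X]) s z u hs hcone hopen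
    have hc2 := hG.unpoly _ hZ
    have hih := ih (fun j => b' j.succ.succ) (fun j => hb' _) hc2
    obtain ⟨e⟩ := t_EDU k A ((-1) ^ (m + 1 + 1) * ∏ j : Fin (2 * (m + 1)), b' j.succ.succ) (b 0)
      (hb 0)
    refine gg_dr_congr ?_ ((clsT_gg hG).iso e hih)
    have h5 : ∏ j, a j = b' 0 * (b' 1 * ∏ j : Fin (2 * (m + 1)), b' j.succ.succ) :=
      hprod.symm.trans (prod_two (2 * (m + 1)) b')
    rw [h5, h0', h1']
    ring

end QCV


end

section

/-!
# QCV, block H: all systems of quadratic forms
-/

set_option autoImplicit false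

open CategoryTheory AlgebraicGeometry Limits Polynomial TopologicalSpace

namespace QCV

open Pool.Agent.Lib_helper55.Beil Pool.Agent.Lib_helper66.OneP CUB

universe v

/-- **OVS2**: systems of quadratic forms of odd generic rank. -/
theorem t_OVS2 (k : Type) [Field k]
    (P : ∀ (A : Type) [CommRing A] [Algebra k A] [Algebra.FiniteType k A], Prop) (d : ℕ)
    (h2 : (2 : k) ≠ 0) (hP : Cls k d P) (hE : OddCl k P) (R : Type) [CommRing R] [IsDomain R]
    [Algebra k R] [Algebra.FiniteType k R] (n q e : ℕ)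
    (f : Fin (q + 1) → MvPolynomial (Fin n) R) (hed : e ≤ d) (hqe : q + e ≤ d + 1)
    (hDL : DL k R e) (hf : ∀ j, (f j).IsHomogeneous 2)
    (hodd : Odd ((gram (gen f)).map (algebraMap (MvPolynomial (Fin q) R)
      (FractionRing (MvPolynomial (Fin q) R)))).rank) :
    P (VR (MvPolynomial (Fin n) R) f) := by
  have hS' : P (MvPolynomial (Fin q) (MvPolynomial (Fin n) R)) :=
    (Asm.s_PLY k P hP.toCls0 hP.line _ q).1 ((Asm.s_PLY k P hP.toCls0 hP.line R n).1
      (hP.base R (hDL.mono hed)))
  have hB : DL k (MvPolynomial (Fin q) R) (d + 1) :=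
    (Asm.s_DLM k R e q hDL).mono (by omega)
  have hPB : P (MvPolynomial (Fin q) R) :=
    (Asm.s_PLY k P hP.toCls0 hP.line R q).1 (hP.base R (hDL.mono hed))
  obtain ⟨e1⟩ := t_QSW k R n q f
  have h1 : P (MvPolynomial (Fin q) (MvPolynomial (Fin n) R) ⧸ Ideal.span {fs f}) :=
    hP.iso e1.symm (Asm.s_QOD k P d h2 hP hE (MvPolynomial (Fin q) R) n (gen f) hB hPB
      (EVS.gen_homog f hf) hodd)
  have h3 := Asm.s_V1P k P hP.toCls0 hP.line (MvPolynomial (Fin q) (MvPolynomial (Fin n) R))
    (fs f) hS' h1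
  have h4 := Asm.s_VRP k P d e n q hP hed (by omega) R (fun j : Fin q => f j.succ) hDL
    (fun j => (hf _).totalDegree_le)
  obtain ⟨z', u', hs⟩ := Asm.s_VRQ k (MvPolynomial (Fin n) R) q f
  exact hP.glue _ z' u' hs h4 h3

variable {k : Type} [Field k] {E : Type} [Field E]
variable {T : ∀ i : ℕ, Homology.{v} k E i} {hT : Full T}

/-- The property `P` holds for the zero sets of any `q + 1` quadratic forms over `k`. -/
def AllSystems (P : Var k → Prop) (q : ℕ) : Prop :=
  ∀ (n : ℕ) (f : Fin (q + 1) → MvPolynomial (Fin n) k), (∀ j, (f j).IsHomogeneous 2) → P (zer f)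

section

variable [Finite k] [CharZero E]

lemma oddCl_gg (hP : Pub2 T hT) :
    OddCl k (fun A [CommRing A] [Algebra k A] [Algebra.FiniteType k A] => GG T (aff k A)) := by
  obtain ⟨S, h1, h2, h3, h4⟩ := hP.dbl
  exact fun A _ _ _ m a ha h =>
    t_TOD k E T hT S hP.toPub hP.sectionZero h1 h2 h3 h4 A m a ha h

/-- From varieties of dimension at most `d` and the double covers of the affine space of dimension
`d + 1` to all systems of `d + 2` quadratic forms. -/
lemma allSystems_of (hP : Pub2 T hT) (h2 : (2 : k) ≠ 0) (d : ℕ)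
    (hlow : ∀ X : Var k, X.DimLE d → GG T X) (hD : DoubleCovers (GG T) (d + 1)) :
    AllSystems (GG T) (d + 1) := by
  intro n f hf
  refine t_TZE k E T hT hP.toPub hP.sectionZero _ (d + 1) f ?_
  rcases Nat.even_or_odd ((gram (gen f)).map (algebraMap (MvPolynomial (Fin (d + 1)) k)
      (FractionRing (MvPolynomial (Fin (d + 1)) k)))).rank with h | h
  · exact t_EVS2 k (fun A [CommRing A] [Algebra k A] [Algebra.FiniteType k A] => GG T (aff k A)) d
      h2 (cls_gg hP d hlow) (ggEven hP h2) k n (d + 1) 0 f (Nat.zero_le d) le_rfl (dl_field k) hf h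
      (fun c => gg_dr_congr (neg_neg c) (hD (-c)))
  · exact t_OVS2 k (fun A [CommRing A] [Algebra k A] [Algebra.FiniteType k A] => GG T (aff k A)) d
      h2 (cls_gg hP d hlow) (oddCl_gg hP) k n (d + 1) 0 f (Nat.zero_le d) le_rfl (dl_field k) hf h

/-- The conjecture of Tate for all systems of `d + 2` quadratic forms over `k` is equivalent to the
conjecture of Tate for all varieties of dimension at most `d` and for the double covers of the affine
space of dimension `d + 1`. -/
theorem tate_all (hP : Pub2 T hT) (h2 : (2 : k) ≠ 0) (d : ℕ) :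
    AllSystems (Tate T) (d + 1) ↔
      (∀ X : Var k, X.DimLE d → Tate T X) ∧ DoubleCovers (Tate T) (d + 1) := by
  constructor
  · intro h
    have h3 : ∀ X : Var k, X.DimLE d → Tate T X :=
      (tate_odd hP h2 d).mpr fun n f _ hf _ => h n f hf
    exact ⟨h3, (tate_even hP h2 d h3).mp fun n f _ hf _ => h n f hf⟩
  · rintro ⟨h, hD⟩ n f hf
    exact (gg_iff _).mp (allSystems_of hP h2 d ((tate_iff (T := T) _).mp h)
      (fun g => (gg_iff _).mpr (hD g)) n f hf)

/-- The conjecture of Tate for the origin. -/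
lemma tate_zer_zero (hP : Pub2 T hT) {q : ℕ} (f : Fin (q + 1) → MvPolynomial (Fin 0) k)
    (hf : ∀ j, (f j).IsHomogeneous 2) : Tate T (zer f) := by
  have hG : GGC T := ggc hP
  have h0 : ∀ j, f j = 0 := by
    intro j
    rw [MvPolynomial.eq_C_of_isEmpty (f j)]
    have h1 : MvPolynomial.coeff 0 (f j) = 0 := by
      apply (hf j).coeff_eq_zero
      rw [map_zero]
      norm_num
    rw [h1, map_zero]
  refine (gg_iff _).mp ((clsT_gg hG).iso (A := MvPolynomial (Fin 0) k) ?_
    (fun i => (ppf_poly hP.toPub (T := T) 0 i).1))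
  have h1 : Ideal.span (Set.range f) = ⊥ := by
    rw [Ideal.span_eq_bot]
    rintro _ ⟨j, rfl⟩
    exact h0 j
  exact ((Ideal.quotientEquivAlgOfEq k h1).trans
    (AlgEquiv.quotientBot k (MvPolynomial (Fin 0) k))).symm

/-- The conjecture of Tate for the affine and for the projective zero set of quadratic forms. -/
lemma tate_zer_iff (hP : Pub2 T hT) {n q : ℕ} (f : Fin (q + 1) → MvPolynomial (Fin (n + 1)) k)
    (hf : ∀ j, (f j).IsHomogeneous 2) :
    Tate T (zer f) ↔ ∀ (X : Var k) (_ : ProjSub f X), Tate T X :=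
  tate_cone_iff hP f (fun _ => 2) hf (fun _ => by norm_num) (tate_field hP)

end

end QCV


end

section

/-!
# QCV, block H: three quadratic forms and double planes
-/

set_option autoImplicit false

open CategoryTheory AlgebraicGeometry Limits Polynomial TopologicalSpace

namespace QCV

open Pool.Agent.Lib_helper55.Beil Pool.Agent.Lib_helper66.OneP CUB

universe v

variable {k : Type} [Field k] {E : Type} [Field E] [Finite k] [CharZero E]
variable {T : ∀ i : ℕ, Homology.{v} k E i} {hT : Full T}

/-- A surface for which the conjecture of Tate holds. -/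
theorem ppf_surface (hP : Pub2 T hT) (X : Var k) (h : X.DimLE (2 : ℕ)) (hX : Tate T X) :
    PPF T X := by
  intro i
  rcases Nat.lt_or_ge 1 i with h1 | h1
  · exact pf_of_dimLE hT hP.toPub i X fun x => (h x).trans (by exact_mod_cast h1)
  rcases Nat.eq_zero_or_pos i with h0 | h0
  · subst h0
    exact pf_zero hT hP.toPub X
  · have h2 : i = 1 := by omega
    subst h2
    exact ⟨CUB.OPEN.good (T 1) X (hX 1).1 (hX 1).2,
      ((T 1).inj_iff X).mp (hP.divisors 1 X h), fun m _ => supp_of_dimLE hT.toExtra 1 _ _ X h m⟩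

/-- `PPF` satisfies the closure properties of `Cls` if it holds in dimension at most `d`. -/
lemma cls_ppf (hP : Pub2 T hT) (d : ℕ) (h : ∀ X : Var k, X.DimLE d → PPF T X) :
    Cls k d (fun A [CommRing A] [Algebra k A] [Algebra.FiniteType k A] => PPF T (aff k A)) where
  toCls0 := cls0_ppf hT hP.toPub
  line := fun A _ _ _ h => ppf_line hT hP.toPub A h
  dbl := fun A _ _ _ b c h i => pf_dbl hT hP.toPub i A b c (h i)
  base := fun A _ _ _ hA => h _ (dimLE_of_DL hA)

omit [Finite k] [CharZero E] in
lemma ppf_dr_congr {B : Type} [CommRing B] [Algebra k B] [Algebra.FiniteType k B] {c c' : B}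
    (h : c = c') (hc : PPF T (aff k (Dr B 0 c))) : PPF T (aff k (Dr B 0 c')) := by
  subst h
  exact hc

/-- From varieties of dimension at most `d` and the double covers of the affine space of dimension
`d + 1` to all systems of `d + 2` quadratic forms. -/
lemma allSystems_ppf (hP : Pub2 T hT) (h2 : (2 : k) ≠ 0) (d : ℕ)
    (hlow : ∀ X : Var k, X.DimLE d → PPF T X) (hD : DoubleCovers (PPF T) (d + 1)) :
    AllSystems (PPF T) (d + 1) := by
  intro n f hf
  have key : PPF T (aff k (VR (MvPolynomial (Fin n) k) f)) := by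
    rcases Nat.even_or_odd ((gram (gen f)).map (algebraMap (MvPolynomial (Fin (d + 1)) k)
        (FractionRing (MvPolynomial (Fin (d + 1)) k)))).rank with h | h
    · exact t_EVS2 k (fun A [CommRing A] [Algebra k A] [Algebra.FiniteType k A] => PPF T (aff k A))
        d h2 (cls_ppf hP d hlow) (ppfEven hP h2) k n (d + 1) 0 f (Nat.zero_le d) le_rfl
        (dl_field k) hf h (fun c => ppf_dr_congr (neg_neg c) (hD (-c)))
    · exact t_OVS2 k (fun A [CommRing A] [Algebra k A] [Algebra.FiniteType k A] => PPF T (aff k A))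
        d h2 (cls_ppf hP d hlow) (ppfOdd hP) k n (d + 1) 0 f (Nat.zero_le d) le_rfl
        (dl_field k) hf h
  intro i
  exact (pi_iff hT.toExtra i _).mp (red3 hT hP.toPub hP.sectionZero i (d + 1) f
    (Ideal.Quotient.mkₐ k _) (Ideal.Quotient.mkₐ_surjective k _) Ideal.mk_ker
    ((pi_iff hT.toExtra _ _).mpr (key _)))

lemma ppf_of_isEmpty (hP : Pub2 T hT) {X : Var k} (h : IsEmpty X.X) : PPF T X :=
  fun i => pf_of_dimLE hT hP.toPub i X (fun x => (h.false x).elim)

/-- The property `PPF` is determined by the closed subset of an ambient variety. -/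
theorem ppf_same_range (hP : Pub2 T hT) {X Y W : Var k} (a : ClosedIn X W) (b : ClosedIn Y W)
    (h : Set.range a.g = Set.range b.g) (hX : PPF T X) : PPF T Y := by
  have hred := isReduced_redVar Y
  obtain ⟨l, hl⟩ := exists_factor_range a ((redVarIn Y).trans b) (by
    rintro _ ⟨y, rfl⟩
    rw [h]
    exact ⟨(redVarIn Y).g y, rfl⟩)
  have hs : Function.Surjective l.g := by
    intro x
    have h1 : a.g x ∈ Set.range b.g := by
      rw [← h]
      exact ⟨x, rfl⟩
    obtain ⟨y, hy⟩ := h1
    obtain ⟨y', hy'⟩ : y ∈ Set.range (redVarIn Y).g := by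
      rw [range_redVarIn]
      trivial
    refine ⟨y', ?_⟩
    apply closedIn_injective a
    rw [← hy, ← hy', ← Scheme.Hom.comp_apply, hl]
    rfl
  intro i
  exact pf_glue hT hP.toPub i (redVarIn Y) (openVarIn Y ⊥) (complementary_red Y)
    (pf_nil hT i l hs (hX i)) (ppf_of_isEmpty hP (isEmpty_openVar_bot Y) i)

/-- From the affine cone to the projective variety. -/
theorem ppf_of_cone (hP : Pub2 T hT) {R ι : Type} [CommRing R] [Algebra k R]
    [Algebra.FiniteType k R] {n : ℕ} (hR : PPF T (aff k R)) (f : ι → MvPolynomial (Fin (n + 1)) R)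
    (m : ι → ℕ) (hf : ∀ j, (f j).IsHomogeneous (m j)) (hm : ∀ j, 1 ≤ m j)
    (h : PPF T (aff k (MvPolynomial (Fin (n + 1)) R ⧸ Ideal.span (Set.range f))))
    {X : Var k} (S : ProjSub f X) : PPF T X :=
  Asm.s_BCO k (PPF T)
    (fun a j hc hX hZ i => by
      rcases i with _ | i
      · exact pf_zero hT hP.toPub _
      · exact pf_open hT hP.toPub i a j hc (hX _) (hZ _))
    (fun a b hab hX => ppf_same_range hP a b hab hX)
    (fun B s j hs hc hU => ppfBun hP B s j hs hc hU) R ι n f m hf hm hR h X S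

/-- The double cover of the affine plane is a surface. -/
lemma dimLE_dr (g : MvPolynomial (Fin (1 + 1)) k) :
    (aff k (Dr (MvPolynomial (Fin (1 + 1)) k) 0 (-g))).DimLE (2 : ℕ) := by
  apply dimLE_of_DL
  exact Asm.s_DLR.2.2.1 k _ _ 2 ((Asm.s_DLM k k 0 2 (dl_field k)).mono (by omega))

/-- The conjecture of Tate for double planes is equivalent to the generalised conjecture of Beilinson
for all systems of three quadratic forms. -/
theorem q1_three (hP : Pub2 T hT) (h2 : (2 : k) ≠ 0) :
    DoubleCovers (Tate T) 2 ↔ AllSystems (fun X => ∀ i, Q1 (T i) X) 2 := by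
  constructor
  · intro h n f hf i
    refine q1_of_pf (T i) _ (allSystems_ppf hP h2 1 (fun X hX => ?_) (fun g => ?_) n f hf i)
    · exact ppf_of_dimLE_one hT hP.toPub X hX
    · exact ppf_surface hP _ (dimLE_dr g) (h g)
  · intro h
    exact ((tate_all hP h2 1).mp fun n f hf i =>
      ⟨(h n f hf i).2.1, (h n f hf i).2.2⟩).2

/-- The same for projective varieties. -/
theorem q1_three_proj (hP : Pub2 T hT) (h2 : (2 : k) ≠ 0) :
    DoubleCovers (Tate T) 2 ↔ ∀ (n : ℕ) (f : Fin (2 + 1) → MvPolynomial (Fin (n + 1)) k),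
      (∀ j, (f j).IsHomogeneous 2) → ∀ (X : Var k) (_ : ProjSub f X), ∀ i, Q1 (T i) X := by
  constructor
  · intro h n f hf X S i
    refine q1_of_pf (T i) _ (ppf_of_cone hP (ppf_field hP.toPub) f (fun _ => 2) hf
      (fun _ => by norm_num) (allSystems_ppf hP h2 1 (fun X hX => ?_) (fun g => ?_) (n + 1) f hf)
      S i)
    · exact ppf_of_dimLE_one hT hP.toPub X hX
    · exact ppf_surface hP _ (dimLE_dr g) (h g)
  · intro h
    refine ((tate_all hP h2 1).mp ?_).2
    intro n f hf
    rcases n with _ | n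
    · exact tate_zer_zero hP f hf
    · exact (tate_zer_iff hP f hf).mpr fun X S i =>
        ⟨(h n f hf X S i).2.1, (h n f hf X S i).2.2⟩

end QCV


end

section

/-!
# QCV, block H: projective zero sets of systems of quadratic forms
-/

set_option autoImplicit false

open CategoryTheory AlgebraicGeometry Limits Polynomial TopologicalSpace

namespace QCV

open Pool.Agent.Lib_helper55.Beil Pool.Agent.Lib_helper66.OneP CUB

universe v

variable {k : Type} [Field k] {E : Type} [Field E]
variable {T : ∀ i : ℕ, Homology.{v} k E i} {hT : Full T}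

/-- The property `P` holds for the projective zero sets of `q + 1` quadratic forms in an odd number of
variables over `k` whose generic linear combination is nondegenerate. -/
def OddSystemsP (P : Var k → Prop) (q : ℕ) : Prop :=
  ∀ (n : ℕ) (f : Fin (q + 1) → MvPolynomial (Fin (n + 1)) k), Odd (n + 1) →
    (∀ j, (f j).IsHomogeneous 2) → (gram (gen f)).det ≠ 0 → ∀ (X : Var k) (_ : ProjSub f X), P X

/-- The property `P` holds for the projective zero sets of any `q + 1` quadratic forms over `k`. -/
def AllSystemsP (P : Var k → Prop) (q : ℕ) : Prop :=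
  ∀ (n : ℕ) (f : Fin (q + 1) → MvPolynomial (Fin (n + 1)) k), (∀ j, (f j).IsHomogeneous 2) →
    ∀ (X : Var k) (_ : ProjSub f X), P X

/-- The projective varieties defined by `d + 2` quadratic forms in an odd number of variables belong
to the class. -/
lemma member_oddSystemsP (h2 : (2 : k) ≠ 0) (d : ℕ) : OddSystemsP (Member k d) (d + 1) := by
  intro n f hn hf hd X S
  exact member_of_cone
    (Member.small _ (fun x => (dimLE_of_DL (dl_field k) x).trans (by exact_mod_cast Nat.zero_le d)))
    f (fun _ => 2) hf (fun _ => by norm_num) (member_oddSystems h2 d (n + 1) f hn hf hd) S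

variable [Finite k] [CharZero E]

lemma oddP_iff (hP : Pub2 T hT) (q : ℕ) :
    OddSystemsP (Tate T) q ↔ OddSystems (Tate T) q := by
  constructor
  · intro h n f hn hf hd
    rcases n with _ | n
    · exact absurd hn (by decide)
    · exact (tate_zer_iff hP f hf).mpr (h n f hn hf hd)
  · intro h n f hn hf hd
    exact (tate_zer_iff hP f hf).mp (h (n + 1) f hn hf hd)

lemma allP_iff (hP : Pub2 T hT) (q : ℕ) :
    AllSystemsP (Tate T) q ↔ AllSystems (Tate T) q := by
  constructor
  · intro h n f hf
    rcases n with _ | n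
    · exact tate_zer_zero hP f hf
    · exact (tate_zer_iff hP f hf).mpr (h n f hf)
  · intro h n f hf
    exact (tate_zer_iff hP f hf).mp (h (n + 1) f hf)

end QCV


end
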