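import Mathlib
import Pool.Agent.QVM.C59
import Pool.Agent.QVM.C67
import Pool.Agent.QVN.C01
import Pool.Agent.QVN.C02
import Pool.Agent.UQ.Defs

/-! Parts: QCV.H_EOR, QCV.H_DIS, QCV.H_REP, QCV.H_EAC, QCV.H_INT, QCV.H_CCE, QCV.H_CCX, UQ.Geo, UQ.Hom, UQ.Fin -/

section

/-!
# QCV, block H: a system of quadratic forms in an even number of variables and its discriminant double
cover
-/

set_option autoImplicit false

open CategoryTheory AlgebraicGeometry Limits Polynomial TopologicalSpace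

namespace QCV

open Pool.Agent.Lib_helper55.Beil Pool.Agent.Lib_helper66.OneP CUB

universe v

variable {k : Type} [Field k] {E : Type} [Field E] [Finite k] [CharZero E]
variable {T : ∀ i : ℕ, Homology.{v} k E i} {hT : Full T}

/-- The open part of a variety with `PPF` if the closed part has `GG`. -/
lemma ppf_open_gg (hP : Pub2 T hT) {Z U X : Var k} (a : ClosedIn Z X) (j : OpenIn U X)
    (h : Complementary a j) (hX : PPF T X) (hZ : GG T Z) : PPF T U := by
  intro i
  rcases i with _ | i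
  · exact pf_zero hT hP.toPub _
  · exact ⟨good_open hT hP.toPub i a j h (hX (i + 1)).1,
      injC_open2 (T (i + 1)) a j h (hZ (i + 1)) (hX (i + 1)).2.1,
      supp_open hT hP.toPub (i + 1) a j h (hZ (i + 1)) (hX (i + 1)).2.1 (hX (i + 1)).2.2⟩

open QOD in
/-- **EOR**: from a quadratic form in an even number of variables over a domain to the discriminant
double cover. -/
theorem t_EOR (hP : Pub2 T hT) (h2 : (2 : k) ≠ 0) (d : ℕ)
    (hlow : ∀ X : Var k, X.DimLE d → GG T X) (B : Type) [CommRing B] [IsDomain B] [Algebra k B]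
    [Algebra.FiniteType k B] (hD : DL k B (d + 1)) (hB : PPF T (aff k B)) (m : ℕ)
    (f : MvPolynomial (Fin (2 * (m + 1))) B) (hf : f.IsHomogeneous 2)
    (hdet0 : (gram f).det ≠ 0) (h : GG T (aff k (ER (fun _ : Fin 1 => f)))) :
    GG T (aff k (Dr B 0 ((-1) ^ (m + 1 + 1) * (gram f).det))) := by
  have hG : GGC T := ggc hP
  have hinj : Function.Injective (algebraMap k B) := (algebraMap k B).injective
  have h2B : (2 : B) ≠ 0 := by
    intro h
    apply h2
    apply hinj
    rw [map_zero, map_ofNat, h]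
  obtain ⟨a, ha, Pm, w, hdet, hdiag, hw⟩ :=
    t_QDS t_QDF B (2 * (m + 1)) (gram f) h2B (gram_transpose f)
  have hrank : ((gram f).map (algebraMap B (FractionRing B))).rank = 2 * (m + 1) := by
    rw [Matrix.rank_of_isUnit, Fintype.card_fin]
    rw [Matrix.isUnit_iff_isUnit_det, isUnit_iff_ne_zero]
    intro h
    apply hdet0
    apply IsFractionRing.injective B (FractionRing B)
    rw [map_zero, ← h, RingHom.map_det]
    rfl
  have hwu : ∀ j, IsUnit (w j) := fun j => (hw j).1 (by rw [hrank]; exact j.2)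
  -- the strata of the base
  have hstrat : Strat (k := k) a (Ideal.Quotient.mkₐ k (Ideal.span {a})) (awayHom k a) := by
    refine ⟨Ideal.Quotient.mkₐ_surjective k _, ?_, isLocalization_awayHom a⟩
    exact Ideal.Quotient.mkₐ_ker k (Ideal.span {a})
  have hDZ : DL k (B ⧸ Ideal.span {a}) d := Asm.s_DLR.2.2.2.2 k B d a ha hD
  have hU : PPF T (aff k (Localization.Away a)) :=
    ppf_open_gg hP _ _ (complementary_away (awayHom k a) a hstrat.away _ hstrat.surj hstrat.ker)
      hB (hlow _ (dimLE_of_DL hDZ))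
  -- the open part of the cone
  obtain ⟨z', u', hs'⟩ := Asm.s_FAM.1 k B (B ⧸ Ideal.span {a}) (Localization.Away a) (Fin 1)
    (2 * (m + 1)) a _ _ (fun _ => f) hstrat
  have h3 := (clsT_gg hG).opn _ u' hs'.away h
  have hf' : (MvPolynomial.map (algebraMap B (Localization.Away a)) f).IsHomogeneous 2 :=
    hf.map _
  have hdiag' : Pm.transpose *
      gram (MvPolynomial.map (algebraMap B (Localization.Away a)) f) * Pm =
      Matrix.diagonal w := by
    rw [gram_map]
    exact hdiag
  have htwo : (2 : Localization.Away a) * algebraMap k (Localization.Away a) 2⁻¹ = 1 := by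
    rw [← map_ofNat (algebraMap k (Localization.Away a)) 2, ← map_mul, mul_inv_cancel₀ h2,
      map_one]
  obtain ⟨e1⟩ := t_QDP k (Localization.Away a) (2 * (m + 1))
    (MvPolynomial.map (algebraMap B (Localization.Away a)) f) Pm w
    (fun j => algebraMap k (Localization.Away a) 2⁻¹ * w j) h2 hf' hdet hdiag' (fun j => by
      rw [← mul_assoc, htwo, one_mul])
  have hunit : IsUnit (algebraMap k (Localization.Away a) 2⁻¹) :=
    IsUnit.of_mul_eq_one_right _ htwo
  have e3 : Ideal.span {MvPolynomial.map (algebraMap B (Localization.Away a)) f} =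
      Ideal.span (Set.range (mf (awayHom k a).toRingHom (fun _ : Fin 1 => f))) := by
    congr 1
    ext x
    constructor
    · rintro rfl
      exact ⟨0, rfl⟩
    · rintro ⟨j, rfl⟩
      rfl
  have h4 := (clsT_gg hG).iso e1 ((clsT_gg hG).iso (Ideal.quotientEquivAlgOfEq k e3).symm h3)
  have h5 := t_EVR hP h2 (Localization.Away a) hU m
    (fun j => algebraMap k (Localization.Away a) 2⁻¹ * w j) (fun j => hunit.mul (hwu j)) h4
  have hdG : ((gram f).map (algebraMap B (Localization.Away a))).det =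
      algebraMap B (Localization.Away a) (gram f).det := by
    rw [RingHom.map_det]
    rfl
  have hc : (-1 : Localization.Away a) ^ (m + 1 + 1) *
      ∏ j, (algebraMap k (Localization.Away a) 2⁻¹ * w j) =
      (Pm.det * (algebraMap k (Localization.Away a) 2⁻¹) ^ (m + 1)) ^ 2 *
        awayHom k a ((-1) ^ (m + 1 + 1) * (gram f).det) := by
    rw [EOD.det_eq _ Pm w _ hdiag, hdG]
    congr 1
    change _ = algebraMap B (Localization.Away a) _
    rw [map_mul, map_pow, map_neg, map_one]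
  obtain ⟨e2⟩ := t_EDU k (Localization.Away a)
    (awayHom k a ((-1) ^ (m + 1 + 1) * (gram f).det))
    (Pm.det * (algebraMap k (Localization.Away a) 2⁻¹) ^ (m + 1))
    (hdet.mul (hunit.pow (m + 1)))
  have h6 := (clsT_gg hG).iso e2.symm (gg_dr_congr hc h5)
  -- gluing
  obtain ⟨zd, ud, hsd⟩ := t_EDS k B (B ⧸ Ideal.span {a}) (Localization.Away a) a _ _ hstrat 0
    ((-1) ^ (m + 1 + 1) * (gram f).det)
  refine (clsT_gg hG).glue _ zd ud hsd ?_ ?_
  · exact hlow _ (dimLE_of_DL (Asm.s_DLR.2.2.1 k (B ⧸ Ideal.span {a}) _ d hDZ))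
  · have e0 : awayHom k a 0 = 0 := map_zero _
    rw [e0]
    exact h6

end QCV


end

section

/-!
# QCV, block H: a system of quadratic forms in an even number of variables over `k` and its discriminant
double cover
-/

set_option autoImplicit false

open CategoryTheory AlgebraicGeometry Limits Polynomial TopologicalSpace

namespace QCV

open Pool.Agent.Lib_helper55.Beil Pool.Agent.Lib_helper66.OneP CUB

universe v

/-- The discriminant double cover `t ^ 2 = (-1) ^ m det` of a linear system of quadratic forms in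
`n = 2 m` variables. -/
noncomputable abbrev disV {k : Type} [Field k] (m : ℕ) {n q : ℕ}
    (f : Fin (q + 1) → MvPolynomial (Fin n) k) : Var k :=
  aff k (Dr (MvPolynomial (Fin q) k) 0 ((-1) ^ (m + 1) * (gram (gen f)).det))

variable {k : Type} [Field k] {E : Type} [Field E]
variable {T : ∀ i : ℕ, Homology.{v} k E i} {hT : Full T}

section

variable [Finite k] [CharZero E]

/-- The generic member of a system of `d + 2` quadratic forms. -/
lemma gg_fs_of_zer (hP : Pub2 T hT) (d : ℕ) (hlow : ∀ X : Var k, X.DimLE d → GG T X) {n : ℕ}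
    (f : Fin (d + 1 + 1) → MvPolynomial (Fin n) k) (hf : ∀ j, (f j).IsHomogeneous 2)
    (h : GG T (zer f)) :
    GG T (aff k (MvPolynomial (Fin (d + 1)) (MvPolynomial (Fin n) k) ⧸ Ideal.span {fs f})) := by
  have hG : GGC T := ggc hP
  refine t_UST k (fun A [CommRing A] [Algebra k A] [Algebra.FiniteType k A] => GG T (aff k A))
    (clsT_gg hG) (d + 1) (MvPolynomial (Fin n) k) f ?_ h
  intro j hj
  have h6 : f '' {l : Fin (d + 1 + 1) | 1 ≤ l.1 ∧ l.1 ≤ j} =
      Set.range (fun l : Fin j => f ⟨l.1 + 1, by omega⟩) := by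
    ext y
    constructor
    · rintro ⟨l, ⟨hl1, hl2⟩, rfl⟩
      refine ⟨⟨l.1 - 1, by omega⟩, congrArg f (Fin.ext ?_)⟩
      change l.1 - 1 + 1 = l.1
      omega
    · rintro ⟨l, rfl⟩
      refine ⟨_, ⟨?_, ?_⟩, rfl⟩
      · change 1 ≤ l.1 + 1
        omega
      · change l.1 + 1 ≤ j
        have := l.2
        omega
  refine (clsT_gg hG).iso (Ideal.quotientEquivAlgOfEq k (congrArg Ideal.span h6.symm)) ?_
  rcases Nat.eq_zero_or_pos j with rfl | hj0
  · refine (clsT_gg hG).iso (A := MvPolynomial (Fin n) k) ?_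
      (fun i => (ppf_poly hP.toPub (T := T) n i).1)
    have h1 : Ideal.span (Set.range (fun l : Fin 0 =>
        f ⟨l.1 + 1, by have := l.2; omega⟩)) = ⊥ := by
      rw [Set.range_eq_empty, Ideal.span_empty]
    exact ((Ideal.quotientEquivAlgOfEq k h1).trans
      (AlgEquiv.quotientBot k (MvPolynomial (Fin n) k))).symm
  · refine gg_of_built hP d hlow _ ?_
    exact built_quadrics (e := 0) _ hj0 (by omega)
      (dimLE_of_DL (dl_field k)) (fun l => (hf _).totalDegree_le)

/-- A system of `d + 2` quadratic forms in an even number of variables and its discriminant double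
cover. -/
theorem gg_dis_iff (hP : Pub2 T hT) (h2 : (2 : k) ≠ 0) (d : ℕ)
    (hlow : ∀ X : Var k, X.DimLE d → GG T X) (n m : ℕ) (hn : n = 2 * m) (hm : 1 ≤ m)
    (f : Fin (d + 1 + 1) → MvPolynomial (Fin n) k) (hf : ∀ j, (f j).IsHomogeneous 2)
    (hd : (gram (gen f)).det ≠ 0) : GG T (zer f) ↔ GG T (disV m f) := by
  have hG : GGC T := ggc hP
  subst hn
  constructor
  · intro h
    obtain ⟨m, rfl⟩ : ∃ m', m = m' + 1 := ⟨m - 1, by omega⟩
    obtain ⟨e1⟩ := t_QSW k k (2 * (m + 1)) (d + 1) f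
    have h6 := (clsT_gg hG).iso e1 (gg_fs_of_zer hP d hlow f hf h)
    exact t_EOR hP h2 d hlow (MvPolynomial (Fin (d + 1)) k)
      ((Asm.s_DLM k k 0 (d + 1) (dl_field k)).mono (by omega)) (ppf_poly hP.toPub (d + 1)) m
      (gen f) (EVS.gen_homog f hf) hd h6
  · intro h
    refine t_TZE k E T hT hP.toPub hP.sectionZero _ (d + 1) f ?_
    exact Asm.s_EVS k (fun A [CommRing A] [Algebra k A] [Algebra.FiniteType k A] => GG T (aff k A))
      d h2 (cls_gg hP d hlow) (ggEven hP h2) k m (d + 1) 0 f (Nat.zero_le d) le_rfl (dl_field k) hf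
      hd h

/-- The conjecture of Tate. -/
theorem tate_dis_iff (hP : Pub2 T hT) (h2 : (2 : k) ≠ 0) (d : ℕ)
    (hlow : ∀ X : Var k, X.DimLE d → Tate T X) (n m : ℕ) (hn : n = 2 * m) (hm : 1 ≤ m)
    (f : Fin (d + 1 + 1) → MvPolynomial (Fin n) k) (hf : ∀ j, (f j).IsHomogeneous 2)
    (hd : (gram (gen f)).det ≠ 0) : Tate T (zer f) ↔ Tate T (disV m f) := by
  rw [← gg_iff, ← gg_iff]
  exact gg_dis_iff hP h2 d ((tate_iff (T := T) _).mp hlow) n m hn hm f hf hd

lemma tate_one (hP : Pub2 T hT) (X : Var k) (h : X.DimLE (1 : ℕ)) : Tate T X :=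
  (gg_iff X).mp fun i => (ppf_of_dimLE_one hT hP.toPub X h i).1

/-- The discriminant double plane is a surface. -/
lemma dimLE_disV (m : ℕ) {n : ℕ} (f : Fin (1 + 1 + 1) → MvPolynomial (Fin n) k) :
    (disV m f).DimLE (2 : ℕ) := by
  apply dimLE_of_DL
  exact Asm.s_DLR.2.2.1 k _ _ 2 ((Asm.s_DLM k k 0 2 (dl_field k)).mono (by omega))

/-- Three quadratic forms in an even number of variables. -/
theorem ppf_three (hP : Pub2 T hT) (h2 : (2 : k) ≠ 0) (n m : ℕ) (hn : n = 2 * m)
    (f : Fin (1 + 1 + 1) → MvPolynomial (Fin n) k) (hf : ∀ j, (f j).IsHomogeneous 2)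
    (hd : (gram (gen f)).det ≠ 0) (h : Tate T (disV m f)) : PPF T (zer f) := by
  subst hn
  have key : PPF T (aff k (VR (MvPolynomial (Fin (2 * m)) k) f)) :=
    Asm.s_EVS k (fun A [CommRing A] [Algebra k A] [Algebra.FiniteType k A] => PPF T (aff k A)) 1 h2
      (cls_ppf hP 1 fun X hX => ppf_of_dimLE_one hT hP.toPub X hX) (ppfEven hP h2) k m (1 + 1) 0 f
      (Nat.zero_le 1) le_rfl (dl_field k) hf hd (ppf_surface hP _ (dimLE_disV m f) h)
  intro i
  exact (pi_iff hT.toExtra i _).mp (red3 hT hP.toPub hP.sectionZero i (1 + 1) f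
    (Ideal.Quotient.mkₐ k _) (Ideal.Quotient.mkₐ_surjective k _) Ideal.mk_ker
    ((pi_iff hT.toExtra _ _).mpr (key _)))

/-- Three quadratic forms in an even number of variables: the generalised conjecture of Beilinson. -/
theorem q1_dis_iff (hP : Pub2 T hT) (h2 : (2 : k) ≠ 0) (n m : ℕ) (hn : n = 2 * m) (hm : 1 ≤ m)
    (f : Fin (1 + 1 + 1) → MvPolynomial (Fin n) k) (hf : ∀ j, (f j).IsHomogeneous 2)
    (hd : (gram (gen f)).det ≠ 0) : (∀ i, Q1 (T i) (zer f)) ↔ Tate T (disV m f) := by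
  constructor
  · intro h
    exact (tate_dis_iff hP h2 1 (tate_one hP) n m hn hm f hf hd).mp fun i => ⟨(h i).2.1, (h i).2.2⟩
  · intro h i
    exact q1_of_pf (T i) _ (ppf_three hP h2 n m hn f hf hd h i)

end

section Proj

/-- Two closed subvarieties of the projective space with the same points, as closed subvarieties of one
variety. -/
lemma exists_ambient {R ι : Type} [CommRing R] [Algebra k R] [Algebra.FiniteType k R] {n : ℕ}
    (f : ι → MvPolynomial (Fin (n + 1)) R) {X Y : Var k} (SX : ProjSub f X) (SY : ProjSub f Y) :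
    ∃ (Q : Var k) (a : ClosedIn X Q) (b : ClosedIn Y Q), Set.range a.g = Set.range b.g := by
  obtain ⟨Q, -, -, ε, -, -, -, -, hε, -⟩ := t_UNI k R n
  have hX := SX.closed
  have hY := SY.closed
  refine ⟨Q, ⟨SX.g ≫ ε.inv, by
    rw [← hε, Category.assoc, Iso.inv_hom_id_assoc, SX.comm], inferInstance⟩,
    ⟨SY.g ≫ ε.inv, by
    rw [← hε, Category.assoc, Iso.inv_hom_id_assoc, SY.comm], inferInstance⟩, ?_⟩
  have key : ∀ {Z : Var k} (S : ProjSub f Z) (q : Q.X), q ∈ Set.range (S.g ≫ ε.inv) ↔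
      ∃ x : Z.X, S.g x = ε.hom q := by
    intro Z S q
    constructor
    · rintro ⟨x, rfl⟩
      refine ⟨x, ?_⟩
      rw [← Scheme.Hom.comp_apply, Category.assoc, Iso.inv_hom_id, Category.comp_id]
    · rintro ⟨x, hx⟩
      refine ⟨x, ?_⟩
      rw [Scheme.Hom.comp_apply, hx, ← Scheme.Hom.comp_apply, Iso.hom_inv_id]
      rfl
  ext q
  exact (key SX q).trans (((SX.range (ε.hom q)).trans (SY.range (ε.hom q)).symm).trans
    (key SY q).symm)

variable [Finite k] [CharZero E]

/-- The affine cone and the projective variety. -/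
lemma tate_proj_iff (hP : Pub2 T hT) {n q : ℕ} (f : Fin (q + 1) → MvPolynomial (Fin (n + 1)) k)
    (hf : ∀ j, (f j).IsHomogeneous 2) {X : Var k} (S : ProjSub f X) :
    Tate T X ↔ Tate T (zer f) := by
  rw [tate_zer_iff hP f hf]
  constructor
  · intro h Y SY
    obtain ⟨Q, a, b, hab⟩ := exists_ambient f S SY
    exact (gg_iff Y).mp (gg_same_range (ggc hP) a b hab ((gg_iff X).mpr h))
  · exact fun h => h X S

/-- The conjecture of Tate for the projective variety. -/
theorem tate_disP_iff (hP : Pub2 T hT) (h2 : (2 : k) ≠ 0) (d : ℕ)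
    (hlow : ∀ X : Var k, X.DimLE d → Tate T X) (n m : ℕ) (hn : n + 1 = 2 * m)
    (f : Fin (d + 1 + 1) → MvPolynomial (Fin (n + 1)) k) (hf : ∀ j, (f j).IsHomogeneous 2)
    (hd : (gram (gen f)).det ≠ 0) {X : Var k} (S : ProjSub f X) : Tate T X ↔ Tate T (disV m f) :=
  (tate_proj_iff hP f hf S).trans (tate_dis_iff hP h2 d hlow (n + 1) m hn (by omega) f hf hd)

/-- Three quadratic forms in an even number of variables, projective. -/
theorem q1_disP_iff (hP : Pub2 T hT) (h2 : (2 : k) ≠ 0) (n m : ℕ) (hn : n + 1 = 2 * m)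
    (f : Fin (1 + 1 + 1) → MvPolynomial (Fin (n + 1)) k) (hf : ∀ j, (f j).IsHomogeneous 2)
    (hd : (gram (gen f)).det ≠ 0) {X : Var k} (S : ProjSub f X) :
    (∀ i, Q1 (T i) X) ↔ Tate T (disV m f) := by
  constructor
  · intro h
    exact (tate_disP_iff hP h2 1 (tate_one hP) n m hn f hf hd S).mp fun i =>
      ⟨(h i).2.1, (h i).2.2⟩
  · intro h i
    exact q1_of_pf (T i) _ (ppf_of_cone hP (ppf_field hP.toPub) f (fun _ => 2) hf
      (fun _ => by norm_num) (ppf_three hP h2 (n + 1) m hn f hf hd h) S i)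

end Proj

end QCV


end

section

/-!
# QCV, block H: for every polynomial `g` a system of quadratic forms
-/

set_option autoImplicit false

open CategoryTheory AlgebraicGeometry Limits Polynomial TopologicalSpace

namespace QCV

open Pool.Agent.Lib_helper55.Beil Pool.Agent.Lib_helper66.OneP CUB

universe v

/-- The generic member of the system `f` of quadratic forms is, up to hyperbolic planes, the form
`g x_0 ^ 2`. -/
structure RepG {k : Type} [Field k] {q : ℕ} (g : MvPolynomial (Fin q) k) {N : ℕ}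
    (f : Fin (q + 1) → MvPolynomial (Fin N) k) : Prop where
  quad : ∀ j, (f j).IsHomogeneous 2
  det : (gram (gen f)).det ≠ 0
  odd : Odd N
  up : ∀ (P : ∀ (A : Type) [CommRing A] [Algebra k A] [Algebra.FiniteType k A], Prop), Cls0 k P →
    (∀ (A : Type) [CommRing A] [Algebra k A] [Algebra.FiniteType k A], P A → P A[X]) →
    (∀ m : ℕ, P (MvPolynomial (Fin m) (MvPolynomial (Fin q) k))) → P (MvPolynomial (Fin q) k) →
    P (MvPolynomial (Fin q) k ⧸ Ideal.span {g}) → P (ER (fun _ : Fin 1 => gen f))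
  down : ∀ (E : Type) [Finite k] [Field E] [CharZero E] (T : ∀ i : ℕ, Homology.{v} k E i)
    (hT : Full T), Pub2 T hT → GG T (aff k (ER (fun _ : Fin 1 => gen f))) →
    GG T (aff k (MvPolynomial (Fin q) k ⧸ Ideal.span {g}))

variable {k : Type} [Field k]

lemma exists_rep0 (h2 : (2 : k) ≠ 0) {q : ℕ} (g : MvPolynomial (Fin q) k) (hg : g ≠ 0) :
    ∃ (N : ℕ) (f : Fin (q + 1) → MvPolynomial (Fin N) k), RepG.{v} g f := by
  have h2B : (2 : MvPolynomial (Fin q) k) ≠ 0 := by
    intro h
    apply h2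
    have h3 : MvPolynomial.C (2 : k) = (0 : MvPolynomial (Fin q) k) := by
      rw [← h]
      exact map_ofNat _ 2
    exact MvPolynomial.C_eq_zero.mp h3
  obtain ⟨s, f, P, hf, hPu, heq⟩ := Asm.s_ULZ k q 1
    (MvPolynomial.C g * MvPolynomial.X 0 ^ 2)
    ((MvPolynomial.isHomogeneous_C_mul_X_pow g 0 2))
  have heq' : lsub P (hyp (MvPolynomial.C g * MvPolynomial.X 0 ^ 2 :
      MvPolynomial (Fin 1) (MvPolynomial (Fin q) k)) s) = gen f := heq
  have hdet : (gram (gen f)).det ≠ 0 := by
    have h3 : gram (gen f) = lgram (lsub P (hyp (MvPolynomial.C g * MvPolynomial.X 0 ^ 2 :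
        MvPolynomial (Fin 1) (MvPolynomial (Fin q) k)) s)) := by
      rw [heq]
      rfl
    have h4 := t_UGM _ (1 + 2 * s) (hyp (MvPolynomial.C g * MvPolynomial.X 0 ^ 2 :
        MvPolynomial (Fin 1) (MvPolynomial (Fin q) k)) s) P ?_
    · rw [h3, h4, Matrix.det_mul, Matrix.det_mul, Matrix.det_transpose]
      exact mul_ne_zero (mul_ne_zero hPu.ne_zero (t_UDT _ g s h2B hg)) hPu.ne_zero
    · refine MvPolynomial.IsHomogeneous.add ?_ ?_
      · exact (MvPolynomial.isHomogeneous_C_mul_X_pow g 0 2).rename_isHomogeneous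
      · refine MvPolynomial.IsHomogeneous.sum _ _ _ fun i _ => ?_
        exact (MvPolynomial.isHomogeneous_X _ _).mul (MvPolynomial.isHomogeneous_X _ _)
  obtain ⟨e2⟩ := t_USB k (MvPolynomial (Fin q) k) (1 + 2 * s)
    (hyp (MvPolynomial.C g * MvPolynomial.X 0 ^ 2) s) P hPu
  rw [heq'] at e2
  refine ⟨1 + 2 * s, f, hf, hdet, ⟨s, by ring⟩, ?_, ?_⟩
  · intro P' hP hline hB hB0 h
    refine hP.iso e2.symm ?_
    exact cls_hyp k P' hP hline (MvPolynomial (Fin q) k) 1 s _ hB
      (cls_sq k P' hP hline (MvPolynomial (Fin q) k) g hB0 h)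
  · intro E _ _ _ T hT hP h6
    have hG : GGC T := ggc hP
    have h7 := (clsT_gg hG).iso e2 h6
    have h8 := Asm.s_UHY k E T hT hP.toPub hP.sectionZero hG (MvPolynomial (Fin q) k) 1 s
      (MvPolynomial.C g * MvPolynomial.X 0 ^ 2) (ppf_poly hP.toPub (T := T) q) h7
    obtain ⟨u, hu⟩ := t_UGA k (MvPolynomial (Fin q) k) g
    have h9 := (clsT_gg hG).opn _ u hu h8
    exact t_TGM k E T hT hP.toPub hP.sectionZero _ h9

open BLK ZPT in
/-- Addition of the forms `z_0 z_1`, `z_0 ^ 2`, `0`, ..., `0`. -/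
lemma rep_z {q : ℕ} {g : MvPolynomial (Fin (q + 1)) k} {N : ℕ}
    {f : Fin (q + 1 + 1) → MvPolynomial (Fin N) k} (h : RepG.{v} g f) :
    RepG.{v} g (fun j => (osum (f j) (zf k q j) : MvPolynomial (Fin (N + 2)) k)) := by
  have hgen : gen (fun j => (osum (f j) (zf k q j) : MvPolynomial (Fin (N + 2)) k)) =
      osum (gen f) (zq (MvPolynomial.X 0)) := by
    rw [gen_osum, gen_zf]
  obtain ⟨e2⟩ := t_USB k (MvPolynomial (Fin (q + 1)) k) (N + 2 * 1) (hyp (gen f) 1)
    (tm N (MvPolynomial.X 0)) (tm_det N _)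
  have heq : lsub (tm N (MvPolynomial.X 0)) (hyp (gen f) 1) =
      gen (fun j => (osum (f j) (zf k q j) : MvPolynomial (Fin (N + 2)) k)) := by
    rw [hgen]
    exact lsub_tm (gen f) (MvPolynomial.X 0)
  rw [heq] at e2
  refine ⟨fun j => osum_homog (h.quad j) (zf_homog k q j), ?_, ?_, ?_, ?_⟩
  · rw [hgen, det_osum, det_zq]
    exact mul_ne_zero h.det (neg_ne_zero.mpr one_ne_zero)
  · obtain ⟨s, hs⟩ := h.odd
    exact ⟨s + 1, by omega⟩
  · intro P hP hline hB hB0 h3
    refine hP.iso e2.symm ?_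
    exact cls_hyp k P hP hline (MvPolynomial (Fin (q + 1)) k) N 1 (gen f) hB
      (h.up P hP hline hB hB0 h3)
  · intro E _ _ _ T hT hP h6
    have hG : GGC T := ggc hP
    have h7 := (clsT_gg hG).iso e2 h6
    exact h.down E T hT hP (Asm.s_UHY k E T hT hP.toPub hP.sectionZero hG
      (MvPolynomial (Fin (q + 1)) k) N 1 (gen f) (ppf_poly hP.toPub (T := T) (q + 1)) h7)

open BLK ZPT in
/-- For every polynomial `g ≠ 0` there is a system of quadratic forms, such that the rank at infinity is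
odd. -/
theorem exists_rep (h2 : (2 : k) ≠ 0) {q : ℕ} (g : MvPolynomial (Fin (q + 1)) k) (hg : g ≠ 0) :
    ∃ (N : ℕ) (f : Fin (q + 1 + 1) → MvPolynomial (Fin N) k), RepG.{v} g f ∧
      Odd ((gram (gen fun j : Fin (q + 1) => f j.succ)).map (algebraMap (MvPolynomial (Fin q) k)
        (FractionRing (MvPolynomial (Fin q) k)))).rank := by
  obtain ⟨N, f, hf⟩ := exists_rep0.{v} h2 g hg
  rcases Nat.even_or_odd ((gram (gen fun j : Fin (q + 1) => f j.succ)).map
    (algebraMap (MvPolynomial (Fin q) k) (FractionRing (MvPolynomial (Fin q) k)))).rank with h | h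
  · refine ⟨N + 2, _, rep_z hf, ?_⟩
    have h3 : gen (fun j : Fin (q + 1) =>
        (osum (f j.succ) (zf k q j.succ) : MvPolynomial (Fin (N + 2)) k)) =
        osum (gen fun j : Fin (q + 1) => f j.succ) (MvPolynomial.X 0 ^ 2) := by
      rw [gen_osum (fun j : Fin (q + 1) => f j.succ) (fun j : Fin (q + 1) => zf k q j.succ),
        gen_zf_tail]
    have h4 : (2 : FractionRing (MvPolynomial (Fin q) k)) ≠ 0 := by
      intro h5
      apply h2
      have h6 : algebraMap k (FractionRing (MvPolynomial (Fin q) k)) 2 = 0 := by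
        rw [map_ofNat]
        exact h5
      exact (map_eq_zero _).mp h6
    rw [h3, rank_osum, rank_sq _ h4]
    exact h.add_one
  · exact ⟨N, f, hf, h⟩

end QCV


end

section

/-!
# QCV, block H: each hypersurface `g = 0` and the zero set of a system of quadratic forms
-/

set_option autoImplicit false

open CategoryTheory AlgebraicGeometry Limits Polynomial TopologicalSpace

namespace QCV

open Pool.Agent.Lib_helper55.Beil Pool.Agent.Lib_helper66.OneP CUB

universe v

/-- From the generic member to the variety `y ^ 2 - y = t_0 f_0 + ... + t_q f_q`. -/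
lemma vr_of_gen {k : Type} [Field k]
    (P : ∀ (A : Type) [CommRing A] [Algebra k A] [Algebra.FiniteType k A], Prop) (d : ℕ)
    (h2 : (2 : k) ≠ 0) (hP : Cls k d P) (hE : OddCl k P) {N : ℕ}
    (f : Fin (d + 1 + 1 + 1) → MvPolynomial (Fin N) k) (hf : ∀ j, (f j).IsHomogeneous 2)
    (hodd : Odd ((gram (gen fun j : Fin (d + 1 + 1) => f j.succ)).map
      (algebraMap (MvPolynomial (Fin (d + 1)) k) (FractionRing (MvPolynomial (Fin (d + 1)) k)))).rank)
    (h : P (ER (fun _ : Fin 1 => gen f))) : P (VR (MvPolynomial (Fin N) k) f) := by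
  have hS' : P (MvPolynomial (Fin (d + 1 + 1)) (MvPolynomial (Fin N) k)) :=
    (Asm.s_PLY k P hP.toCls0 hP.line _ (d + 1 + 1)).1 ((Asm.s_PLY k P hP.toCls0 hP.line k N).1
      (hP.base k ((dl_field k).mono (Nat.zero_le d))))
  obtain ⟨e1⟩ := t_QSW k k N (d + 1 + 1) f
  have h3 := Asm.s_V1P k P hP.toCls0 hP.line (MvPolynomial (Fin (d + 1 + 1)) (MvPolynomial (Fin N) k))
    (fs f) hS' (hP.iso e1.symm h)
  have h4 := t_OVS2 k P d h2 hP hE k N (d + 1) 0 (fun j : Fin (d + 1 + 1) => f j.succ)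
    (Nat.zero_le d) le_rfl (dl_field k) (fun j => hf j.succ) hodd
  obtain ⟨z', u', hs⟩ := Asm.s_VRQ k (MvPolynomial (Fin N) k) (d + 1 + 1) f
  exact hP.glue _ z' u' hs h4 h3

variable {k : Type} [Field k] {E : Type} [Field E] [Finite k] [CharZero E]
variable {T : ∀ i : ℕ, Homology.{v} k E i} {hT : Full T}

/-- The generic member of a system of `d + 3` quadratic forms. -/
lemma gg_fs_of_zer2 (hP : Pub2 T hT) (d : ℕ) (hlow : ∀ X : Var k, X.DimLE d → GG T X) {n : ℕ}
    (f : Fin (d + 1 + 1 + 1) → MvPolynomial (Fin n) k) (hf : ∀ j, (f j).IsHomogeneous 2)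
    (h : GG T (zer f)) :
    GG T (aff k (MvPolynomial (Fin (d + 1 + 1)) (MvPolynomial (Fin n) k) ⧸ Ideal.span {fs f})) := by
  have hG : GGC T := ggc hP
  refine t_UST k (fun A [CommRing A] [Algebra k A] [Algebra.FiniteType k A] => GG T (aff k A))
    (clsT_gg hG) (d + 1 + 1) (MvPolynomial (Fin n) k) f ?_ h
  intro j hj
  have h6 : f '' {l : Fin (d + 1 + 1 + 1) | 1 ≤ l.1 ∧ l.1 ≤ j} =
      Set.range (fun l : Fin j => f ⟨l.1 + 1, by omega⟩) := by
    ext y
    constructor
    · rintro ⟨l, ⟨hl1, hl2⟩, rfl⟩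
      refine ⟨⟨l.1 - 1, by omega⟩, congrArg f (Fin.ext ?_)⟩
      change l.1 - 1 + 1 = l.1
      omega
    · rintro ⟨l, rfl⟩
      refine ⟨_, ⟨?_, ?_⟩, rfl⟩
      · change 1 ≤ l.1 + 1
        omega
      · change l.1 + 1 ≤ j
        have := l.2
        omega
  refine (clsT_gg hG).iso (Ideal.quotientEquivAlgOfEq k (congrArg Ideal.span h6.symm)) ?_
  rcases Nat.eq_zero_or_pos j with rfl | hj0
  · refine (clsT_gg hG).iso (A := MvPolynomial (Fin n) k) ?_
      (fun i => (ppf_poly hP.toPub (T := T) n i).1)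
    have h1 : Ideal.span (Set.range (fun l : Fin 0 =>
        f ⟨l.1 + 1, by have := l.2; omega⟩)) = ⊥ := by
      rw [Set.range_eq_empty, Ideal.span_empty]
    exact ((Ideal.quotientEquivAlgOfEq k h1).trans
      (AlgEquiv.quotientBot k (MvPolynomial (Fin n) k))).symm
  · refine gg_of_built hP d hlow _ ?_
    exact built_quadrics (e := 0) _ hj0 (by omega)
      (dimLE_of_DL (dl_field k)) (fun l => (hf _).totalDegree_le)

/-- The hypersurface `g = 0`. -/
noncomputable abbrev hyV {k : Type} [Field k] {q : ℕ} (g : MvPolynomial (Fin q) k) : Var k :=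
  aff k (MvPolynomial (Fin q) k ⧸ Ideal.span {g})

/-- Each hypersurface `g = 0` and its system of quadratic forms: the conjecture of Tate. -/
theorem gg_rep_iff (hP : Pub2 T hT) (h2 : (2 : k) ≠ 0) (d : ℕ)
    (hlow : ∀ X : Var k, X.DimLE d → GG T X) (g : MvPolynomial (Fin (d + 1 + 1)) k) {N : ℕ}
    (f : Fin (d + 1 + 1 + 1) → MvPolynomial (Fin N) k) (hr : RepG.{v} g f)
    (hodd : Odd ((gram (gen fun j : Fin (d + 1 + 1) => f j.succ)).map
      (algebraMap (MvPolynomial (Fin (d + 1)) k)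
        (FractionRing (MvPolynomial (Fin (d + 1)) k)))).rank) :
    GG T (hyV g) ↔ GG T (zer f) := by
  have hc := cls_gg hP d hlow
  constructor
  · intro h
    refine t_TZE k E T hT hP.toPub hP.sectionZero _ (d + 1 + 1) f ?_
    refine vr_of_gen (fun A [CommRing A] [Algebra k A] [Algebra.FiniteType k A] => GG T (aff k A)) d
      h2 hc (oddCl_gg hP) f hr.quad hodd ?_
    exact hr.up (fun A [CommRing A] [Algebra k A] [Algebra.FiniteType k A] => GG T (aff k A))
      hc.toCls0 hc.line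
      (fun m => (Asm.s_PLY k (fun A [CommRing A] [Algebra k A] [Algebra.FiniteType k A] =>
        GG T (aff k A)) hc.toCls0 hc.line _ m).1
          (fun i => (ppf_poly hP.toPub (T := T) (d + 1 + 1) i).1))
      (fun i => (ppf_poly hP.toPub (T := T) (d + 1 + 1) i).1) h
  · intro h
    obtain ⟨e1⟩ := t_QSW k k N (d + 1 + 1) f
    exact hr.down E T hT hP ((clsT_gg (ggc hP)).iso e1 (gg_fs_of_zer2 hP d hlow f hr.quad h))

/-- Each hypersurface `g = 0` and its system of quadratic forms: the strong form of the generalised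
conjecture of Beilinson. -/
theorem ppf_rep (hP : Pub2 T hT) (h2 : (2 : k) ≠ 0) (d : ℕ)
    (hlow : ∀ X : Var k, X.DimLE d → PPF T X) (g : MvPolynomial (Fin (d + 1 + 1)) k) {N : ℕ}
    (f : Fin (d + 1 + 1 + 1) → MvPolynomial (Fin N) k) (hr : RepG.{v} g f)
    (hodd : Odd ((gram (gen fun j : Fin (d + 1 + 1) => f j.succ)).map
      (algebraMap (MvPolynomial (Fin (d + 1)) k)
        (FractionRing (MvPolynomial (Fin (d + 1)) k)))).rank)
    (h : PPF T (hyV g)) : PPF T (zer f) := by
  have hc := cls_ppf hP d hlow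
  have key : PPF T (aff k (VR (MvPolynomial (Fin N) k) f)) := by
    refine vr_of_gen (fun A [CommRing A] [Algebra k A] [Algebra.FiniteType k A] => PPF T (aff k A)) d
      h2 hc (ppfOdd hP) f hr.quad hodd ?_
    exact hr.up (fun A [CommRing A] [Algebra k A] [Algebra.FiniteType k A] => PPF T (aff k A))
      hc.toCls0 hc.line
      (fun m => (Asm.s_PLY k (fun A [CommRing A] [Algebra k A] [Algebra.FiniteType k A] =>
        PPF T (aff k A)) hc.toCls0 hc.line _ m).1 (ppf_poly hP.toPub (T := T) (d + 1 + 1)))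
      (ppf_poly hP.toPub (T := T) (d + 1 + 1)) h
  intro i
  exact (pi_iff hT.toExtra i _).mp (red3 hT hP.toPub hP.sectionZero i (d + 1 + 1) f
    (Ideal.Quotient.mkₐ k _) (Ideal.Quotient.mkₐ_surjective k _) Ideal.mk_ker
    ((pi_iff hT.toExtra _ _).mpr (key _)))

end QCV


end

section

/-!
# QCV, block H: each integral variety and the zero set of a system of quadratic forms
-/

set_option autoImplicit false

open CategoryTheory AlgebraicGeometry Limits Polynomial TopologicalSpace

namespace QCV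

open Pool.Agent.Lib_helper55.Beil Pool.Agent.Lib_helper66.OneP CUB

universe v

/-- A nonempty open subvariety of an integral variety of dimension at most `d + 1`. -/
lemma gg_open_iff {k : Type} [Field k] {E : Type} [Field E] {T : ∀ i : ℕ, Homology.{v} k E i}
    (hG : GGC T) {d : ℕ} (hlow : ∀ X : Var k, X.DimLE d → GG T X) {X U : Var k}
    (hX : IsIntegral X.X) (hd : X.DimLE (d + 1 : ℕ)) (j : OpenIn U X) (hU : Nonempty U.X) :
    GG T X ↔ GG T U := by
  obtain ⟨Z, a, hc, hZ⟩ := exists_compl hX hd j hU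
  exact ⟨hG.opn j, fun h => hG.glue a j hc (hlow Z hZ) h⟩

lemma nonempty_away {k A : Type} [Field k] [CommRing A] [IsDomain A] [Algebra k A]
    [Algebra.FiniteType k A] {a : A} (ha : a ≠ 0) : Nonempty (aff k (Localization.Away a)).X := by
  have : IsDomain (Localization.Away a) :=
    IsLocalization.isDomain_localization (powers_le_nonZeroDivisors_of_noZeroDivisors ha)
  exact ⟨genericPoint _⟩

lemma isIntegral_aff {k A : Type} [Field k] [CommRing A] [IsDomain A] [Algebra k A]
    [Algebra.FiniteType k A] : IsIntegral (aff k A).X := by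
  change IsIntegral (Spec (CommRingCat.of A))
  infer_instance

section

variable {k : Type} [Field k]

lemma dimLE_hyV {d : ℕ} {g : MvPolynomial (Fin (d + 1 + 1)) k} (hg : g ≠ 0) :
    (hyV g).DimLE (d + 1 : ℕ) := by
  apply dimLE_of_DL
  have h1 : DL k (MvPolynomial (Fin (d + 1 + 1)) k) (d + 1 + 1) :=
    (Asm.s_DLM k k 0 (d + 1 + 1) (dl_field k)).mono (by omega)
  exact Asm.s_DLR.2.2.2.2 k _ (d + 1) g hg h1

variable [Finite k]

lemma gg_hyV_zero {E : Type} [Field E] [CharZero E] {T : ∀ i : ℕ, Homology.{v} k E i}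
    {hT : Full T} (hP : Pub2 T hT) (q : ℕ) : GG T (hyV (0 : MvPolynomial (Fin q) k)) := by
  refine (clsT_gg (ggc hP)).iso (A := MvPolynomial (Fin q) k) ?_
    (fun i => (ppf_poly hP.toPub (T := T) q i).1)
  have h1 : Ideal.span {(0 : MvPolynomial (Fin q) k)} = ⊥ := by simp
  exact ((Ideal.quotientEquivAlgOfEq k h1).trans
    (AlgEquiv.quotientBot k (MvPolynomial (Fin q) k))).symm

lemma gg_hyV_one {E : Type} [Field E] [CharZero E] {T : ∀ i : ℕ, Homology.{v} k E i}
    {hT : Full T} (hP : Pub2 T hT) (q : ℕ) : GG T (hyV (1 : MvPolynomial (Fin q) k)) := by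
  refine (clsT_gg (ggc hP)).triv _ ?_
  rw [Ideal.span_singleton_one]
  exact Ideal.Quotient.subsingleton_iff.mpr rfl

/-- Each integral variety of dimension at most `d + 1` and a hypersurface. -/
theorem exists_hyp {d : ℕ} (X : Var k) (hX : IsIntegral X.X) (hd : X.DimLE (d + 1 : ℕ)) :
    ∃ g : MvPolynomial (Fin (d + 1 + 1)) k, g ≠ 0 ∧
      ∀ (E : Type) [Field E] [CharZero E] (T : ∀ i : ℕ, Homology.{v} k E i) (hT : Full T),
        Pub2 T hT → (∀ Y : Var k, Y.DimLE d → GG T Y) → (GG T X ↔ GG T (hyV g)) := by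
  obtain ⟨A, i1, i2, i3, i4, j, hj⟩ := t_UAF k X
  have hgd : Algebra.trdeg k A ≤ ((d + 1 : ℕ) : Cardinal) := by
    rw [← dim_generic_aff, hj]
    exact hd _
  obtain ⟨r, hr2, hr⟩ := Cardinal.exists_nat_eq_of_le_nat hgd
  rcases Nat.lt_or_ge d r with h1 | h1
  · obtain rfl : r = d + 1 := by omega
    obtain ⟨g, a, h, hdom, hh, ha, ⟨e⟩⟩ := t_UHB k A (d + 1) hr
    have hnA : Nonempty (aff k A).X := ⟨genericPoint _⟩
    have hdA : (aff k A).DimLE (d + 1 : ℕ) := dimLE_open j hd
    by_cases hg : g = 0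
    · refine ⟨1, one_ne_zero, ?_⟩
      intro E _ _ T hT hP hlow
      have hG : GGC T := ggc hP
      have h2 : GG T X := by
        rw [gg_open_iff hG hlow hX hd j hnA,
          gg_open_iff hG hlow isIntegral_aff hdA (opn (awayHom k a) (isOpenImmersion_away a))
            (nonempty_away ha)]
        have h3 : GG T (hyV g) := by
          subst hg
          exact gg_hyV_zero hP _
        exact hG.iso (viso e.symm) (hG.opn (opn (awayHom k h) (isOpenImmersion_away h)) h3)
      exact ⟨fun _ => gg_hyV_one hP _, fun _ => h2⟩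
    · refine ⟨g, hg, ?_⟩
      intro E _ _ T hT hP hlow
      have hG : GGC T := ggc hP
      rw [gg_open_iff hG hlow hX hd j hnA,
        gg_open_iff hG hlow isIntegral_aff hdA (opn (awayHom k a) (isOpenImmersion_away a))
          (nonempty_away ha),
        gg_open_iff hG hlow (isIntegral_aff (k := k)
          (A := MvPolynomial (Fin (d + 1 + 1)) k ⧸ Ideal.span {g})) (dimLE_hyV hg)
          (opn (awayHom k h) (isOpenImmersion_away h)) (nonempty_away hh)]
      exact ⟨hG.iso (viso e), hG.iso (viso e.symm)⟩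
  · refine ⟨1, one_ne_zero, ?_⟩
    intro E _ _ T hT hP hlow
    refine ⟨fun _ => gg_hyV_one hP _, fun _ => hlow _ fun x => ?_⟩
    refine (dim_le_of_specializes X (genericPoint_specializes x)).trans ?_
    rw [← hj, dim_generic_aff, hr]
    exact_mod_cast h1

/-- Each integral variety `X` of dimension at most `d + 1` and the zero set of `d + 3` quadratic forms
in an odd number of variables. -/
theorem each (h2 : (2 : k) ≠ 0) {d : ℕ} (X : Var k) (hX : IsIntegral X.X)
    (hd : X.DimLE (d + 1 : ℕ)) :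
    ∃ (n : ℕ) (f : Fin (d + 1 + 1 + 1) → MvPolynomial (Fin (n + 1)) k), Odd (n + 1) ∧
      (∀ j, (f j).IsHomogeneous 2) ∧ (gram (gen f)).det ≠ 0 ∧
      ∀ (E : Type) [Field E] [CharZero E] (T : ∀ i : ℕ, Homology.{v} k E i) (hT : Full T),
        Pub2 T hT → ((∀ Y : Var k, Y.DimLE d → Tate T Y) →
          (Tate T X ↔ Tate T (zer f)) ∧ ∀ (Y : Var k) (_ : ProjSub f Y), Tate T X ↔ Tate T Y) ∧
        (d ≤ 1 → (Tate T X ↔ ∀ i, Q1 (T i) (zer f)) ∧
          ∀ (Y : Var k) (_ : ProjSub f Y), Tate T X ↔ ∀ i, Q1 (T i) Y) := by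
  obtain ⟨g, hg, hgX⟩ := exists_hyp.{v} X hX hd
  obtain ⟨N, f, hr, hodd⟩ := exists_rep.{v} h2 g hg
  obtain ⟨n, rfl⟩ : ∃ n, N = n + 1 := by
    obtain ⟨s, hs⟩ := hr.odd
    exact ⟨2 * s, hs⟩
  refine ⟨n, f, hr.odd, hr.quad, hr.det, ?_⟩
  intro E _ _ T hT hP
  have key : (∀ Y : Var k, Y.DimLE d → Tate T Y) →
      (Tate T X ↔ Tate T (zer f)) ∧ ∀ (Y : Var k) (_ : ProjSub f Y), Tate T X ↔ Tate T Y := by
    intro hlow
    have hlow' : ∀ Y : Var k, Y.DimLE d → GG T Y := (tate_iff (T := T) _).mp hlow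
    have h3 : Tate T X ↔ Tate T (zer f) := by
      rw [← gg_iff, ← gg_iff, hgX E T hT hP hlow']
      exact gg_rep_iff hP h2 d hlow' g f hr hodd
    exact ⟨h3, fun Y S => h3.trans (tate_proj_iff hP f hr.quad S).symm⟩
  refine ⟨key, fun hd1 => ?_⟩
  have hlow : ∀ Y : Var k, Y.DimLE d → Tate T Y := fun Y hY =>
    tate_one hP Y fun y => (hY y).trans (by exact_mod_cast hd1)
  have hlowP : ∀ Y : Var k, Y.DimLE d → PPF T Y := fun Y hY =>
    ppf_of_dimLE_one hT hP.toPub Y fun y => (hY y).trans (by exact_mod_cast hd1)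
  obtain ⟨h3, h4⟩ := key hlow
  have h5 : Tate T X → PPF T (zer f) := by
    intro h
    have hlow' : ∀ Y : Var k, Y.DimLE d → GG T Y := (tate_iff (T := T) _).mp hlow
    have h6 : Tate T (hyV g) := (gg_iff _).mp ((hgX E T hT hP hlow').mp ((gg_iff _).mpr h))
    refine ppf_rep hP h2 d hlowP g f hr hodd (ppf_surface hP _ ?_ h6)
    exact fun y => (dimLE_hyV hg y).trans (by exact_mod_cast Nat.succ_le_succ hd1)
  refine ⟨⟨fun h i => q1_of_pf (T i) _ (h5 h i), fun h => h3.mpr fun i => ⟨(h i).2.1, (h i).2.2⟩⟩,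
    fun Y S => ⟨fun h i => q1_of_pf (T i) _ (ppf_of_cone hP (ppf_field hP.toPub) f (fun _ => 2)
      hr.quad (fun _ => by norm_num) (h5 h) S i),
      fun h => (h4 Y S).mpr fun i => ⟨(h i).2.1, (h i).2.2⟩⟩⟩

end

end QCV


end

section

/-!
# QCV, block H: each integral variety and a cubic hypersurface
-/

set_option autoImplicit false

open CategoryTheory AlgebraicGeometry Limits Polynomial TopologicalSpace

namespace QCV

open Pool.Agent.Lib_helper55.Beil Pool.Agent.Lib_helper66.OneP CUB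

universe v

/-- Permutation of the variables `t_j`. -/
lemma lin_perm_iso (k S : Type) [Field k] [CommRing S] [Algebra k S] {m : ℕ} (f : Fin m → S)
    (σ : Equiv.Perm (Fin m)) :
    Nonempty ((MvPolynomial (Fin m) S ⧸ Ideal.span {lin (fun j => f (σ j))}) ≃ₐ[k]
      (MvPolynomial (Fin m) S ⧸ Ideal.span {lin f})) := by
  let e : MvPolynomial (Fin m) S ≃ₐ[k] MvPolynomial (Fin m) S :=
    (MvPolynomial.renameEquiv S σ).restrictScalars k
  have he : e (lin (fun j => f (σ j))) = lin f := by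
    change MvPolynomial.rename σ (∑ j, MvPolynomial.X j * MvPolynomial.C (f (σ j))) =
      ∑ j, MvPolynomial.X j * MvPolynomial.C (f j)
    rw [map_sum]
    simp only [map_mul, MvPolynomial.rename_X, MvPolynomial.rename_C]
    exact Equiv.sum_comp σ (fun j => MvPolynomial.X j * MvPolynomial.C (f j))
  refine ⟨Ideal.quotientEquivAlg _ _ e ?_⟩
  rw [Ideal.map_span, Set.image_singleton]
  exact congrArg (fun x => Ideal.span {x}) he.symm

/-- The affine cone over the cubic hypersurface `t_0 f_0(x) + ... + t_q f_q(x) = 0`. -/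
theorem cls_ccone (k : Type) [Field k]
    (P : ∀ (A : Type) [CommRing A] [Algebra k A] [Algebra.FiniteType k A], Prop) (hP : Cls0 k P)
    (hline : ∀ (A : Type) [CommRing A] [Algebra k A] [Algebra.FiniteType k A], P A → P A[X])
    {N q : ℕ} (f : Fin (q + 1) → MvPolynomial (Fin N) k)
    (hsub : ∀ (j : ℕ) (hj : j ≤ q), P (MvPolynomial (Fin N) k ⧸
      Ideal.span (Set.range fun l : Fin j => f ⟨l.1 + 1, by have := l.2; omega⟩)))
    (hall : P (MvPolynomial (Fin N) k ⧸ Ideal.span (Set.range f))) :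
    P (MvPolynomial (Fin (N + q + 1)) k ⧸ Ideal.span (Set.range fun _ : Fin 1 => cubf f)) := by
  obtain ⟨e⟩ := t_CBF k N q f
  obtain ⟨e'⟩ := lin_perm_iso k (MvPolynomial (Fin N) k) f (finRotate (q + 1))
  refine hP.iso e.symm (hP.iso e' ?_)
  let f' : Fin (q + 1) → MvPolynomial (Fin N) k := fun j => f (finRotate (q + 1) j)
  have hr : Set.range f' = Set.range f := by
    ext y
    constructor
    · rintro ⟨j, rfl⟩
      exact ⟨_, rfl⟩
    · rintro ⟨j, rfl⟩
      exact ⟨(finRotate (q + 1)).symm j, congrArg f (Equiv.apply_symm_apply _ _)⟩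
  have h0 : Ideal.span (Set.range (Fin.cons 0 f' : Fin (q + 1 + 1) → MvPolynomial (Fin N) k)) =
      Ideal.span (Set.range f) := by
    rw [← hr]
    apply le_antisymm
    · rw [Ideal.span_le]
      rintro _ ⟨j, rfl⟩
      refine Fin.cases ?_ (fun j => ?_) j
      · rw [Fin.cons_zero]
        exact Ideal.zero_mem _
      · rw [Fin.cons_succ]
        exact Ideal.subset_span ⟨j, rfl⟩
    · rw [Ideal.span_le]
      rintro _ ⟨j, rfl⟩
      exact Ideal.subset_span ⟨j.succ, by rw [Fin.cons_succ]⟩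
  change P (MvPolynomial (Fin (q + 1)) (MvPolynomial (Fin N) k) ⧸ Ideal.span {lin f'})
  rw [← fs_cons f']
  refine t_UST2 k P hP hline (q + 1) (MvPolynomial (Fin N) k) (Fin.cons 0 f') ?_
    (hP.iso (Ideal.quotientEquivAlgOfEq k h0.symm) hall)
  intro j hj
  rcases Nat.lt_or_ge q j with hq | hq
  · obtain rfl : j = q + 1 := by omega
    have h6 : (Fin.cons 0 f' : Fin (q + 1 + 1) → MvPolynomial (Fin N) k) ''
        {l : Fin (q + 1 + 1) | 1 ≤ l.1 ∧ l.1 ≤ q + 1} = Set.range f := by
      rw [← hr]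
      ext y
      constructor
      · rintro ⟨l, ⟨hl1, -⟩, rfl⟩
        obtain ⟨l', rfl⟩ : ∃ l' : Fin (q + 1), l = l'.succ := by
          refine ⟨l.pred ?_, (Fin.succ_pred _ _).symm⟩
          rintro rfl
          simp at hl1
        rw [Fin.cons_succ]
        exact ⟨l', rfl⟩
      · rintro ⟨l, rfl⟩
        refine ⟨l.succ, ⟨?_, ?_⟩, by rw [Fin.cons_succ]⟩
        · simp only [Fin.val_succ]
          omega
        · simp only [Fin.val_succ]
          have := l.2
          omega
    exact hP.iso (Ideal.quotientEquivAlgOfEq k (congrArg Ideal.span h6.symm)) hall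
  · have h6 : (Fin.cons 0 f' : Fin (q + 1 + 1) → MvPolynomial (Fin N) k) ''
        {l : Fin (q + 1 + 1) | 1 ≤ l.1 ∧ l.1 ≤ j} =
        Set.range (fun l : Fin j => f ⟨l.1 + 1, by have := l.2; omega⟩) := by
      have h7 : ∀ l : Fin j, f' ⟨l.1, by have := l.2; omega⟩ =
          f ⟨l.1 + 1, by have := l.2; omega⟩ := by
        intro l
        have h8 : l.1 < q := by
          have := l.2
          omega
        exact congrArg f (finRotate_of_lt h8)
      ext y
      constructor
      · rintro ⟨l, ⟨hl1, hl2⟩, rfl⟩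
        obtain ⟨l', rfl⟩ : ∃ l' : Fin (q + 1), l = l'.succ := by
          refine ⟨l.pred ?_, (Fin.succ_pred _ _).symm⟩
          rintro rfl
          simp at hl1
        rw [Fin.cons_succ]
        simp only [Fin.val_succ] at hl2
        exact ⟨⟨l'.1, by omega⟩, (h7 ⟨l'.1, by omega⟩).symm⟩
      · rintro ⟨l, rfl⟩
        refine ⟨Fin.succ ⟨l.1, by have := l.2; omega⟩, ⟨?_, ?_⟩, ?_⟩
        · simp only [Fin.val_succ]
          omega
        · simp only [Fin.val_succ]
          have := l.2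
          omega
        · rw [Fin.cons_succ]
          exact h7 l
    exact hP.iso (Ideal.quotientEquivAlgOfEq k (congrArg Ideal.span h6.symm)) (hsub j hq)

end QCV


end

section

/-!
# QCV, block H: each integral variety, four quadratic forms and a cubic hypersurface
-/

set_option autoImplicit false

open CategoryTheory AlgebraicGeometry Limits Polynomial TopologicalSpace

namespace QCV

open Pool.Agent.Lib_helper55.Beil Pool.Agent.Lib_helper66.OneP CUB

universe v

section

variable {k : Type} [Field k]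

/-- The zero set of the tail belongs to the class. -/
lemma member_tail (h2 : (2 : k) ≠ 0) (d : ℕ) {N : ℕ}
    (f : Fin (d + 1 + 1 + 1) → MvPolynomial (Fin N) k) (hf : ∀ j, (f j).IsHomogeneous 2)
    (hodd : Odd ((gram (gen fun j : Fin (d + 1 + 1) => f j.succ)).map
      (algebraMap (MvPolynomial (Fin (d + 1)) k)
        (FractionRing (MvPolynomial (Fin (d + 1)) k)))).rank) :
    Member k d (zer fun j : Fin (d + 1 + 1) => f j.succ) :=
  Member.zeros (MvPolynomial (Fin N) k) (d + 1) (fun j : Fin (d + 1 + 1) => f j.succ)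
    (t_OVS2 k (fun A [CommRing A] [Algebra k A] [Algebra.FiniteType k A] => Member k d (aff k A)) d
      h2 (cls_member k d) (fun A _ _ _ m a ha h => Member.odd A m a ha h) k N (d + 1) 0 _
      (Nat.zero_le d) le_rfl (dl_field k) (fun j => hf j.succ) hodd)

/-- The zero sets of the forms `f_1, ..., f_j` belong to the class. -/
lemma member_sub (h2 : (2 : k) ≠ 0) (d : ℕ) {N : ℕ}
    (f : Fin (d + 1 + 1 + 1) → MvPolynomial (Fin N) k) (hf : ∀ j, (f j).IsHomogeneous 2)
    (hodd : Odd ((gram (gen fun j : Fin (d + 1 + 1) => f j.succ)).map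
      (algebraMap (MvPolynomial (Fin (d + 1)) k)
        (FractionRing (MvPolynomial (Fin (d + 1)) k)))).rank) (j : ℕ) (hj : j ≤ d + 1 + 1) :
    Member k d (aff k (MvPolynomial (Fin N) k ⧸
      Ideal.span (Set.range fun l : Fin j => f ⟨l.1 + 1, by have := l.2; omega⟩))) := by
  rcases Nat.eq_zero_or_pos j with rfl | hj0
  · refine (cls_member k d).iso (A := MvPolynomial (Fin N) k) ?_ (member_poly k N d)
    have h1 : Ideal.span (Set.range (fun l : Fin 0 =>
        f ⟨l.1 + 1, by have := l.2; omega⟩)) = ⊥ := by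
      rw [Set.range_eq_empty, Ideal.span_empty]
    exact ((Ideal.quotientEquivAlgOfEq k h1).trans
      (AlgEquiv.quotientBot k (MvPolynomial (Fin N) k))).symm
  · rcases Nat.lt_or_ge j (d + 2) with hj2 | hj2
    · exact member_of_built (built_quadrics (e := 0) _ hj0 (by omega)
        (dimLE_of_DL (dl_field k)) (fun l => (hf _).totalDegree_le))
    · obtain rfl : j = d + 1 + 1 := by omega
      exact member_tail h2 d f hf hodd

end

variable {k : Type} [Field k] {E : Type} [Field E] [Finite k] [CharZero E]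
variable {T : ∀ i : ℕ, Homology.{v} k E i} {hT : Full T}

/-- The affine and the projective zero set of homogeneous polynomials. -/
lemma tate_proj_iff2 (hP : Pub2 T hT) {ι : Type} {n : ℕ} (f : ι → MvPolynomial (Fin (n + 1)) k)
    (m : ι → ℕ) (hf : ∀ j, (f j).IsHomogeneous (m j)) (hm : ∀ j, 1 ≤ m j) {X : Var k}
    (S : ProjSub f X) :
    Tate T X ↔ Tate T (aff k (MvPolynomial (Fin (n + 1)) k ⧸ Ideal.span (Set.range f))) := by
  rw [tate_cone_iff hP f m hf hm (tate_field hP)]
  constructor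
  · intro h Y SY
    obtain ⟨Q, a, b, hab⟩ := exists_ambient f S SY
    exact (gg_iff Y).mp (gg_same_range (ggc hP) a b hab ((gg_iff X).mpr h))
  · exact fun h => h X S

/-- The cubic hypersurface: the conjecture of Tate. -/
theorem gg_ccone_iff (hP : Pub2 T hT) (h2 : (2 : k) ≠ 0) (d : ℕ)
    (hlow : ∀ X : Var k, X.DimLE d → GG T X) (g : MvPolynomial (Fin (d + 1 + 1)) k) {N : ℕ}
    (f : Fin (d + 1 + 1 + 1) → MvPolynomial (Fin N) k) (hr : RepG.{v} g f)
    (hodd : Odd ((gram (gen fun j : Fin (d + 1 + 1) => f j.succ)).map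
      (algebraMap (MvPolynomial (Fin (d + 1)) k)
        (FractionRing (MvPolynomial (Fin (d + 1)) k)))).rank) :
    GG T (hyV g) ↔ GG T (ccone f) := by
  have hc := cls_gg hP d hlow
  constructor
  · intro h
    exact cls_ccone k (fun A [CommRing A] [Algebra k A] [Algebra.FiniteType k A] => GG T (aff k A))
      hc.toCls0 hc.line f
      (fun j hj => gg_of_member (ggEven hP) hP d hlow _ (member_sub h2 d f hr.quad hodd j hj))
      ((gg_rep_iff hP h2 d hlow g f hr hodd).mp h)
  · intro h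
    obtain ⟨e1⟩ := t_QSW k k N (d + 1 + 1) f
    exact hr.down E T hT hP ((clsT_gg (ggc hP)).iso e1 (gg_fs_of_ccone hP f h))

/-- The cubic hypersurface: the strong form of the generalised conjecture of Beilinson. -/
theorem ppf_ccone (hP : Pub2 T hT) (h2 : (2 : k) ≠ 0) (d : ℕ)
    (hlow : ∀ X : Var k, X.DimLE d → PPF T X) (g : MvPolynomial (Fin (d + 1 + 1)) k) {N : ℕ}
    (f : Fin (d + 1 + 1 + 1) → MvPolynomial (Fin N) k) (hr : RepG.{v} g f)
    (hodd : Odd ((gram (gen fun j : Fin (d + 1 + 1) => f j.succ)).map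
      (algebraMap (MvPolynomial (Fin (d + 1)) k)
        (FractionRing (MvPolynomial (Fin (d + 1)) k)))).rank)
    (h : PPF T (hyV g)) : PPF T (ccone f) := by
  have hc := cls_ppf hP d hlow
  exact cls_ccone k (fun A [CommRing A] [Algebra k A] [Algebra.FiniteType k A] => PPF T (aff k A))
    hc.toCls0 hc.line f
    (fun j hj => ppf_of_member hT hP.toPub hP.sectionZero (pfEt hP) (ppfOdd hP) (ppfEven hP)
      (ppfBun hP) d (fun X hX => (pp_iff hT.toExtra _).mpr (hlow X hX)) _
      (member_sub h2 d f hr.quad hodd j hj))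
    (ppf_rep hP h2 d hlow g f hr hodd h)

/-- The conjectures for `X` and for `Y` are equivalent: of Tate; the conjecture of Tate for `X` and the
generalised conjecture of Beilinson for `Y`. -/
def EqT {k E : Type} [Field k] [Field E] (T : ∀ i : ℕ, Homology.{v} k E i) (X Y : Var k) : Prop :=
  Tate T X ↔ Tate T Y

/-- See `EqT`. -/
def EqQ {k E : Type} [Field k] [Field E] (T : ∀ i : ℕ, Homology.{v} k E i) (X Y : Var k) : Prop :=
  Tate T X ↔ ∀ i, Q1 (T i) Y

/-- The property `R` holds for the affine and projective zero sets of the system `f` and for the cubic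
hypersurface of the system `f`. -/
def Three (R : Var k → Prop) {n q : ℕ} (f : Fin (q + 1) → MvPolynomial (Fin (n + 1)) k) : Prop :=
  R (zer f) ∧ (∀ (Y : Var k) (_ : ProjSub f Y), R Y) ∧ R (ccone f) ∧
    ∀ (Y : Var k) (_ : ProjSub (n := n + 1 + q) (fun _ : Fin 1 => cubf f) Y), R Y

/-- Each integral variety `X` of dimension at most `d + 1` and the zero set of `d + 3` quadratic forms
in an odd number of variables, and a cubic hypersurface. -/
theorem each3 (h2 : (2 : k) ≠ 0) {d : ℕ} (X : Var k) (hX : IsIntegral X.X)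
    (hd : X.DimLE (d + 1 : ℕ)) :
    ∃ (n : ℕ) (f : Fin (d + 1 + 1 + 1) → MvPolynomial (Fin (n + 1)) k), Odd (n + 1) ∧
      (∀ j, (f j).IsHomogeneous 2) ∧ (gram (gen f)).det ≠ 0 ∧
      ∀ (E : Type) [Field E] [CharZero E] (T : ∀ i : ℕ, Homology.{v} k E i) (hT : Full T),
        Pub2 T hT → ((∀ Y : Var k, Y.DimLE d → Tate T Y) → Three (EqT T X) f) ∧
        (d ≤ 1 → Three (EqQ T X) f) := by
  obtain ⟨g, hg, hgX⟩ := exists_hyp.{v} X hX hd
  obtain ⟨N, f, hr, hodd⟩ := exists_rep.{v} h2 g hg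
  obtain ⟨n, rfl⟩ : ∃ n, N = n + 1 := by
    obtain ⟨s, hs⟩ := hr.odd
    exact ⟨2 * s, hs⟩
  refine ⟨n, f, hr.odd, hr.quad, hr.det, ?_⟩
  intro E _ _ T hT hP
  have key : (∀ Y : Var k, Y.DimLE d → Tate T Y) → Three (EqT T X) f := by
    intro hlow
    have hlow' : ∀ Y : Var k, Y.DimLE d → GG T Y := (tate_iff (T := T) _).mp hlow
    have h3 : Tate T X ↔ Tate T (zer f) := by
      rw [← gg_iff, ← gg_iff, hgX E T hT hP hlow']
      exact gg_rep_iff hP h2 d hlow' g f hr hodd
    have h4 : Tate T X ↔ Tate T (ccone f) := by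
      rw [← gg_iff, ← gg_iff, hgX E T hT hP hlow']
      exact gg_ccone_iff hP h2 d hlow' g f hr hodd
    exact ⟨h3, fun Y S => h3.trans (tate_proj_iff hP f hr.quad S).symm, h4, fun Y S => h4.trans
      (tate_proj_iff2 hP (fun _ : Fin 1 => cubf f) (fun _ => 3) (fun _ => cubf_homogeneous f hr.quad)
        (fun _ => by norm_num) S).symm⟩
  refine ⟨key, fun hd1 => ?_⟩
  have hlow : ∀ Y : Var k, Y.DimLE d → Tate T Y := fun Y hY =>
    tate_one hP Y fun y => (hY y).trans (by exact_mod_cast hd1)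
  have hlowP : ∀ Y : Var k, Y.DimLE d → PPF T Y := fun Y hY =>
    ppf_of_dimLE_one hT hP.toPub Y fun y => (hY y).trans (by exact_mod_cast hd1)
  obtain ⟨h3, h4, h5, h6⟩ := key hlow
  have h7 : Tate T X → PPF T (hyV g) := by
    intro h
    have hlow' : ∀ Y : Var k, Y.DimLE d → GG T Y := (tate_iff (T := T) _).mp hlow
    have h8 : Tate T (hyV g) := (gg_iff _).mp ((hgX E T hT hP hlow').mp ((gg_iff _).mpr h))
    refine ppf_surface hP _ ?_ h8
    exact fun y => (dimLE_hyV hg y).trans (by exact_mod_cast Nat.succ_le_succ hd1)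
  have h8 : Tate T X → PPF T (zer f) := fun h => ppf_rep hP h2 d hlowP g f hr hodd (h7 h)
  have h9 : Tate T X → PPF T (ccone f) := fun h => ppf_ccone hP h2 d hlowP g f hr hodd (h7 h)
  have hq : ∀ {Y : Var k}, (∀ i, Q1 (T i) Y) → Tate T Y := fun h i => ⟨(h i).2.1, (h i).2.2⟩
  have hp : ∀ {Y : Var k}, PPF T Y → ∀ i, Q1 (T i) Y := fun h i => q1_of_pf (T i) _ (h i)
  refine ⟨⟨fun h => hp (h8 h), fun h => h3.mpr (hq h)⟩,
    fun Y S => ⟨fun h => hp (ppf_of_cone hP (ppf_field hP.toPub) f (fun _ => 2)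
      hr.quad (fun _ => by norm_num) (h8 h) S), fun h => (h4 Y S).mpr (hq h)⟩,
    ⟨fun h => hp (h9 h), fun h => h5.mpr (hq h)⟩,
    fun Y S => ⟨fun h => hp (ppf_of_cone hP (ppf_field hP.toPub) (fun _ : Fin 1 => cubf f)
      (fun _ => 3) (fun _ => cubf_homogeneous f hr.quad) (fun _ => by norm_num) (h9 h) S),
      fun h => (h6 Y S).mpr (hq h)⟩⟩

end QCV


end

section

/-!
# UQ: comparison of the language of the final statement with the one of the proofs, geometry
-/

set_option autoImplicit false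

open CategoryTheory AlgebraicGeometry Polynomial

namespace UQ

open Pool.Agent.Lib_helper55.Beil (Var ClosedIn OpenIn Complementary)
open CUB (PrMor VIso)

variable {k : Type} [Field k]

/-! ## Morphisms -/

/-- A closed immersion. -/
def toCl {Z X : Var k} (a : Mo Z X) (h : a.Cl) : ClosedIn Z X := ⟨a.g, a.comm, h⟩

/-- An open immersion. -/
def toOp {U X : Var k} (j : Mo U X) (h : j.Op) : OpenIn U X := ⟨j.g, j.comm, h⟩

/-- A proper morphism. -/
def toPr {X Y : Var k} (f : Mo X Y) (h : f.Pr) : PrMor X Y := ⟨f.g, f.comm, h⟩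

/-- A finite etale covering. -/
def toEt {V U : Var k} (f : Mo V U) (h : f.Et) : Pool.Agent.Lib_helper66.OneP.FinEt V U :=
  ⟨f.g, f.comm, h.1, h.2.1, h.2.2⟩

/-- A closed immersion. -/
def ofCl {Z X : Var k} (a : ClosedIn Z X) : Mo Z X := ⟨a.g, a.comm⟩

/-- An open immersion. -/
def ofOp {U X : Var k} (j : OpenIn U X) : Mo U X := ⟨j.g, j.comm⟩

/-- A proper morphism. -/
def ofPr {X Y : Var k} (f : PrMor X Y) : Mo X Y := ⟨f.g, f.comm⟩

/-- A finite etale covering. -/
def ofEt {V U : Var k} (f : Pool.Agent.Lib_helper66.OneP.FinEt V U) : Mo V U := ⟨f.g, f.comm⟩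

/-- A product with the affine line. -/
def ofLine {Y X : Var k} (L : CUB.Line Y X) : Mo Y X := ⟨L.q, L.comm⟩

/-- A line bundle. -/
def ofBun {Y X : Var k} (B : QCV.Bun Y X) : Mo Y X := ⟨B.q, B.comm⟩

/-- An isomorphism. -/
def ofIso {X Y : Var k} (s : VIso X Y) : Mo X Y := ⟨s.e.hom, s.comm⟩

lemma cl_ofCl {Z X : Var k} (a : ClosedIn Z X) : (ofCl a).Cl := a.closed

lemma op_ofOp {U X : Var k} (j : OpenIn U X) : (ofOp j).Op := j.isOpen

lemma pr_ofPr {X Y : Var k} (f : PrMor X Y) : (ofPr f).Pr := f.proper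

lemma et_ofEt {V U : Var k} (f : Pool.Agent.Lib_helper66.OneP.FinEt V U) : (ofEt f).Et :=
  ⟨f.fin, f.etale, f.surj⟩

lemma pr_of_cl {Z X : Var k} {a : Mo Z X} (h : a.Cl) : a.Pr := by
  have h' : IsClosedImmersion a.g := h
  exact (inferInstance : IsProper a.g)

lemma pr_of_et {Z X : Var k} {a : Mo Z X} (h : a.Et) : a.Pr := by
  have h' : IsFinite a.g := h.1
  exact (inferInstance : IsProper a.g)

lemma line_ofLine {Y X : Var k} (L : CUB.Line Y X) : (ofLine L).Line := ⟨L.t, L.prod⟩

lemma line_exists {Y X : Var k} (q : Mo Y X) (h : q.Line) : ∃ L : CUB.Line Y X, L.q = q.g := by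
  obtain ⟨t, ht⟩ := h
  exact ⟨⟨q.g, t, q.comm, ht⟩, rfl⟩

lemma bun_ofBun {Y X : Var k} (B : QCV.Bun Y X) : (ofBun B).Bun := by
  intro x
  obtain ⟨W, V, L, l, j, h1, h2⟩ := B.loc x
  exact ⟨W, V, ofLine L, ofOp l, ofOp j, line_ofLine L, op_ofOp l, op_ofOp j, h1, h2⟩

lemma bun_exists {Y X : Var k} (q : Mo Y X) (h : q.Bun) : ∃ B : QCV.Bun Y X, B.q = q.g := by
  refine ⟨⟨q.g, q.comm, fun x => ?_⟩, rfl⟩
  obtain ⟨W, V, L, l, j, h1, h2, h3, h4, h5⟩ := h x
  obtain ⟨L', hL'⟩ := line_exists L h1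
  refine ⟨W, V, L', toOp l h2, toOp j h3, ?_, h5⟩
  rw [hL']
  exact h4

lemma bun_of_line {Y X : Var k} {q : Mo Y X} (h : q.Line) : q.Bun := by
  intro x
  refine ⟨Y, X, q, ⟨𝟙 Y.X, Category.id_comp _⟩, ⟨𝟙 X.X, Category.id_comp _⟩, h, ?_, ?_, ?_, x, rfl⟩
  · exact (inferInstance : IsOpenImmersion (𝟙 Y.X))
  · exact (inferInstance : IsOpenImmersion (𝟙 X.X))
  · exact IsPullback.of_vert_isIso ⟨by change q.g ≫ 𝟙 _ = 𝟙 _ ≫ q.g; simp⟩

lemma comp_of {Z U X : Var k} {a : ClosedIn Z X} {j : OpenIn U X} (h : Complementary a j) :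
    Comp (ofCl a) (ofOp j) := by
  refine ⟨a.closed, j.isOpen, fun x => ?_⟩
  have h1 : x ∈ Set.range a.g ↔ x ∈ (Set.range j.g)ᶜ := by rw [h]
  exact h1

lemma comp_to {Z U X : Var k} {a : Mo Z X} {j : Mo U X} (h : Comp a j) :
    Complementary (toCl a h.1) (toOp j h.2.1) := by
  ext x
  exact h.2.2 x

lemma sp_smoothProper {Y : Var k} {d : ℕ} : SP Y d ↔ Y.SmoothProper d := Iff.rfl

lemma dimLE_iff {X : Var k} {n : ℕ} : DimLE X n ↔ X.DimLE n := Iff.rfl

/-! ## The class -/

lemma dpoly_eq {A : Type} [CommRing A] (b c : A) : QCV.dpoly b c = dp b c := rfl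

lemma cone_eq {A : Type} [CommRing A] [Algebra k A] [Algebra.FiniteType k A] {n : ℕ}
    (a : Fin n → A) :
    cone k A a = CUB.aff k (MvPolynomial (Fin n) A ⧸ Ideal.span {QCV.dia a}) := by
  have h : Set.range (fun _ : Fin 1 => QCV.dia a) = {QCV.dia a} := Set.range_const
  exact congrArg (fun S : Set (MvPolynomial (Fin n) A) =>
    CUB.aff k (MvPolynomial (Fin n) A ⧸ Ideal.span S)) h

lemma adj_iso {A : Type} [CommRing A] [Algebra k A] {p q : A[X]} (h : p = q) :
    Nonempty (AdjoinRoot p ≃ₐ[k] AdjoinRoot q) := by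
  subst h
  exact ⟨AlgEquiv.refl⟩

lemma as_eq {A : Type} [CommRing A] {m : ℕ} (f : Fin m → A) :
    CUB.asPoly (CUB.lin f) = dp (-1) (-∑ j, MvPolynomial.X j * MvPolynomial.C (f j)) := by
  unfold CUB.asPoly dp
  rw [map_neg, map_neg, map_one]
  change X ^ 2 - X - C (∑ j, MvPolynomial.X j * MvPolynomial.C (f j)) = _
  ring

lemma sas_iso {A : Type} [CommRing A] [Algebra k A] [Algebra.FiniteType k A] {m : ℕ}
    (f : Fin m → A) : Nonempty (VIso (CUB.aff k (CUB.VR A f)) (sas k A f)) := by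
  obtain ⟨e⟩ := adj_iso (k := k) (as_eq f)
  exact ⟨@CUB.viso k _ _ _ _ _ _ _ (ft_dp k _ _) _ e.symm⟩

/-- The members in the language of the proofs are members. -/
theorem member_of {d : ℕ} {X : Var k} (h : QCV.Member k d X) : Member k d X := by
  induction h with
  | small X hX => exact .small X hX
  | @iso X Y s _ ih => exact .iso (ofIso s) (inferInstance : IsIso s.e.hom) ih
  | nil a hs _ ih => exact .nil (ofCl a) a.closed hs ih
  | paste a j hc _ _ ihZ ihU => exact .paste (ofCl a) (ofOp j) (comp_of hc) ihZ ihU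
  | cut a j hc _ _ ihX ihZ => exact .cut (ofCl a) (ofOp j) (comp_of hc) ihX ihZ
  | line A _ ih => exact .line A ih
  | unline L _ ih => exact .unline (ofLine L) (line_ofLine L) ih
  | cover A b c _ ih => exact .cover A b c ih
  | etale f hint _ ih => exact .etale (ofEt f) (et_ofEt f) hint ih
  | bundle B s j hs hc _ ih => exact .bundle (ofBun B) (ofCl s) (ofOp j) (bun_ofBun B) hs (comp_of hc) ih
  | odd A m a ha _ ih =>
    rw [← cone_eq]
    exact .odd A m a ha ih
  | even A m a h2 ha _ ih =>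
    rw [← cone_eq]
    exact .even A m a h2 ha ih
  | zeros A m f _ ih =>
    obtain ⟨s⟩ := sas_iso (k := k) f
    exact .zeros A m f (.iso (ofIso s) (inferInstance : IsIso s.e.hom) ih)

lemma viso_of {X Y : Var k} (f : Mo X Y) (h : IsIso f.g) : Nonempty (VIso X Y) :=
  ⟨⟨asIso f.g, f.comm⟩⟩

/-- The members are members in the language of the proofs. -/
theorem member_to {d : ℕ} {X : Var k} (h : Member k d X) : QCV.Member k d X := by
  induction h with
  | small X hX => exact .small X hX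
  | iso f hf _ ih =>
    obtain ⟨s⟩ := viso_of f hf
    exact .iso s ih
  | nil a ha hs _ ih => exact .nil (toCl a ha) hs ih
  | paste a j hc _ _ ihZ ihU => exact .paste (toCl a hc.1) (toOp j hc.2.1) (comp_to hc) ihZ ihU
  | cut a j hc _ _ ihX ihZ => exact .cut (toCl a hc.1) (toOp j hc.2.1) (comp_to hc) ihX ihZ
  | line A _ ih => exact .line A ih
  | unline q hq _ ih =>
    obtain ⟨L, -⟩ := line_exists q hq
    exact .unline L ih
  | cover A b c _ ih => exact .cover A b c ih
  | etale f hf hint _ ih => exact .etale (toEt f hf) hint ih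
  | bundle q s j hq hs hc _ ih =>
    obtain ⟨B, hB⟩ := bun_exists q hq
    refine .bundle B (toCl s hc.1) (toOp j hc.2.1) ?_ (comp_to hc) ih
    rw [hB]
    exact hs
  | odd A m a ha _ ih =>
    rw [cone_eq]
    exact .odd A m a ha ih
  | even A m a h2 ha _ ih =>
    rw [cone_eq]
    exact .even A m a h2 ha ih
  | zeros A m f _ ih =>
    obtain ⟨s⟩ := sas_iso (k := k) f
    exact .zeros A m f (.iso ⟨s.e.symm, by rw [← s.comm]; exact s.e.inv_hom_id_assoc _⟩ ih)

theorem member_iff {d : ℕ} {X : Var k} : Member k d X ↔ QCV.Member k d X :=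
  ⟨member_to, member_of⟩

/-! ## Projective varieties -/

lemma psub_iff {R : Type} [CommRing R] [Algebra k R] {n : ℕ} {ι : Type}
    (f : ι → MvPolynomial (Fin (n + 1)) R) (X : Var k) :
    PSub k f X ↔ Nonempty (QCV.ProjSub f X) := by
  constructor
  · rintro ⟨g, h1, h2, h3⟩
    exact ⟨⟨g, h1, h2, h3⟩⟩
  · rintro ⟨⟨g, h1, h2, h3⟩⟩
    exact ⟨g, h1, h2, h3⟩

end UQ

namespace UQ

open Pool.Agent.Lib_helper55.Beil (Var ClosedIn OpenIn Complementary)
open CUB (PrMor VIso)

variable {k : Type} [Field k]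

lemma both_of {d : ℕ} {A : Type} [CommRing A] [Algebra k A] [Algebra.FiniteType k A] {n : ℕ}
    {ι : Type} (f : ι → MvPolynomial (Fin (n + 1)) A)
    (h1 : QCV.Member k d (CUB.aff k (MvPolynomial (Fin (n + 1)) A ⧸ Ideal.span (Set.range f))))
    (h2 : ∀ X : Var k, Nonempty (QCV.ProjSub f X) → QCV.Member k d X) : Both k d A f :=
  ⟨member_of h1, fun X hX => member_of (h2 X ((psub_iff f X).mp hX))⟩

lemma num_to {d r e : ℕ} {A : Type} [CommRing A] [Algebra k A] [Algebra.FiniteType k A]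
    (h : Num k d A r e) : e ≤ d ∧ r + e ≤ d + 1 ∧ (CUB.aff k A).DimLE e := h

/-- The members of the class. -/
theorem members (k : Type) [Field k] (d : ℕ) : Members k d where
  equations A _ _ _ n r s e f hN h1 h2 :=
    member_of (QCV.equations k d A n r s e f hN.1 hN.2.1 hN.2.2 h1 h2)
  forms A _ _ _ n r s e a f m ha hr hA hf hm h1 h2 X hX :=
    member_of (QCV.forms k d A n r s e a f m ha hr hA hf hm h1 h2 X ((psub_iff f X).mp hX))
  uniruled A _ _ _ X hint hX h := by
    obtain ⟨U, V, j, p, o, h1, h2, h3, h4, h5, h6⟩ := h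
    have hX' : X.DimLE (d + 1 : ℕ) := hX
    have hU : QCV.SepUniruled d X := by
      let j' : OpenIn U X := toOp j h1
      let p' : Pool.Agent.Lib_helper66.OneP.FinEt V U := toEt p h2
      let o' : OpenIn V (CUB.aff k A[X]) := toOp o h3
      exact ⟨U, V, A, inferInstance, inferInstance, inferInstance, j', p', o', h4, h5, h6⟩
    exact member_of (QCV.uniruled k d X hint hX' hU)
  oddForms h2 A _ _ _ n q e f hN hf ho :=
    both_of f (QCV.oddForms k h2 d A (n + 1) q e f hN.1 hN.2.1 hN.2.2 hf ho)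
      (QCV.oddFormsProj k h2 d A n q e f hN.1 hN.2.1 hN.2.2 hf ho)
  evenForms h2 A _ _ _ n m q e f hA hn hN hf hd hM := by
    have hM' := member_to hM
    exact both_of f (QCV.evenForms h2 d A (n + 1) m q e f hn hN.1 hN.2.1 hN.2.2 hf hd hM')
      (QCV.evenFormsProj h2 d A n m q e f hn hN.1 hN.2.1 hN.2.2 hf hd hM')
  oddBase h2 A _ _ _ n f hA hdA hM hf ho := by
    have h := QCV.oddBase k h2 d A hdA (member_to hM)
    exact both_of _ (h.1 (n + 1) f hf ho) (h.2 n f hf ho)
  evenBase h2 A _ _ _ n m f hA hdA hn hf hd hM := by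
    have h := QCV.evenBase h2 d A hdA
    exact both_of _ (h.1 (n + 1) m f hn hf hd (member_to hM)) (h.2 n m f hn hf hd (member_to hM))
  cubicsA _ h2 hd n f hn hf := member_of ((QCV.cubics k h2 hd).1 n f hn hf)
  cubicsP _ h2 hd n f hn hf X hX :=
    member_of ((QCV.cubics k h2 hd).2 n f hn hf X ((psub_iff _ X).mp hX))

end UQ


end

section

/-!
# UQ: comparison of the language of the final statement with the one of the proofs, homology
-/

set_option autoImplicit false

open CategoryTheory AlgebraicGeometry Polynomial Limits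

namespace UQ

open Pool.Agent.Lib_helper55.Beil (Var ClosedIn OpenIn Complementary Homology Maps)
open CUB (PrMor VIso)

universe v

variable {k : Type} [Field k] {E : Type} [Field E]

lemma mo_ext {X Y : Var k} {f g : Mo X Y} (h : f.g = g.g) : f = g := by
  cases f
  cases g
  cases h
  rfl

/-! ## Cycles -/

lemma rat_eq (i : ℕ) (X : Var k) : rat E i X = Pool.Agent.Lib_helper55.Beil.ratZero E i X := by
  unfold rat Pool.Agent.Lib_helper55.Beil.ratZero
  apply congrArg (Submodule.span E)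
  ext c
  constructor
  · rintro ⟨W, hW, a, φ, h1, h2, h3, h4⟩
    exact ⟨W, hW, toCl a h1, φ, h2, h3, h4⟩
  · rintro ⟨W, hW, a, φ, h2, h3, h4⟩
    exact ⟨W, hW, ofCl a, φ, a.closed, h2, h3, h4⟩

lemma pfc_eq {i : ℕ} {V U : Var k} (f : PrMor V U) (x : Ps i U) (z : Ps i V →₀ E) (D : ℕ)
    (h1 : ∀ w, z w ≠ 0 → im (ofPr f) w.1 = x.1)
    (h2 : z.sum (fun w e => e * (deg (ofPr f) w.1 : E)) = D) :
    CUB.pfc E i f z = Finsupp.single x (D : E) := by
  have h3 : CUB.pfc E i f z = z.sum fun w e => e • CUB.pfPt E i f w :=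
    Finsupp.linearCombination_apply E z
  rw [h3, ← h2, Finsupp.sum, Finsupp.sum]
  rw [Finsupp.single_finsetSum]
  apply Finset.sum_congr rfl
  intro w hw
  have h4 : im (ofPr f) w.1 = x.1 := h1 w (Finsupp.mem_support_iff.mp hw)
  have h5 : U.dim (f.g w.1) = i := by
    have h6 : U.dim (im (ofPr f) w.1) = i := by
      rw [h4]
      exact x.2
    exact h6
  have h7 : CUB.pfPt E i f w = Finsupp.single (⟨f.g w.1, h5⟩ : Pool.Agent.Lib_helper55.Beil.Pts i U)
      (f.deg w.1 : E) := dif_pos h5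
  have h8 : (⟨f.g w.1, h5⟩ : Pool.Agent.Lib_helper55.Beil.Pts i U) = x := Subtype.ext h4
  have h9 : z w • Finsupp.single x (f.deg w.1 : E) = Finsupp.single x (z w * (f.deg w.1 : E)) :=
    Finsupp.smul_single _ _ _
  rw [h7, h8]
  exact h9

/-! ## The theory -/

/-- The maps. -/
noncomputable def toMaps (T : Th.{v} k E) (i : ℕ) : Maps.{v} k E where
  H n X := T.H i n X
  grp := inferInstance
  mod := inferInstance
  fin n X := T.fin i n X
  frob n X := T.fr i n X
  push n _ _ a := T.pf i n (ofCl a)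
  res n _ _ j := T.pb i n (ofOp j)

variable {T : Th.{v} k E}

/-- The homology theory. -/
noncomputable def toHom (hT : T.Pub) (i : ℕ) : Homology.{v} k E i where
  toMaps := toMaps T i
  equivariant := ⟨fun n _ _ a m => hT.frob.push i n (ofCl a) (pr_of_cl a.closed) m,
    fun n _ _ j m => hT.frob.res i n (ofOp j) (Or.inl j.isOpen) m⟩
  localisation := fun n _ _ _ a j h =>
    ⟨fun m => hT.loc.atX i n (ofCl a) (ofOp j) (comp_of h) m,
      T.bd i n (ofCl a) (ofOp j), fun z => hT.loc.atZ i n (ofCl a) (ofOp j) (comp_of h) z⟩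
  vanishing := ⟨fun n X h => hT.van.empty i n X h,
    fun n X hX d h1 h2 => hT.van.large i n d X ⟨hX, h1⟩ h2⟩
  artin := by
    intro n X hint haff hsm h
    obtain ⟨d, hd⟩ := CUB.t_DST.2.1 k X (genericPoint X.X)
    rw [hd] at h
    exact hT.van.artin i n d X ⟨hint, hd⟩ haff hsm (by exact_mod_cast h)
  cl := fun X x => T.cl i X x
  functorial := ⟨fun _ _ a z h => hT.cyc.closed i (ofCl a) a.closed z h,
    fun _ _ j u h => hT.cyc.res i (ofOp j) j.isOpen u h⟩
  invariant := ⟨fun X x => hT.frob.cls i X x,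
    fun X c hc => hT.cyc.rat i X c (by rw [rat_eq]; exact hc)⟩
  fundamental := by
    intro X hint h m hm
    obtain ⟨e, he⟩ := hT.cyc.fund i X hint h m hm
    have h1 : e • T.cl i X ⟨gp X hint, h⟩ ∈ Submodule.span E {T.cl i X ⟨gp X hint, h⟩} :=
      Submodule.smul_mem _ e (Submodule.subset_span rfl)
    rw [he] at h1
    exact h1


variable (hT : T.Pub)

/-- The further maps. -/
noncomputable def toExtra : CUB.ExtraMaps (toHom hT) where
  bd i n _ _ _ a j _ := T.bd i n (ofCl a) (ofOp j)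
  line i n _ _ L := T.lb i n (ofLine L)

/-- The push-forward along proper morphisms. -/
noncomputable def toProper : CUB.ProperMaps (toHom hT) where
  pf i n _ _ f := T.pf i n (ofPr f)

/-- All properties of the push-forward and of the pull-back along lines. -/
noncomputable def full : CUB.Full (toHom hT) where
  toExtraMaps := toExtra hT
  toProperMaps := toProper hT
  pushFunctorial := ⟨fun i n X a h m => hT.push.one i n (ofCl a) h m,
    fun i n W Z X a b c h m =>
      hT.push.comp i n (ofCl a) (ofCl b) (ofCl c) (pr_of_cl a.closed) (pr_of_cl b.closed) h m⟩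
  isClopen := by
    intro i n Z X a j h m
    have h1 : ofOp j = ofCl a := mo_ext h.symm
    have h2 := hT.push.clopen i n (ofCl a) a.closed (by rw [← h1]; exact j.isOpen) m
    have h3 : T.R (ofOp j) (T.P (ofCl a) m) = m := by
      rw [h1]
      exact h2
    exact h3
  bdExact := fun i n _ _ _ a j h z => hT.loc.atZ i n (ofCl a) (ofOp j) (comp_of h) z
  bdNatural := by
    intro i n Z U X Z' U' X' a j h a' j' h' sZ sU sX h1 h2 u
    exact hT.push.boundary i n (ofCl a) (ofOp j) (ofCl a') (ofOp j') (ofCl sZ.cl) (ofCl sU.cl)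
      (ofCl sX.cl) (comp_of h) (comp_of h') (pr_of_cl sZ.cl.closed) (pr_of_cl sU.cl.closed)
      (pr_of_cl sX.cl.closed) h1.symm h2.symm u
  lineBij := fun i n _ _ q => hT.bundles.bij i n (ofLine q) (bun_of_line (line_ofLine q))
  lineFrob := fun i n _ _ q m => hT.frob.bun i n (ofLine q) (bun_of_line (line_ofLine q)) m
  lineNatural := by
    intro i n Y X Y' X' q q' sY sX h m
    have h1 : IsPullback q.q sY.e.hom sX.e.hom q'.q :=
      IsPullback.of_vert_isIso ⟨h.symm⟩
    exact (hT.bundles.push i n (ofLine q') (ofLine q) (ofCl sY.cl) (ofCl sX.cl)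
      (bun_of_line (line_ofLine q')) (pr_of_cl sX.cl.closed) h1 m).symm
  lineClass := fun i _ _ q x y h => hT.cyc.bun i (ofLine q) (bun_of_line (line_ofLine q)) x y h
  pfClosed := by
    intro i n Z X a f h m
    have h1 : ofPr f = ofCl a := mo_ext h
    have h2 : T.P (ofPr f) m = T.P (ofCl a) m := by rw [h1]
    exact h2
  pfFunctorial := fun i n _ _ _ f g h e m =>
    hT.push.comp i n (ofPr f) (ofPr g) (ofPr h) f.proper g.proper e m
  pfRestriction := fun i n _ _ _ _ f f' j' j e m =>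
    hT.push.base i n (ofOp j') (ofPr f') (ofPr f) (ofOp j) f.proper j.isOpen e m
  pfBoundary := fun i n _ _ _ _ _ _ a' j' h' a j h fZ fU fX h1 h2 u =>
    hT.push.boundary i n (ofCl a') (ofOp j') (ofCl a) (ofOp j) (ofPr fZ) (ofPr fU) (ofPr fX)
      (comp_of h') (comp_of h) fZ.proper fU.proper fX.proper h1 h2 u
  pfFrobenius := fun i n _ _ f m => hT.frob.push i n (ofPr f) f.proper m
  pfClasses := fun i _ _ f x => hT.cyc.push i (ofPr f) f.proper x

/-! ## The conjectures -/

lemma inj_iff (i : ℕ) (X : Var k) : T.Inj i X ↔ (toHom hT i).Inj X := by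
  have hmk : ∀ c : Pool.Agent.Lib_helper55.Beil.Pts i X →₀ E,
      (toHom hT i).clMap X (Submodule.Quotient.mk c) = T.C c := fun c => rfl
  constructor
  · intro h a b hab
    obtain ⟨a, rfl⟩ := Submodule.Quotient.mk_surjective _ a
    obtain ⟨b, rfl⟩ := Submodule.Quotient.mk_surjective _ b
    rw [hmk, hmk] at hab
    rw [Submodule.Quotient.eq]
    have h1 : T.C (a - b) = 0 := by
      have h2 : T.C (a - b) = T.C a - T.C b := map_sub (Finsupp.linearCombination E (T.cl i X)) a b
      rw [h2, hab, sub_self]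
    have h3 := h (a - b) h1
    rw [rat_eq] at h3
    exact h3
  · intro h c hc
    rw [rat_eq]
    have h1 : (toHom hT i).clMap X (Submodule.Quotient.mk c) = (toHom hT i).clMap X 0 := by
      exact (hmk c).trans (hc.trans (map_zero ((toHom hT i).clMap X)).symm)
    exact (Submodule.Quotient.mk_eq_zero _).mp (h h1)

lemma surj_iff (i : ℕ) (X : Var k) : T.Surj i X ↔ (toHom hT i).Surj X := by
  constructor
  · intro h m hm
    obtain ⟨c, hc⟩ := h m hm
    exact ⟨Submodule.Quotient.mk c, hc⟩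
  · intro h m hm
    obtain ⟨a, ha⟩ := h m hm
    obtain ⟨a, rfl⟩ := Submodule.Quotient.mk_surjective _ a
    exact ⟨a, ha⟩

lemma semi_iff (i : ℕ) (X : Var k) : T.Semi i X ↔ (toHom hT i).Semisimple X := Iff.rfl

lemma q1_iff (X : Var k) : T.Q1 X ↔ ∀ i, QCV.Q1 (toHom hT i) X :=
  forall_congr' fun i => and_congr (inj_iff hT i X) (and_congr (surj_iff hT i X) (semi_iff hT i X))

lemma tate_iff (X : Var k) : T.Tate X ↔ QCV.Tate (toHom hT) X :=
  forall_congr' fun i => and_congr (surj_iff hT i X) (semi_iff hT i X)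

/-! ## The further published properties -/

lemma ofPr_dbl {A : Type} [CommRing A] [Algebra k A] [Algebra.FiniteType k A] (b c : A) :
    ofPr (QCV.dbl b c k) = dm k A b c := rfl

lemma inv_dinv {A : Type} [CommRing A] [Algebra k A] [Algebra.FiniteType k A] (b c : A) :
    Inv k A b c (ofCl (QCV.autc (QCV.dinv b c k))) :=
  ⟨QCV.dinvHom b c, QCV.dinvHom_of b c, QCV.dinvHom_rt b c, rfl⟩

theorem pub2 : QCV.Pub2 (toHom hT) (full hT) where
  weights := fun i n h Z m hm => hT.van.weights i n Z h m hm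
  bdFrob := fun i n _ _ _ a j h u => hT.frob.boundary i n (ofCl a) (ofOp j) (comp_of h) u
  resExact := fun i n _ _ _ a j h u => hT.loc.atU i n (ofCl a) (ofOp j) (comp_of h) u
  lineRes := fun i n _ _ _ _ L L' l j h m =>
    hT.bundles.res i n (ofLine L) (ofLine L') (ofOp l) (ofOp j) (bun_of_line (line_ofLine L))
      (bun_of_line (line_ofLine L')) l.isOpen j.isOpen h m
  divisors := fun i X h => (inj_iff hT i X).mp (hT.cyc.divisors i X h)
  sectionZero := fun i n _ _ L s h m => hT.bundles.zero i n (ofLine L) (ofCl s) (line_ofLine L)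
    s.closed h m
  dbl := by
    refine ⟨⟨fun i n A _ _ _ b c => T.pb i n (dm k A b c)⟩, ?_, ?_, ?_, ?_⟩
    · intro i n A _ _ _ b c m
      exact hT.frob.dbl i n A b c m
    · intro i n A _ _ _ b c m
      exact (hT.cov.dbl A b c).1 i n m
    · intro i A _ _ _ b c x
      obtain ⟨z, h1, h2, h3⟩ := (hT.cov.dbl A b c).2 i x
      exact ⟨z, h1, pfc_eq (QCV.dbl b c k) x z 2 h2 h3⟩
    · intro i n A _ _ _ b c m
      exact hT.cov.inv i n A b c _ (inv_dinv b c) m
  etale := by
    refine ⟨⟨fun i n _ _ f => T.pb i n (ofEt f)⟩, ?_, ?_⟩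
    · intro i n V U f m
      exact hT.frob.res i n (ofEt f) (Or.inr (et_ofEt f)) m
    · intro V U f hU
      obtain ⟨D, hD, h1, h2⟩ := hT.cov.etale (ofEt f) (et_ofEt f) hU
      refine ⟨D, hD, fun i n m => h1 i n m, fun i x => ?_⟩
      obtain ⟨z, h3, h4, h5⟩ := h2 i x
      exact ⟨z, h3, pfc_eq (QCV.etPr f) x z D h4 h5⟩
  bundles := by
    refine ⟨⟨fun i n _ _ B => T.lb i n (ofBun B)⟩, ?_, ?_, ?_, ?_, ?_, ?_⟩
    · intro i n Y X B m
      exact hT.frob.bun i n (ofBun B) (bun_ofBun B) m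
    · intro i n Y X B
      exact hT.bundles.bij i n (ofBun B) (bun_ofBun B)
    · intro i n Y X B L h m
      have h1 : ofBun B = ofLine L := mo_ext h
      have h2 : T.V (ofBun B) m = T.V (ofLine L) m := by rw [h1]
      exact h2
    · intro i n Y X Y' X' B B' l j h m
      exact hT.bundles.res i n (ofBun B) (ofBun B') (ofOp l) (ofOp j) (bun_ofBun B) (bun_ofBun B')
        l.isOpen j.isOpen h.w.symm m
    · intro i n Y X Y' X' B B' r s h m
      exact hT.bundles.push i n (ofBun B) (ofBun B') (ofPr r) (ofPr s) (bun_ofBun B) s.proper h m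
    · intro i n Z U X Z' U' X' a j h a' j' h' BZ BU B h1 h2 u
      exact hT.bundles.boundary i n (ofCl a) (ofOp j) (ofCl a') (ofOp j') (ofBun BZ) (ofBun BU)
        (ofBun B) (comp_of h) (comp_of h') (bun_ofBun B) h1 h2 u

end UQ


end

section

/-!
# UQ: the main results
-/

set_option autoImplicit false

open CategoryTheory AlgebraicGeometry Polynomial

namespace UQ

open Pool.Agent.Lib_helper55.Beil (Var)

universe v

variable {k : Type} [Field k] {E : Type} [Field E] {T : Th.{v} k E}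

lemma alterations_to (h : Alterations k) : Pool.Agent.Lib_helper66.OneP.Alterations k := by
  intro U hU d hd
  obtain ⟨U', V, Y, a, p, b, h1, h2, h3, h4, h5⟩ := h U d ⟨hU, hd⟩
  exact ⟨U', V, Y, toOp a h1, toEt p h2, toOp b h3, h4, h5⟩

lemma oddS_iff (P : Var k → Prop) (q : ℕ) : OddS P q ↔ QCV.OddSystems P q := Iff.rfl

lemma evenS_iff (P : Var k → Prop) (q : ℕ) : EvenS P q ↔ QCV.EvenSystems P q := Iff.rfl

lemma dblS_iff (P : Var k → Prop) (m : ℕ) : DblS P m ↔ QCV.DoubleCovers P m := Iff.rfl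

lemma tate_eq (hT : T.Pub) : T.Tate = QCV.Tate (toHom hT) := by
  funext X
  exact propext (tate_iff hT X)

lemma q1_eq (hT : T.Pub) : T.Q1 = fun X : Var k => ∀ i, QCV.Q1 (toHom hT i) X := by
  funext X
  exact propext (q1_iff hT X)

lemma allS_iff (P : Var k → Prop) (q : ℕ) : AllS P q ↔ QCV.AllSystems P q := Iff.rfl

lemma proj_iff {R : Type} [CommRing R] [Algebra k R] {n : ℕ} {ι : Type}
    (f : ι → MvPolynomial (Fin (n + 1)) R) (P : Var k → Prop) :
    (∀ X : Var k, PSub k f X → P X) ↔ ∀ (X : Var k) (_ : QCV.ProjSub f X), P X :=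
  ⟨fun h X S => h X ((psub_iff f X).mpr ⟨S⟩),
    fun h X hX => by
      obtain ⟨S⟩ := (psub_iff f X).mp hX
      exact h X S⟩

lemma oddSP_iff (P : Var k → Prop) (q : ℕ) : OddSP P q ↔ QCV.OddSystemsP P q :=
  forall_congr' fun _ => forall_congr' fun f => forall_congr' fun _ => forall_congr' fun _ =>
    forall_congr' fun _ => proj_iff f P

lemma allSP_iff (P : Var k → Prop) (q : ℕ) : AllSP P q ↔ QCV.AllSystemsP P q :=
  forall_congr' fun _ => forall_congr' fun f => forall_congr' fun _ => proj_iff f P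

lemma cubS_iff (P : Var k → Prop) (q : ℕ) : CubS P q ↔ QCV.CubicSystems P q :=
  forall_congr' fun _ => forall_congr' fun f => forall_congr' fun _ => forall_congr' fun _ =>
    forall_congr' fun _ => proj_iff (fun _ : Fin 1 => cub f) P

lemma surf_iff (hT : T.Pub) : T.Surf ↔
    ∀ Y : Var k, Y.SmoothProper 2 → (toHom hT 1).Surj Y ∧ (toHom hT 1).Semisimple Y :=
  forall_congr' fun Y => forall_congr' fun _ => and_congr (surj_iff hT 1 Y) (semi_iff hT 1 Y)

lemma low_iff (hT : T.Pub) (d : ℕ) :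
    T.Low d ↔ ∀ X : Var k, X.DimLE d → QCV.Tate (toHom hT) X :=
  forall_congr' fun X => forall_congr' fun _ => tate_iff hT X

variable [Finite k] [CharZero E]

theorem quadrics (hT : T.Pub) (h2 : (2 : k) ≠ 0) : T.Quadrics where
  odd d := by
    rw [low_iff hT, tate_eq hT]
    exact QCV.tate_odd (pub2 hT) h2 d
  oddP d := by
    rw [low_iff hT, tate_eq hT, oddSP_iff]
    exact (QCV.tate_odd (pub2 hT) h2 d).trans (QCV.oddP_iff (pub2 hT) (d + 1)).symm
  cubic d := by
    rw [low_iff hT, tate_eq hT, cubS_iff]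
    exact QCV.tate_cubic (pub2 hT) h2 d
  even d h := by
    rw [low_iff hT] at h
    rw [tate_eq hT]
    exact QCV.tate_even (pub2 hT) h2 d h
  all d := by
    rw [low_iff hT, tate_eq hT]
    exact (QCV.tate_all (pub2 hT) h2 d).symm
  allP d := by
    rw [low_iff hT, tate_eq hT, allSP_iff]
    exact ((QCV.allP_iff (pub2 hT) (d + 1)).trans (QCV.tate_all (pub2 hT) h2 d)).symm
  dis d h n m f hn hf hd := by
    rw [low_iff hT] at h
    rw [tate_eq hT]
    refine ⟨QCV.tate_dis_iff (pub2 hT) h2 d h (n + 1) m hn (by omega) f hf hd, fun X hX => ?_⟩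
    obtain ⟨S⟩ := (psub_iff f X).mp hX
    exact QCV.tate_disP_iff (pub2 hT) h2 d h n m hn f hf hd S
  disQ n m f hn hf hd := by
    rw [tate_eq hT, q1_eq hT]
    refine ⟨QCV.q1_dis_iff (pub2 hT) h2 (n + 1) m hn (by omega) f hf hd, fun X hX => ?_⟩
    obtain ⟨S⟩ := (psub_iff f X).mp hX
    exact QCV.q1_disP_iff (pub2 hT) h2 n m hn f hf hd S
  three := by
    rw [tate_eq hT, q1_eq hT]
    exact QCV.q1_three (pub2 hT) h2
  threeP := by
    rw [tate_eq hT, q1_eq hT, allSP_iff]
    exact QCV.q1_three_proj (pub2 hT) h2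

theorem main (hT : T.Pub) : T.Main where
  one X hX := by
    rw [q1_eq hT]
    exact fun i => QCV.member_one (pub2 hT) X (member_to hX) i
  tate d := by
    rw [low_iff hT, tate_eq hT]
    refine (QCV.tate_member (pub2 hT) d).trans ?_
    exact forall_congr' fun X => imp_congr_left member_iff.symm
  cone A _ _ _ n ι f h1 h2 := by
    choose m hm1 hm2 using h1
    rw [tate_eq hT] at h2 ⊢
    exact (QCV.tate_cone_iff (pub2 hT) f m hm2 hm1 h2).trans
      (proj_iff f (QCV.Tate (toHom hT))).symm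
  quadrics h2 := quadrics hT h2

theorem main2 (hT : T.Pub) (hA' : Alterations k) : T.Main2 where
  tate d := by
    rw [low_iff hT, tate_eq hT]
    exact QCV.tate_sp_iff (pub2 hT) (alterations_to hA') d
  two := by
    rw [surf_iff hT, q1_eq hT]
    constructor
    · exact fun h X hX i => QCV.member_two (pub2 hT) (alterations_to hA') h X (member_to hX) i
    · intro h Y hY
      have h1 := h Y (Member.small Y (QCV.dimLE_of_smoothProper hY)) 1
      exact ⟨h1.2.1, h1.2.2⟩
  odd h2 := by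
    rw [surf_iff hT, q1_eq hT]
    constructor
    · exact fun h n f hn hf hd i => QCV.member_two (pub2 hT) (alterations_to hA') h _
        (QCV.member_oddSystems h2 2 n f hn hf hd) i
    · intro h Y hY
      have h1 : QCV.OddSystems (QCV.Tate (toHom hT)) (2 + 1) := fun n f hn hf hd i =>
        ⟨(h n f hn hf hd i).2.1, (h n f hn hf hd i).2.2⟩
      exact (QCV.tate_odd (pub2 hT) h2 2).mpr h1 Y (QCV.dimLE_of_smoothProper hY) 1
  oddP h2 := by
    rw [surf_iff hT, q1_eq hT, oddSP_iff]
    constructor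
    · exact fun h n f hn hf hd X S i => QCV.member_two (pub2 hT) (alterations_to hA') h _
        (QCV.member_oddSystemsP h2 2 n f hn hf hd X S) i
    · intro h Y hY
      have h1 : QCV.OddSystemsP (QCV.Tate (toHom hT)) (2 + 1) := fun n f hn hf hd X S i =>
        ⟨(h n f hn hf hd X S i).2.1, (h n f hn hf hd X S i).2.2⟩
      exact (QCV.tate_odd (pub2 hT) h2 2).mpr ((QCV.oddP_iff (pub2 hT) 3).mp h1) Y
        (QCV.dimLE_of_smoothProper hY) 1
  cubic h2 := by
    rw [surf_iff hT, q1_eq hT, cubS_iff]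
    constructor
    · exact fun h n f hn hf hd X S i => QCV.member_two (pub2 hT) (alterations_to hA') h _
        (QCV.member_cubicSystems h2 2 n f hn hf hd X S) i
    · intro h Y hY
      have h1 : QCV.CubicSystems (QCV.Tate (toHom hT)) (2 + 1) := fun n f hn hf hd X S i =>
        ⟨(h n f hn hf hd X S i).2.1, (h n f hn hf hd X S i).2.2⟩
      exact (QCV.tate_cubic (pub2 hT) h2 2).mpr h1 Y (QCV.dimLE_of_smoothProper hY) 1
  all hP d := by
    have hP' : ∀ i, Pool.Agent.Lib_helper66.OneP.Purity (toHom hT i) := fun i Y d h m hm =>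
      hP i Y d h m hm
    rw [q1_eq hT]
    constructor
    · exact fun h X hX i => QCV.member_all (pub2 hT) (alterations_to hA') hP' d h X (member_to hX) i
    · intro h Y D hD hY i
      refine h Y (Member.small Y ?_) i
      intro x
      exact (QCV.dimLE_of_smoothProper hY x).trans (by exact_mod_cast hD)

omit [CharZero E] [Finite k] in
lemma four_of {R R' : Var k → Prop} (h : ∀ Y, R' Y → R Y) {n q : ℕ}
    {f : Fin (q + 1) → MvPolynomial (Fin (n + 1)) k} (hf : QCV.Three R' f) : Four R f :=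
  ⟨h _ hf.1, (proj_iff f R).mpr fun Y S => h _ (hf.2.1 Y S), h _ hf.2.2.1,
    (proj_iff (n := n + 1 + q) (fun _ : Fin 1 => cub f) R).mpr fun Y S => h _ (hf.2.2.2 Y S)⟩

omit [Finite k] in
/-- Each integral variety. -/
theorem each [Finite k] (h2 : (2 : k) ≠ 0) (d : ℕ) (X : Var k) : Each.{v} k d X := by
  intro hX hd
  obtain ⟨n, f, h1, h3, h4, h5⟩ := QCV.each3.{v} h2 X hX hd
  refine ⟨n, f, h1, h3, h4, ?_⟩
  intro E _ _ T hT
  obtain ⟨h6, h7⟩ := h5 E (toHom hT) _ (pub2 hT)
  have hq : ∀ Y : Var k, T.Q1 Y ↔ ∀ i, QCV.Q1 (toHom hT i) Y := fun Y =>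
    iff_of_eq (congrFun (q1_eq hT) Y)
  refine ⟨fun h => four_of (fun Y hY => ?_) (h6 ((low_iff hT d).mp h)),
    fun h => four_of (fun Y hY => ?_) (h7 h)⟩
  · exact (tate_iff hT X).trans (Iff.trans hY (tate_iff hT Y).symm)
  · exact (tate_iff hT X).trans (Iff.trans hY (hq Y).symm)

end UQ


end
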